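import Mathlib

/-!
# The Siegel modular threefold of level `N` and the second half of the
hyperbolic analytic subspace conjecture

Definitions only.  `G = GSp₄`, `X = ℍ₂` (Siegel upper half space of degree two),
`Γ = Γ(N) ⊆ Sp₄(ℤ)`, `S = Γ(N) \ ℍ₂`.
-/

set_option autoImplicit false

open Matrix Complex Topology

namespace Pool.Agent.H20.HASC

/-- The index set `4 = 2 + 2` of the standard representation of `GSp₄`. -/
abbrev I4 : Type := Fin 2 ⊕ Fin 2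

/-- The space `Sym₂(ℂ)` of symmetric complex `2 × 2` matrices, in the coordinates
`(v₁₁, v₁₂, v₂₂)`.  It contains `X = ℍ₂` as an open subset, so it is also the tangent space
`T_o X` for every `o ∈ X`. -/
abbrev Sym2 : Type := ℂ × ℂ × ℂ

/-- The symmetric matrix with coordinates `v`. -/
def toMat (v : Sym2) : Matrix (Fin 2) (Fin 2) ℂ := !![v.1, v.2.1; v.2.1, v.2.2]

/-- The coordinates of a symmetric matrix. -/
def ofMat (M : Matrix (Fin 2) (Fin 2) ℂ) : Sym2 := (M 0 0, M 0 1, M 1 1)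

/-- The Siegel upper half space `X = ℍ₂ = {τ ∈ Sym₂(ℂ) : Im τ > 0}`. -/
def SiegelX : Set Sym2 := {τ | ((toMat τ).map Complex.im).PosDef}

/-- The real matrix underlying an integral matrix. -/
abbrev intMat (γ : Matrix I4 I4 ℤ) : Matrix I4 I4 ℝ := γ.map (fun a => (a : ℝ))

/-- The real matrix underlying a rational matrix. -/
abbrev ratMat (q : Matrix I4 I4 ℚ) : Matrix I4 I4 ℝ := q.map (fun a => (a : ℝ))

/-- The complex matrix underlying a real matrix. -/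
abbrev cplxMat (g : Matrix I4 I4 ℝ) : Matrix I4 I4 ℂ := g.map (fun a => (a : ℂ))

/-- `Cτ + D` for `g = [[A, B], [C, D]]`. -/
noncomputable def denom (g : Matrix I4 I4 ℝ) (τ : Sym2) : Matrix (Fin 2) (Fin 2) ℂ :=
  (cplxMat g).toBlocks₂₁ * toMat τ + (cplxMat g).toBlocks₂₂

/-- `Aτ + B` for `g = [[A, B], [C, D]]`. -/
noncomputable def numer (g : Matrix I4 I4 ℝ) (τ : Sym2) : Matrix (Fin 2) (Fin 2) ℂ :=
  (cplxMat g).toBlocks₁₁ * toMat τ + (cplxMat g).toBlocks₁₂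

/-- The action `g • τ = (Aτ + B)(Cτ + D)⁻¹`. -/
noncomputable def act (g : Matrix I4 I4 ℝ) (τ : Sym2) : Sym2 :=
  ofMat (numer g τ * (denom g τ)⁻¹)

/-- `g` is a symplectic similitude with positive multiplier, i.e. `g ∈ GSp₄(ℝ)⁺`. -/
def IsGSpPos (g : Matrix I4 I4 ℝ) : Prop :=
  ∃ ν : ℝ, 0 < ν ∧ g * Matrix.J (Fin 2) ℝ * gᵀ = ν • Matrix.J (Fin 2) ℝ

/-- The principal congruence subgroup `Γ(N) = {γ ∈ Sp₄(ℤ) : γ ≡ 1 mod N}`. -/
def GammaN (N : ℕ) : Set (Matrix I4 I4 ℤ) :=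
  {γ | γ ∈ Matrix.symplecticGroup (Fin 2) ℤ ∧ ∀ i j, (N : ℤ) ∣ (γ - 1) i j}

/-! ### Siegel modular forms and the canonical model of `S = Γ(N) \ ℍ₂` over `ℚbar` -/

/-- The exponential `exp (2πi tr(Tτ) / N)`, where `T = [[n, r/2], [r/2, m]]` is encoded by
`(n, r, m) ∈ ℤ³`. -/
noncomputable def fourierTerm (N : ℕ) (T : ℤ × ℤ × ℤ) (τ : Sym2) : ℂ :=
  cexp (2 * Real.pi * Complex.I * (T.1 * τ.1 + T.2.1 * τ.2.1 + T.2.2 * τ.2.2) / N)

/-- `f` has on `ℍ₂` the Fourier expansion `∑_T a(T) exp (2πi tr(Tτ) / N)`, the sum being over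
positive semidefinite half-integral `T = [[n, r/2], [r/2, m]]`. -/
def HasFourierExpansion (N : ℕ) (f : Sym2 → ℂ) (a : ℤ × ℤ × ℤ → ℂ) : Prop :=
  (∀ n r m : ℤ, a (n, r, m) ≠ 0 → 0 ≤ n ∧ 0 ≤ m ∧ r ^ 2 ≤ 4 * n * m) ∧
    ∀ τ ∈ SiegelX, HasSum (fun T => a T * fourierTerm N T τ) (f τ)

/-- `f` is a Siegel modular form of degree `2`, weight `k` and level `Γ(N)`: it is holomorphic
on `ℍ₂`, satisfies `f(γτ) = det(Cτ + D)^k f(τ)` for `γ ∈ Γ(N)`, and is holomorphic at all cusps. -/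
structure IsSiegelForm (N k : ℕ) (f : Sym2 → ℂ) : Prop where
  holo : DifferentiableOn ℂ f SiegelX
  modular : ∀ γ ∈ GammaN N, ∀ τ ∈ SiegelX,
    f (act (intMat γ) τ) = (denom (intMat γ) τ).det ^ k * f τ
  cusps : ∀ δ ∈ Matrix.symplecticGroup (Fin 2) ℤ, ∃ a : ℤ × ℤ × ℤ → ℂ,
    HasFourierExpansion N (fun τ => ((denom (intMat δ) τ).det ^ k)⁻¹ * f (act (intMat δ) τ)) a

/-- `f ∈ M_k(Γ(N), ℚbar)`: a Siegel modular form all of whose Fourier coefficients are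
algebraic numbers. -/
def IsQbarForm (N k : ℕ) (f : Sym2 → ℂ) : Prop :=
  IsSiegelForm N k f ∧
    ∃ a : ℤ × ℤ × ℤ → ℂ, (∀ T, IsAlgebraic ℚ (a T)) ∧ HasFourierExpansion N f a

/-- `[z] ∈ S(ℚbar)`: all quotients `f/g` of modular forms of equal weight with algebraic Fourier
coefficients and `g(z) ≠ 0` take an algebraic value at `z`.  (The canonical model `S_ℚbar` is the
open subvariety `S` of `Proj ⨁ₖ M_k(Γ(N), ℚbar)`.) -/
def IsQbarPoint (N : ℕ) (z : Sym2) : Prop :=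
  ∀ (k : ℕ) (f g : Sym2 → ℂ), IsQbarForm N k f → IsQbarForm N k g → g z ≠ 0 →
    IsAlgebraic ℚ (f z / g z)

/-- The arithmetic `ℚbar`-structure `ψ⁻¹(T_[o] S_ℚbar)` on `T_o X = Sym₂(ℂ)`: the tangent vectors
`v` at `o` such that `d(f/g)_o(v)` is algebraic for all quotients `f/g` of modular forms of equal
weight with algebraic Fourier coefficients and `g(o) ≠ 0`. -/
def arithStructure (N : ℕ) (o : Sym2) : Set Sym2 :=
  {v | ∀ (k : ℕ) (f g : Sym2 → ℂ), IsQbarForm N k f → IsQbarForm N k g → g o ≠ 0 →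
    IsAlgebraic ℚ (fderiv ℂ (fun τ => f τ / g τ) o v)}

/-- `V` is rational for the `ℚbar`-structure `L`: it is the complex span of `V ∩ L`. -/
def IsRationalFor (L : Set Sym2) (V : Submodule ℂ Sym2) : Prop :=
  Submodule.span ℂ ((V : Set Sym2) ∩ L) = V

/-- The Harish-Chandra embedding `X → T_o X = Sym₂(ℂ)`, normalized to have the identity as its
differential at `o`: it sends `τ` to `(τ - o)(τ - ō)⁻¹(o - ō)`. -/
noncomputable def harishChandra (o τ : Sym2) : Sym2 :=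
  ofMat ((toMat τ - toMat o) * (toMat τ - (toMat o).map (starRingEnd ℂ))⁻¹ *
    (toMat o - (toMat o).map (starRingEnd ℂ)))

/-! ### Algebraic groups, Mumford-Tate groups and Shimura subvarieties -/

/-- The group `GSp₄(ℂ)`. -/
def GSp4 : Subgroup (GL I4 ℂ) where
  carrier := {g | ∃ ν : ℂ, (g : Matrix I4 I4 ℂ) * Matrix.J (Fin 2) ℂ * (g : Matrix I4 I4 ℂ)ᵀ
    = ν • Matrix.J (Fin 2) ℂ}
  mul_mem' := by
    rintro a b ⟨ν, hν⟩ ⟨μ, hμ⟩
    refine ⟨μ * ν, ?_⟩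
    have : ((a * b : GL I4 ℂ) : Matrix I4 I4 ℂ) * Matrix.J (Fin 2) ℂ *
        ((a * b : GL I4 ℂ) : Matrix I4 I4 ℂ)ᵀ =
        (a : Matrix I4 I4 ℂ) * ((b : Matrix I4 I4 ℂ) * Matrix.J (Fin 2) ℂ *
          (b : Matrix I4 I4 ℂ)ᵀ) * (a : Matrix I4 I4 ℂ)ᵀ := by
      simp [Matrix.mul_assoc]
    rw [this, hμ, Matrix.mul_smul, Matrix.smul_mul, hν, smul_smul]
  one_mem' := ⟨1, by simp⟩
  inv_mem' := by
    rintro a ⟨ν, hν⟩
    have h1 : ((a⁻¹ : GL I4 ℂ) : Matrix I4 I4 ℂ) * (a : Matrix I4 I4 ℂ) = 1 := by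
      rw [← Units.val_mul, inv_mul_cancel]; rfl
    have h2 : (a : Matrix I4 I4 ℂ)ᵀ * ((a⁻¹ : GL I4 ℂ) : Matrix I4 I4 ℂ)ᵀ = 1 := by
      rw [← Matrix.transpose_mul, h1, Matrix.transpose_one]
    have h3 : Matrix.J (Fin 2) ℂ = ν • (((a⁻¹ : GL I4 ℂ) : Matrix I4 I4 ℂ) *
        Matrix.J (Fin 2) ℂ * ((a⁻¹ : GL I4 ℂ) : Matrix I4 I4 ℂ)ᵀ) := by
      calc Matrix.J (Fin 2) ℂ
          = (((a⁻¹ : GL I4 ℂ) : Matrix I4 I4 ℂ) * (a : Matrix I4 I4 ℂ)) * Matrix.J (Fin 2) ℂ *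
            ((a : Matrix I4 I4 ℂ)ᵀ * ((a⁻¹ : GL I4 ℂ) : Matrix I4 I4 ℂ)ᵀ) := by
            rw [h1, h2]; simp
        _ = ((a⁻¹ : GL I4 ℂ) : Matrix I4 I4 ℂ) * ((a : Matrix I4 I4 ℂ) * Matrix.J (Fin 2) ℂ *
            (a : Matrix I4 I4 ℂ)ᵀ) * ((a⁻¹ : GL I4 ℂ) : Matrix I4 I4 ℂ)ᵀ := by
            simp only [Matrix.mul_assoc]
        _ = _ := by rw [hν, Matrix.mul_smul, Matrix.smul_mul]
    have hJ : Matrix.J (Fin 2) ℂ ≠ 0 := by
      intro h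
      have := congrFun (congrFun h (Sum.inr 0)) (Sum.inl 0)
      simp [Matrix.J] at this
    have hν0 : ν ≠ 0 := by
      rintro rfl
      rw [zero_smul] at h3
      exact hJ h3
    refine ⟨ν⁻¹, ?_⟩
    conv_rhs => rw [h3, smul_smul, inv_mul_cancel₀ hν0, one_smul]

/-- `H` is (the group of complex points of) an algebraic subgroup of `GL₄` defined over `ℚ`: it is
the set of all `g ∈ GL₄(ℂ)` satisfying some set of polynomial equations with rational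
coefficients. -/
def IsQSubgroup (H : Subgroup (GL I4 ℂ)) : Prop :=
  ∃ E : Set (MvPolynomial (I4 × I4) ℚ), ∀ g : GL I4 ℂ,
    g ∈ H ↔ ∀ p ∈ E, MvPolynomial.aeval (fun ij : I4 × I4 => (g : Matrix I4 I4 ℂ) ij.1 ij.2) p = 0

/-- The real points `H(ℝ)`. -/
def realPoints (H : Subgroup (GL I4 ℂ)) : Set (Matrix I4 I4 ℝ) :=
  {M | ∃ g ∈ H, (g : Matrix I4 I4 ℂ) = cplxMat M}

/-- The identity component `H(ℝ)⁺` for the real topology. -/
def realComponent (H : Subgroup (GL I4 ℂ)) : Set (Matrix I4 I4 ℝ) :=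
  connectedComponentIn (realPoints H) 1

/-- The complex structure `J_τ` on `ℝ⁴` attached to `τ = x + iy ∈ ℍ₂`: the real matrix with
`J_τ (τ; 1) = i (τ; 1)`. -/
noncomputable def hodgeJ (τ : Sym2) : Matrix I4 I4 ℝ :=
  let x := (toMat τ).map Complex.re
  let y := (toMat τ).map Complex.im
  Matrix.fromBlocks (x * y⁻¹) (-(y + x * y⁻¹ * x)) y⁻¹ (-(y⁻¹ * x))

/-- The homomorphism `h_τ : 𝕊(ℝ) = ℂˣ → GSp₄(ℝ)`, `a + bi ↦ a + b J_τ` attached to `τ ∈ X`. -/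
noncomputable def hodge (τ : Sym2) (s : ℂ) : Matrix I4 I4 ℝ :=
  s.re • (1 : Matrix I4 I4 ℝ) + s.im • hodgeJ τ

/-- `h_τ(𝕊) ⊆ H_ℝ`. -/
def FactorsThrough (τ : Sym2) (H : Subgroup (GL I4 ℂ)) : Prop :=
  ∀ s : ℂ, s ≠ 0 → hodge τ s ∈ realPoints H

/-- The Mumford-Tate group `MT(τ)`: the smallest algebraic subgroup `H ⊆ GSp₄` defined over `ℚ`
with `h_τ(𝕊) ⊆ H_ℝ`. -/
def MT (τ : Sym2) : Subgroup (GL I4 ℂ) :=
  sInf {H | H ≤ GSp4 ∧ IsQSubgroup H ∧ FactorsThrough τ H}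

/-- `T` is a maximal torus of `GSp₄`: over `ℂ` it is conjugate to the diagonal torus. -/
def IsMaximalTorus (T : Subgroup (GL I4 ℂ)) : Prop :=
  ∃ g ∈ GSp4, ∀ t : GL I4 ℂ,
    t ∈ T ↔ t ∈ GSp4 ∧ ((g⁻¹ * t * g : GL I4 ℂ) : Matrix I4 I4 ℂ).IsDiag

/-- `Z = u⁻¹(S')` for a Shimura subvariety `S'` of `S = Γ(N) \ X`: `Z = Γ(N) · q · H(ℝ)⁺ · x₀` for
an algebraic subgroup `H ⊆ GSp₄` over `ℚ`, a point `x₀ ∈ X` with `h_{x₀}(𝕊) ⊆ H_ℝ` (so that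
`H(ℝ)⁺ · x₀` is a connected component of `X_H`) and `q ∈ GSp₄(ℚ)⁺` (a Hecke translate). -/
def IsShimuraPreimage (N : ℕ) (Z : Set Sym2) : Prop :=
  ∃ H : Subgroup (GL I4 ℂ), H ≤ GSp4 ∧ IsQSubgroup H ∧
  ∃ x₀ ∈ SiegelX, FactorsThrough x₀ H ∧
  ∃ q : Matrix I4 I4 ℚ, IsGSpPos (ratMat q) ∧
    Z = {τ | ∃ γ ∈ GammaN N, ∃ h ∈ realComponent H, τ = act (intMat γ) (act (ratMat q) (act h x₀))}

/-- The Zariski tangent space at `o` of the germ of `Z` at `o`: all `v ∈ T_o X` killed by `df_o`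
for every analytic function germ `f` at `o` that vanishes on `Z`. -/
def tangentSpaceAt (Z : Set Sym2) (o : Sym2) : Set Sym2 :=
  {v | ∀ f : Sym2 → ℂ, AnalyticAt ℂ f o → (∀ᶠ τ in 𝓝 o, τ ∈ Z → f τ = 0) → fderiv ℂ f o v = 0}

/-- The assertion of Q2 for the Shimura variety `S = Γ(N) \ ℍ₂`. -/
def Q2Statement (N : ℕ) : Prop :=
  ∀ o ∈ SiegelX, ∀ z ∈ SiegelX, IsMaximalTorus (MT o) → IsQbarPoint N z →
    ∀ V : Submodule ℂ Sym2, IsRationalFor (arithStructure N o) V → harishChandra o z ∈ V →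
      ∃ Z : Set Sym2, IsShimuraPreimage N Z ∧ z ∈ Z ∧ o ∈ Z ∧
        harishChandra o z ∈ tangentSpaceAt Z o ∧ tangentSpaceAt Z o ⊆ V

end Pool.Agent.H20.HASC
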