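import Pool.Agent.H20.HASC.SBasic3

set_option autoImplicit false

open Matrix Topology
open scoped Real

namespace Pool.Agent.H20.HASC

lemma cplx_inj {A B : Matrix I4 I4 ℝ} (h : cplxMat A = cplxMat B) : A = B := by
  ext i j
  have := congrFun (congrFun h i) j
  simpa using this

lemma cplx_one : cplxMat (1 : Matrix I4 I4 ℝ) = 1 := by
  have := Matrix.map_one (n := I4) Complex.ofRealHom (map_zero _) (map_one _)
  exact this

lemma isUnit_y {τ : Sym2} (hτ : τ ∈ SiegelX) : IsUnit ((toMat τ).map Complex.im).det :=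
  isUnit_iff_ne_zero.mpr (Matrix.PosDef.det_pos hτ).ne'

/-- the real and imaginary parts -/
lemma toMat_re_im (τ : Sym2) : toMat τ = ((toMat τ).map Complex.re).map (fun a => (a : ℂ)) +
    Complex.I • ((toMat τ).map Complex.im).map (fun a => (a : ℂ)) := by
  ext i j
  simp only [Matrix.add_apply, Matrix.smul_apply, Matrix.map_apply, smul_eq_mul]
  rw [mul_comm, Complex.re_add_im]

lemma real_ext {A B : Matrix (Fin 2) (Fin 2) ℝ}
    (h : A.map (fun a => (a : ℂ)) + Complex.I • B.map (fun a => (a : ℂ)) = 0) : A = 0 ∧ B = 0 := by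
  constructor
  · ext i j
    have := congrArg Complex.re (congrFun (congrFun h i) j)
    simpa using this
  · ext i j
    have := congrArg Complex.im (congrFun (congrFun h i) j)
    simpa using this

lemma map_mul' (A B : Matrix (Fin 2) (Fin 2) ℝ) :
    (A * B).map (fun a => (a : ℂ)) = A.map (fun a => (a : ℂ)) * B.map (fun a => (a : ℂ)) :=
  Matrix.map_mul (f := Complex.ofRealHom)

lemma block_zero {A B : Matrix (Fin 2) (Fin 2) ℝ} {τ : Sym2} (hτ : τ ∈ SiegelX)
    (h : A.map (fun a => (a : ℂ)) * toMat τ + B.map (fun a => (a : ℂ)) = 0) : A = 0 ∧ B = 0 := by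
  rw [toMat_re_im] at h
  set x := (toMat τ).map Complex.re
  set y := (toMat τ).map Complex.im with hy
  have h1 : (A * x + B).map (fun a => (a : ℂ)) + Complex.I • (A * y).map (fun a => (a : ℂ)) = 0 := by
    rw [← h, map_mul', Matrix.mul_add, Matrix.mul_smul]
    have : (A * x + B).map (fun a => (a : ℂ)) = A.map (fun a => (a : ℂ)) * x.map (fun a => (a : ℂ))
        + B.map (fun a => (a : ℂ)) := by
      rw [← map_mul']; ext i j; simp
    rw [this]
    abel
  obtain ⟨h2, h3⟩ := real_ext h1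
  have h4 : A = 0 := by
    have := congrArg (· * y⁻¹) h3
    simp only [Matrix.mul_assoc, Matrix.zero_mul] at this
    rwa [Matrix.mul_nonsing_inv _ (isUnit_y hτ), Matrix.mul_one] at this
  refine ⟨h4, ?_⟩
  rw [h4, Matrix.zero_mul, zero_add] at h2
  exact h2

lemma real_col_zero {M : Matrix I4 I4 ℝ} {τ : Sym2} (hτ : τ ∈ SiegelX)
    (h : cplxMat M * col τ = 0) : M = 0 := by
  rw [cplx_mul_col] at h
  have h0 : (0 : Matrix I4 (Fin 2) ℂ) = Matrix.fromRows 0 0 := by
    ext i j; rcases i with i | i <;> rfl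
  rw [h0, Matrix.fromRows_inj.eq_iff] at h
  obtain ⟨h1, h2⟩ := h
  have e1 := block_zero (A := M.toBlocks₁₁) (B := M.toBlocks₁₂) hτ h1
  have e2 := block_zero (A := M.toBlocks₂₁) (B := M.toBlocks₂₂) hτ h2
  rw [← Matrix.fromBlocks_toBlocks M, e1.1, e1.2, e2.1, e2.2, Matrix.fromBlocks_zero]

lemma hodgeJ_col {τ : Sym2} (hτ : τ ∈ SiegelX) :
    cplxMat (hodgeJ τ) * col τ = Complex.I • col τ := by
  set x := (toMat τ).map Complex.re with hx
  set y := (toMat τ).map Complex.im with hy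
  have hu := isUnit_y hτ
  rw [← hy] at hu
  have hT : toMat τ = x.map (fun a => (a : ℂ)) + Complex.I • y.map (fun a => (a : ℂ)) :=
    toMat_re_im τ
  have hyc : (y⁻¹).map (fun a => (a : ℂ)) * y.map (fun a => (a : ℂ)) = 1 := by
    rw [← map_mul', Matrix.nonsing_inv_mul _ hu]
    exact Matrix.map_one Complex.ofRealHom (map_zero _) (map_one _)
  rw [cplx_mul_col, col]
  have hs : Complex.I • Matrix.fromRows (toMat τ) (1 : Matrix (Fin 2) (Fin 2) ℂ) =
      Matrix.fromRows (Complex.I • toMat τ) (Complex.I • 1) := by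
    ext i j; rcases i with i | i <;> rfl
  rw [hs, Matrix.fromRows_inj.eq_iff]
  have hneg : ∀ A : Matrix (Fin 2) (Fin 2) ℝ, (-A).map (fun a => (a : ℂ)) =
      -(A.map (fun a => (a : ℂ))) := by
    intro A; ext i j; simp
  have hadd : ∀ A B : Matrix (Fin 2) (Fin 2) ℝ, (A + B).map (fun a => (a : ℂ)) =
      A.map (fun a => (a : ℂ)) + B.map (fun a => (a : ℂ)) := by
    intro A B; ext i j; simp
  have hn : numer (hodgeJ τ) τ = (x * y⁻¹).map (fun a => (a : ℂ)) * toMat τ +
      (-(y + x * y⁻¹ * x)).map (fun a => (a : ℂ)) := rfl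
  have hd : denom (hodgeJ τ) τ = (y⁻¹).map (fun a => (a : ℂ)) * toMat τ +
      (-(y⁻¹ * x)).map (fun a => (a : ℂ)) := rfl
  constructor
  · rw [hn, hT, hneg, hadd, map_mul', map_mul', map_mul']
    set X := x.map (fun a => (a : ℂ))
    set Y := y.map (fun a => (a : ℂ))
    set Z := (y⁻¹).map (fun a => (a : ℂ))
    have e1 : X * Z * (X + Complex.I • Y) = X * Z * X + Complex.I • X := by
      rw [Matrix.mul_add, Matrix.mul_smul, Matrix.mul_assoc X Z Y, hyc, Matrix.mul_one]
    rw [e1, smul_add, smul_smul, Complex.I_mul_I, neg_one_smul]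
    abel
  · rw [hd, hT, hneg, map_mul']
    set X := x.map (fun a => (a : ℂ))
    set Y := y.map (fun a => (a : ℂ))
    set Z := (y⁻¹).map (fun a => (a : ℂ))
    rw [Matrix.mul_add, Matrix.mul_smul, hyc]
    abel

lemma hodgeJ_unique {M : Matrix I4 I4 ℝ} {τ : Sym2} (hτ : τ ∈ SiegelX)
    (h : cplxMat M * col τ = Complex.I • col τ) : M = hodgeJ τ := by
  have h1 : cplxMat (M - hodgeJ τ) * col τ = 0 := by
    have : cplxMat (M - hodgeJ τ) = cplxMat M - cplxMat (hodgeJ τ) := by
      ext i j; simp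
    rw [this, Matrix.sub_mul, h, hodgeJ_col hτ, sub_self]
  exact sub_eq_zero.mp (real_col_zero hτ h1)

lemma hodgeJ_act {g g' : Matrix I4 I4 ℝ} (hg : IsGSpPos g) (hgg : g' * g = 1) {τ : Sym2}
    (hτ : τ ∈ SiegelX) : hodgeJ (act g τ) = g * hodgeJ τ * g' := by
  symm
  apply hodgeJ_unique (act_mem hg hτ)
  have hu := denom_isUnit hg hτ
  have h1 : col (act g τ) = cplxMat g * col τ * (denom g τ)⁻¹ := by
    rw [col_act hg hτ, Matrix.mul_assoc, Matrix.mul_nonsing_inv _ hu, Matrix.mul_one]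
  have h2 : cplxMat g' * cplxMat g = 1 := by rw [← cplx_mul, hgg, cplx_one]
  rw [cplx_mul, cplx_mul]
  calc cplxMat g * cplxMat (hodgeJ τ) * cplxMat g' * col (act g τ)
      = cplxMat g * cplxMat (hodgeJ τ) * (cplxMat g' * cplxMat g) * col τ * (denom g τ)⁻¹ := by
        rw [h1]; simp only [Matrix.mul_assoc]
    _ = cplxMat g * (cplxMat (hodgeJ τ) * col τ) * (denom g τ)⁻¹ := by
        rw [h2, Matrix.mul_one]; simp only [Matrix.mul_assoc]
    _ = Complex.I • (cplxMat g * col τ * (denom g τ)⁻¹) := by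
        rw [hodgeJ_col hτ, Matrix.mul_smul, Matrix.smul_mul]
    _ = _ := by rw [← h1]

lemma hodge_act {g g' : Matrix I4 I4 ℝ} (hg : IsGSpPos g) (hgg : g' * g = 1) {τ : Sym2}
    (hτ : τ ∈ SiegelX) (s : ℂ) : hodge (act g τ) s = g * hodge τ s * g' := by
  have hgg' : g * g' = 1 := mul_eq_one_comm.mp hgg
  rw [hodge, hodge, hodgeJ_act hg hgg hτ, Matrix.mul_add, Matrix.add_mul, Matrix.mul_smul,
    Matrix.mul_smul, Matrix.smul_mul, Matrix.smul_mul, Matrix.mul_one, hgg']

end Pool.Agent.H20.HASC
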