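import Pool.Agent.H20.HASC.SModular

set_option autoImplicit false

open Matrix Topology UpperHalfPlane ModularForm CongruenceSubgroup MatrixGroups
open scoped Real

namespace Pool.Agent.H20.HASC

/-- the translation `τ ↦ τ + [[0, 1], [1, 0]]` -/
def nB : Matrix I4 I4 ℤ := Matrix.fromBlocks 1 !![0, 1; 1, 0] 0 1

/-- its inverse -/
def nB' : Matrix I4 I4 ℤ := Matrix.fromBlocks 1 !![0, -1; -1, 0] 0 1

lemma nB_mul : nB * nB' = 1 := by
  rw [nB, nB', Matrix.fromBlocks_multiply, ← Matrix.fromBlocks_one, Matrix.fromBlocks_inj]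
  refine ⟨?_, ?_, ?_, ?_⟩ <;> ext i j <;> fin_cases i <;> fin_cases j <;> simp

lemma nB_mul' : nB' * nB = 1 := by
  rw [nB, nB', Matrix.fromBlocks_multiply, ← Matrix.fromBlocks_one, Matrix.fromBlocks_inj]
  refine ⟨?_, ?_, ?_, ?_⟩ <;> ext i j <;> fin_cases i <;> fin_cases j <;> simp

lemma nB_mem : nB ∈ Matrix.symplecticGroup (Fin 2) ℤ := by
  rw [SymplecticGroup.mem_iff]
  rw [nB, Matrix.J, Matrix.fromBlocks_transpose, Matrix.fromBlocks_multiply,
    Matrix.fromBlocks_multiply, Matrix.fromBlocks_inj]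
  simp only [t22]
  refine ⟨?_, ?_, ?_, ?_⟩ <;> ext i j <;> fin_cases i <;> fin_cases j <;> simp

lemma nB'_mem : nB' ∈ Matrix.symplecticGroup (Fin 2) ℤ := by
  rw [SymplecticGroup.mem_iff]
  rw [nB', Matrix.J, Matrix.fromBlocks_transpose, Matrix.fromBlocks_multiply,
    Matrix.fromBlocks_multiply, Matrix.fromBlocks_inj]
  simp only [t22]
  refine ⟨?_, ?_, ?_, ?_⟩ <;> ext i j <;> fin_cases i <;> fin_cases j <;> simp

lemma denom_nB (τ : Sym2) : HASC.denom (intMat nB) τ = 1 := by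
  rw [HASC.denom]
  ext i j
  fin_cases i <;> fin_cases j <;>
    simp [nB, toMat, Matrix.toBlocks₂₁, Matrix.toBlocks₂₂, Matrix.mul_apply, Fin.sum_univ_two]

lemma numer_nB (τ : Sym2) : HASC.numer (intMat nB) τ = toMat (τ.1, τ.2.1 + 1, τ.2.2) := by
  rw [HASC.numer]
  ext i j
  fin_cases i <;> fin_cases j <;>
    simp [nB, toMat, Matrix.toBlocks₁₁, Matrix.toBlocks₁₂, Matrix.mul_apply, Fin.sum_univ_two]

lemma act_nB (τ : Sym2) : act (intMat nB) τ = (τ.1, τ.2.1 + 1, τ.2.2) := by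
  rw [act, denom_nB, numer_nB]
  simp

lemma intMat_mul (a b : Matrix I4 I4 ℤ) : intMat (a * b) = intMat a * intMat b := by
  have := Matrix.map_mul (L := a) (M := b) (f := Int.castRingHom ℝ)
  exact this

lemma dvd_conj {N : ℕ} {a b c : Matrix I4 I4 ℤ} (h : ∀ i j, (N : ℤ) ∣ b i j) (i j : I4) :
    (N : ℤ) ∣ (a * b * c) i j := by
  rw [Matrix.mul_apply]
  refine Finset.dvd_sum fun k _ => Dvd.dvd.mul_right ?_ _
  rw [Matrix.mul_apply]
  exact Finset.dvd_sum fun l _ => Dvd.dvd.mul_left (h _ _) _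

lemma conj_GammaN {N : ℕ} {γ : Matrix I4 I4 ℤ} (h : γ ∈ GammaN N) : nB * γ * nB' ∈ GammaN N := by
  refine ⟨mul_mem (mul_mem nB_mem h.1) nB'_mem, ?_⟩
  have : nB * γ * nB' - 1 = nB * (γ - 1) * nB' := by
    rw [Matrix.mul_sub, Matrix.sub_mul, Matrix.mul_one, nB_mul]
  rw [this]
  exact dvd_conj h.2

/-- the translated function -/
def shift (f : Sym2 → ℂ) (τ : Sym2) : ℂ := f (τ.1, τ.2.1 + 1, τ.2.2)

lemma shift_mem {τ : Sym2} (h : τ ∈ SiegelX) : ((τ.1, τ.2.1 + 1, τ.2.2) : Sym2) ∈ SiegelX := by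
  rw [mem_SiegelX] at *
  simpa using h

lemma shift_eq (f : Sym2 → ℂ) (τ : Sym2) : shift f τ = f (act (intMat nB) τ) := by
  rw [shift, act_nB]

lemma fourierTerm_shift {N : ℕ} (T : ℤ × ℤ × ℤ) (τ : Sym2) :
    fourierTerm N T (τ.1, τ.2.1 + 1, τ.2.2) =
      Complex.exp (2 * π * Complex.I * ((T.2.1 : ℚ) / (N : ℚ) : ℚ)) * fourierTerm N T τ := by
  rw [fourierTerm, fourierTerm, ← Complex.exp_add]
  congr 1
  push_cast
  ring

lemma IsQbarForm.shift {N : ℕ} {k : ℕ} {f : Sym2 → ℂ} (h : IsQbarForm N k f) :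
    IsQbarForm N k (shift f) := by
  refine ⟨⟨?_, ?_, ?_⟩, ?_⟩
  · refine h.1.holo.comp (t := SiegelX) (f := fun τ : Sym2 => ((τ.1, τ.2.1 + 1, τ.2.2) : Sym2))
      ?_ ?_
    · exact (by fun_prop : Differentiable ℂ
        (fun τ : Sym2 => ((τ.1, τ.2.1 + 1, τ.2.2) : Sym2))).differentiableOn
    · intro τ hτ
      exact shift_mem hτ
  · intro γ hγ τ hτ
    have hγ' := conj_GammaN hγ
    have e1 : intMat nB * intMat γ = intMat (nB * γ * nB') * intMat nB := by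
      rw [← intMat_mul, ← intMat_mul, Matrix.mul_assoc, nB_mul', Matrix.mul_one]
    have g1 := isGSpPos_of_mem hγ.1
    have g2 := isGSpPos_of_mem nB_mem
    rw [shift_eq, shift_eq, ← act_mul g1 hτ, e1, act_mul g2 hτ,
      h.1.modular _ hγ' _ (act_mem g2 hτ)]
    congr 2
    have e2 : HASC.denom (intMat (nB * γ * nB') * intMat nB) τ =
        HASC.denom (intMat nB * intMat γ) τ := by rw [e1]
    rw [denom_mul g2 hτ, denom_mul g1 hτ, denom_nB, denom_nB, Matrix.mul_one, Matrix.one_mul] at e2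
    rw [e2]
  · intro δ hδ
    obtain ⟨a, ha1, ha2⟩ := h.1.cusps (nB * δ) (mul_mem nB_mem hδ)
    refine ⟨a, ha1, fun τ hτ => ?_⟩
    have := ha2 τ hτ
    simp only at this ⊢
    rw [intMat_mul, act_mul (isGSpPos_of_mem hδ) hτ, denom_mul (isGSpPos_of_mem hδ) hτ, denom_nB,
      Matrix.one_mul] at this
    rw [shift_eq]
    exact this
  · obtain ⟨a, ha, ha1, ha2⟩ := h.2
    refine ⟨fun T => a T * Complex.exp (2 * π * Complex.I * ((T.2.1 : ℚ) / (N : ℚ) : ℚ)),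
      fun T => ?_, ?_, ?_⟩
    · rw [← mem_QB]
      exact mul_mem (mem_QB.mpr (ha T)) (alg_exp_rat _)
    · intro n r m hne
      exact ha1 n r m (left_ne_zero_of_mul hne)
    · intro τ hτ
      have := ha2 _ (shift_mem hτ)
      refine HasSum.congr_fun' this fun T => ?_
      rw [fourierTerm_shift]
      ring

/-- the point `z` -/
noncomputable def zPt : Sym2 := (Complex.I * (Real.sqrt 3 : ℂ), 1, 2 * Complex.I)

/-- the point `o` -/
noncomputable def oPt : Sym2 := (2 * Complex.I, 0, Complex.I * (Real.sqrt 3 : ℂ))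

lemma coe_pt2I : (pt2I : ℂ) = 2 * Complex.I := by
  apply Complex.ext <;> simp [pt2I]

lemma coe_ptS3 : (ptS3 : ℂ) = Complex.I * (Real.sqrt 3 : ℂ) := by
  apply Complex.ext <;> simp [ptS3]

lemma oPt_eq : oPt = ((pt2I : ℂ), (0 : ℂ), (ptS3 : ℂ)) := by
  rw [coe_pt2I, coe_ptS3, oPt]

lemma zPt_mem : zPt ∈ SiegelX := by
  rw [mem_SiegelX]
  simp [zPt]

lemma oPt_mem : oPt ∈ SiegelX := by
  rw [oPt_eq]; exact mem_pt_zero _ _

theorem isQbarPoint_z {N : ℕ} [NeZero N] : IsQbarPoint N zPt := by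
  intro k f g hf hg hgz
  obtain ⟨Ω₁, h1⟩ := exists_goodPoint_S3
  obtain ⟨Ω₂, h2⟩ := exists_goodPoint_2I
  have key : ∀ F : Sym2 → ℂ, IsQbarForm N k F → IsAlgebraic ℚ (F zPt / (Ω₁ ^ k * Ω₂ ^ k)) := by
    intro F hF
    have := hF.shift.restr.value h1 h2
    have e : restr (shift F) ptS3 pt2I = F zPt := by
      rw [restr, shift, coe_pt2I, coe_ptS3, zPt]
      simp
    rwa [e] at this
  have h3 := key f hf
  have h4 := key g hg
  have hΩ : Ω₁ ^ k * Ω₂ ^ k ≠ 0 := mul_ne_zero (pow_ne_zero _ h1.1) (pow_ne_zero _ h2.1)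
  have h5 : f zPt / g zPt = (f zPt / (Ω₁ ^ k * Ω₂ ^ k)) / (g zPt / (Ω₁ ^ k * Ω₂ ^ k)) := by
    rw [div_div_div_cancel_right₀ hΩ]
  rw [h5, ← mem_QB]
  exact div_mem (mem_QB.mpr h3) (mem_QB.mpr h4)

end Pool.Agent.H20.HASC
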