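import Pool.Agent.H20.HASC.Elliptic9

set_option autoImplicit false

open UpperHalfPlane ModularForm ModularFormClass MatrixGroups SlashInvariantFormClass
  CongruenceSubgroup Function EisensteinSeries Derivative
open scoped Topology Manifold Real Pointwise Nat

namespace Pool.Agent.H20.HASC

/-- a function given by a convergent `q`-series is holomorphic -/
lemma mdiff_of_hasSum {N : ℕ} [NeZero N] {f : ℍ → ℂ} {c : ℕ → ℂ}
    (hf : ∀ τ : ℍ, HasSum (fun m ↦ c m • Periodic.qParam N τ ^ m) (f τ)) : MDiff f := by
  have hsum : ∀ q : ℂ, ‖q‖ < 1 → Summable (fun m ↦ c m * q ^ m) := by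
    intro q hq
    by_cases h0 : q = 0
    · subst h0
      refine summable_of_ne_finset_zero (s := {0}) fun b hb => ?_
      have : b ≠ 0 := by simpa using hb
      simp [this]
    · have h1 := Periodic.im_invQParam_pos_of_norm_lt_one (N_pos N) hq h0
      have h2 := (hf ⟨Periodic.invQParam N q, h1⟩).summable
      simp only [smul_eq_mul] at h2
      have h3 : Periodic.qParam N (Periodic.invQParam N q) = q :=
        Periodic.qParam_right_inv (N_pos N).ne' h0
      rw [h3] at h2
      exact h2
  set p : FormalMultilinearSeries ℂ ℂ ℂ := .ofScalars ℂ c with hp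
  have hrad : 1 ≤ p.radius := by
    refine le_of_forall_lt_imp_le_of_dense fun r hr ↦ ?_
    lift r to NNReal using hr.ne_top
    apply FormalMultilinearSeries.le_radius_of_summable
    have := (hsum (r : ℂ) (by simpa using hr)).norm
    simpa [hp] using this
  have hP : HasFPowerSeriesOnBall p.sum p 0 p.radius :=
    p.hasFPowerSeriesOnBall (lt_of_lt_of_le one_pos hrad)
  have hdiff : DifferentiableOn ℂ p.sum (Metric.ball 0 1) := by
    have h1 := hP.differentiableOn
    refine h1.mono ?_
    intro z hz
    rw [mem_ball_zero_iff] at hz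
    rw [Metric.mem_eball, edist_zero_right]
    refine lt_of_lt_of_le ?_ hrad
    rw [enorm_eq_nnnorm]
    exact_mod_cast hz
  have heq : ∀ τ : ℍ, f τ = p.sum (Periodic.qParam N τ) := by
    intro τ
    rw [FormalMultilinearSeries.sum, ← (hf τ).tsum_eq]
    refine tsum_congr fun n => ?_
    simp [hp, mul_comm]
  rw [UpperHalfPlane.mdifferentiable_iff]
  have : DifferentiableOn ℂ (p.sum ∘ Periodic.qParam N) upperHalfPlaneSet := by
    refine hdiff.comp (Periodic.differentiable_qParam).differentiableOn ?_
    intro z hz
    rw [mem_ball_zero_iff]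
    exact Periodic.norm_qParam_lt_one (N_pos N) hz
  refine this.congr ?_
  intro z hz
  simp only [Function.comp]
  rw [ofComplex_apply_of_im_pos hz, heq]

end Pool.Agent.H20.HASC
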