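import Pool.Agent.H20.HASC.Bi1

set_option autoImplicit false

open UpperHalfPlane ModularForm ModularFormClass MatrixGroups SlashInvariantFormClass
  CongruenceSubgroup Function EisensteinSeries Derivative
open scoped Topology Manifold Real Pointwise Nat

namespace Pool.Agent.H20.HASC

lemma qParam_add_N {N : ℕ} [NeZero N] (z : ℂ) :
    Periodic.qParam N (z + N) = Periodic.qParam N z := by
  have hN : (N : ℂ) ≠ 0 := by exact_mod_cast NeZero.ne N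
  simp only [Periodic.qParam]
  have : 2 * π * Complex.I * (z + N) / ((N : ℝ) : ℂ) = 2 * π * Complex.I * z / ((N : ℝ) : ℂ) +
      2 * π * Complex.I := by
    push_cast
    field_simp
  rw [this, Complex.exp_add, Complex.exp_two_pi_mul_I, mul_one]

lemma isQF_of_hasSum {N : ℕ} [NeZero N] {f : ℍ → ℂ} {c : ℕ → ℂ}
    (hf : ∀ τ : ℍ, HasSum (fun m ↦ c m • Periodic.qParam N τ ^ m) (f τ)) : IsQF N f where
  per := by
    intro z
    simp only [Function.comp]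
    by_cases hz : 0 < z.im
    · have hz' : 0 < (z + (N : ℝ)).im := by simpa using hz
      rw [ofComplex_apply_of_im_pos hz, ofComplex_apply_of_im_pos hz']
      have h1 := hf ⟨z, hz⟩
      have h2 := hf ⟨z + (N : ℝ), hz'⟩
      refine h2.unique ?_
      refine HasSum.congr_fun' h1 fun m => ?_
      have := qParam_add_N (N := N) z
      simp only [Complex.ofReal_natCast]
      rw [this]
    · have hz' : ¬ 0 < (z + (N : ℝ)).im := by simpa using hz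
      rw [ofComplex_apply_of_im_nonpos (not_lt.mp hz), ofComplex_apply_of_im_nonpos (not_lt.mp hz')]
  hol := mdiff_of_hasSum hf
  bdd := isBoundedAtImInfty_of_hasSum_qExpansion (N_pos N) hf

lemma hasSum_unique {N : ℕ} [NeZero N] {f : ℍ → ℂ} {a b : ℕ → ℂ}
    (ha : ∀ τ : ℍ, HasSum (fun m ↦ a m • Periodic.qParam N τ ^ m) (f τ))
    (hb : ∀ τ : ℍ, HasSum (fun m ↦ b m • Periodic.qParam N τ ^ m) (f τ)) : a = b := by
  funext m
  rw [(isQF_of_hasSum ha).coeff_unique ha m, (isQF_of_hasSum ha).coeff_unique hb m]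

/-- the term of a double `q`-series -/
noncomputable def biTerm (N : ℕ) (p : ℕ × ℕ) (τ₁ τ₂ : ℍ) : ℂ :=
  Periodic.qParam N τ₁ ^ p.1 * Periodic.qParam N τ₂ ^ p.2

/-- `G` is given by the double `q`-series with coefficients `c` -/
def HasBiSum (N : ℕ) (c : ℕ × ℕ → ℂ) (G : ℍ → ℍ → ℂ) : Prop :=
  ∀ τ₁ τ₂ : ℍ, HasSum (fun p => c p * biTerm N p τ₁ τ₂) (G τ₁ τ₂)

lemma HasBiSum.summable_fiber {N : ℕ} {c : ℕ × ℕ → ℂ} {G : ℍ → ℍ → ℂ} (h : HasBiSum N c G)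
    (m : ℕ) (τ₂ : ℍ) : Summable (fun n => c (m, n) • Periodic.qParam N τ₂ ^ n) := by
  have h1 := (h UpperHalfPlane.I τ₂).summable
  have h2 : Summable (fun n => c (m, n) * biTerm N (m, n) UpperHalfPlane.I τ₂) :=
    h1.comp_injective (Prod.mk_right_injective m)
  have h3 := h2.mul_left ((Periodic.qParam N UpperHalfPlane.I ^ m)⁻¹)
  refine h3.congr fun n => ?_
  have : Periodic.qParam N UpperHalfPlane.I ^ m ≠ 0 := pow_ne_zero _ (Periodic.qParam_ne_zero _)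
  rw [biTerm, smul_eq_mul]
  field_simp

/-- the `m`-th coefficient function -/
noncomputable def coefFn (N : ℕ) (c : ℕ × ℕ → ℂ) (m : ℕ) (τ₂ : ℍ) : ℂ :=
  ∑' n, c (m, n) • Periodic.qParam N τ₂ ^ n

lemma HasBiSum.hasSum_coefFn {N : ℕ} {c : ℕ × ℕ → ℂ} {G : ℍ → ℍ → ℂ} (h : HasBiSum N c G)
    (m : ℕ) (τ₂ : ℍ) :
    HasSum (fun n => c (m, n) • Periodic.qParam N τ₂ ^ n) (coefFn N c m τ₂) :=
  (h.summable_fiber m τ₂).hasSum

lemma HasBiSum.hasSum_outer {N : ℕ} {c : ℕ × ℕ → ℂ} {G : ℍ → ℍ → ℂ} (h : HasBiSum N c G)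
    (τ₁ τ₂ : ℍ) :
    HasSum (fun m => coefFn N c m τ₂ • Periodic.qParam N τ₁ ^ m) (G τ₁ τ₂) := by
  refine (h τ₁ τ₂).prod_fiberwise fun m => ?_
  have h1 := (h.hasSum_coefFn m τ₂).mul_right (Periodic.qParam N τ₁ ^ m)
  refine HasSum.congr_fun' h1 fun n => ?_
  rw [biTerm, smul_eq_mul]
  ring

/-- functions on `ℍ × ℍ` that are modular forms in each variable and have double Fourier
expansions at the cusps -/
structure IsBi (N : ℕ) (k l : ℤ) (G : ℍ → ℍ → ℂ) : Prop where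
  inv1 : ∀ γ ∈ Gamma N, ∀ τ₂, (fun τ => G τ τ₂) ∣[k] γ = fun τ => G τ τ₂
  inv2 : ∀ γ ∈ Gamma N, ∀ τ₁, (fun τ => G τ₁ τ) ∣[l] γ = fun τ => G τ₁ τ
  exp1 : ∀ δ : SL(2, ℤ), ∃ c : ℕ × ℕ → ℂ, HasBiSum N c (fun τ₁ τ₂ => ((fun τ => G τ τ₂) ∣[k] δ) τ₁)
  exp2 : ∀ δ : SL(2, ℤ), ∃ c : ℕ × ℕ → ℂ, HasBiSum N c (fun τ₁ τ₂ => ((fun τ => G τ₁ τ) ∣[l] δ) τ₂)

/-- with algebraic Fourier coefficients at `(∞, ∞)` -/
structure IsABi (N : ℕ) (k l : ℤ) (G : ℍ → ℍ → ℂ) : Prop extends IsBi N k l G where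
  alg : ∃ c : ℕ × ℕ → ℂ, (∀ p, c p ∈ QB) ∧ HasBiSum N c G

lemma HasBiSum.swap {N : ℕ} {c : ℕ × ℕ → ℂ} {G : ℍ → ℍ → ℂ} (h : HasBiSum N c G) :
    HasBiSum N (fun p => c p.swap) (fun τ₁ τ₂ => G τ₂ τ₁) := by
  intro τ₁ τ₂
  have := (Equiv.prodComm ℕ ℕ).hasSum_iff.mpr (h τ₂ τ₁)
  refine HasSum.congr_fun' this fun p => ?_
  simp only [Function.comp, Equiv.prodComm_apply, biTerm, Prod.fst_swap, Prod.snd_swap]
  ring

lemma IsABi.swap {N : ℕ} {k l : ℤ} {G : ℍ → ℍ → ℂ} (h : IsABi N k l G) :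
    IsABi N l k (fun τ₁ τ₂ => G τ₂ τ₁) where
  inv1 := h.inv2
  inv2 := h.inv1
  exp1 δ := by
    obtain ⟨c, hc⟩ := h.exp2 δ
    exact ⟨_, hc.swap⟩
  exp2 δ := by
    obtain ⟨c, hc⟩ := h.exp1 δ
    exact ⟨_, hc.swap⟩
  alg := by
    obtain ⟨c, hc, hc'⟩ := h.alg
    exact ⟨_, fun p => hc _, hc'.swap⟩

/-- The coefficient functions are modular forms with algebraic coefficients. -/
theorem IsBi.coefFn_isMF {N : ℕ} [NeZero N] {k l : ℤ} {G : ℍ → ℍ → ℂ} (h : IsBi N k l G)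
    {c : ℕ × ℕ → ℂ} (hc : HasBiSum N c G) (m : ℕ) : IsMF N l (coefFn N c m) := by
  have key : ∀ (δ : SL(2, ℤ)) (c' : ℕ × ℕ → ℂ),
      HasBiSum N c' (fun τ₁ τ₂ => ((fun τ => G τ₁ τ) ∣[l] δ) τ₂) →
      (coefFn N c m) ∣[l] δ = coefFn N c' m := by
    intro δ c' hc'
    funext τ₂
    have h1 : ∀ τ₁ : ℍ, HasSum (fun m => coefFn N c' m τ₂ • Periodic.qParam N τ₁ ^ m)
        (((fun τ => G τ₁ τ) ∣[l] δ) τ₂) := fun τ₁ => hc'.hasSum_outer τ₁ τ₂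
    have h2 : ∀ τ₁ : ℍ, HasSum (fun m => (((coefFn N c m) ∣[l] δ) τ₂) • Periodic.qParam N τ₁ ^ m)
        (((fun τ => G τ₁ τ) ∣[l] δ) τ₂) := by
      intro τ₁
      have h3 := hc.hasSum_outer τ₁ (δ • τ₂)
      rw [SL_slash_apply]
      have h4 := h3.mul_right (denom δ τ₂ ^ (-l))
      refine HasSum.congr_fun' h4 fun m => ?_
      rw [SL_slash_apply, smul_eq_mul, smul_eq_mul]
      ring
    exact congrFun (hasSum_unique h2 h1) m
  refine ⟨?_, ?_, ?_⟩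
  · intro γ hγ
    refine key γ c ?_
    intro τ₁ τ₂
    have h1 := congrFun (h.inv2 γ hγ τ₁) τ₂
    change HasSum _ (((fun τ => G τ₁ τ) ∣[l] γ) τ₂)
    rw [h1]
    exact hc τ₁ τ₂
  · exact mdiff_of_hasSum fun τ => hc.hasSum_coefFn m τ
  · intro δ
    obtain ⟨c', hc'⟩ := h.exp2 δ
    rw [key δ c' hc']
    exact isBoundedAtImInfty_of_hasSum_qExpansion (N_pos N) fun τ => hc'.hasSum_coefFn m τ

theorem IsBi.coefFn_isAMF {N : ℕ} [NeZero N] {k l : ℤ} {G : ℍ → ℍ → ℂ} (h : IsBi N k l G)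
    {c : ℕ × ℕ → ℂ} (hc : HasBiSum N c G) (halg : ∀ p, c p ∈ QB) (m : ℕ) :
    IsAMF N l (coefFn N c m) where
  toIsMF := h.coefFn_isMF hc m
  alg n := by
    rw [← (h.coefFn_isMF hc m).coeff_unique (fun τ => hc.hasSum_coefFn m τ) n]
    exact halg _

/-- Specializing the second variable to a good point. -/
theorem IsABi.eval_second {N : ℕ} [NeZero N] {k : ℤ} {l : ℕ} {G : ℍ → ℍ → ℂ}
    (h : IsABi N k l G) {τ₀ : ℍ} {Ω : ℂ} (hg : GoodPoint τ₀ Ω) :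
    IsAMF N k (fun τ => G τ τ₀ / Ω ^ l) := by
  obtain ⟨c, halg, hc⟩ := h.alg
  have hsum : ∀ τ : ℍ, HasSum (fun m => (coefFn N c m τ₀ / Ω ^ l) • Periodic.qParam N τ ^ m)
      (G τ τ₀ / Ω ^ l) := by
    intro τ
    have h1 := (hc.hasSum_outer τ τ₀).div_const (Ω ^ l)
    refine HasSum.congr_fun' h1 fun m => ?_
    rw [smul_eq_mul, smul_eq_mul]
    ring
  have hfun : (fun τ => G τ τ₀ / Ω ^ l) = (Ω ^ l)⁻¹ • (fun τ => G τ τ₀) := by
    funext τ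
    simp [div_eq_inv_mul]
  have hMF : IsMF N k (fun τ => G τ τ₀ / Ω ^ l) := by
    refine ⟨?_, ?_, ?_⟩
    · intro γ hγ
      rw [hfun, SL_smul_slash, h.inv1 γ hγ τ₀]
    · exact mdiff_of_hasSum hsum
    · intro δ
      obtain ⟨c', hc'⟩ := h.exp1 δ
      rw [hfun, SL_smul_slash]
      have h2 : IsBoundedAtImInfty ((fun τ => G τ τ₀) ∣[k] δ) :=
        isBoundedAtImInfty_of_hasSum_qExpansion (N_pos N) fun τ => hc'.hasSum_outer τ τ₀
      exact h2.const_smul_left _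
  refine { toIsMF := hMF, alg := fun n => ?_ }
  rw [← hMF.coeff_unique hsum n, mem_QB]
  exact hg.2 N l _ (h.toIsBi.coefFn_isAMF hc halg n)

/-- Specializing the first variable to a good point. -/
theorem IsABi.eval_first {N : ℕ} [NeZero N] {k : ℕ} {l : ℤ} {G : ℍ → ℍ → ℂ}
    (h : IsABi N k l G) {τ₀ : ℍ} {Ω : ℂ} (hg : GoodPoint τ₀ Ω) :
    IsAMF N l (fun τ => G τ₀ τ / Ω ^ k) :=
  h.swap.eval_second hg

/-- The value at a pair of good points. -/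
theorem IsABi.value {N : ℕ} [NeZero N] {k l : ℕ} {G : ℍ → ℍ → ℂ}
    (h : IsABi N k l G) {τ₁ τ₂ : ℍ} {Ω₁ Ω₂ : ℂ} (h1 : GoodPoint τ₁ Ω₁) (h2 : GoodPoint τ₂ Ω₂) :
    IsAlgebraic ℚ (G τ₁ τ₂ / (Ω₁ ^ k * Ω₂ ^ l)) := by
  have := h1.2 N k _ (h.eval_second h2)
  rw [div_div, mul_comm] at this
  exact this

end Pool.Agent.H20.HASC
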