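import Mathlib

set_option autoImplicit false

open UpperHalfPlane ModularForm ModularFormClass MatrixGroups SlashInvariantFormClass
  CongruenceSubgroup Function
open scoped Topology Manifold Real

namespace Pool.Agent.H20.HASC

/-- unbundled modular forms for `Γ(N)` -/
structure IsMF (N : ℕ) (k : ℤ) (f : ℍ → ℂ) : Prop where
  inv : ∀ γ ∈ Gamma N, f ∣[k] γ = f
  hol : MDiff f
  bdd : ∀ δ : SL(2, ℤ), IsBoundedAtImInfty (f ∣[k] δ)

/-- the group `Γ(N)` inside `GL₂(ℝ)` -/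
abbrev GN (N : ℕ) : Subgroup (GL (Fin 2) ℝ) := ((Gamma N : Subgroup SL(2, ℤ)) : Subgroup (GL (Fin 2) ℝ))

/-- bundling -/
noncomputable def IsMF.toMF {N : ℕ} [NeZero N] {k : ℤ} {f : ℍ → ℂ} (h : IsMF N k f) :
    ModularForm (GN N) k where
  toFun := f
  slash_action_eq' := by
    rintro γ ⟨δ, hδ, rfl⟩
    exact h.inv δ hδ
  holo' := h.hol
  bdd_at_cusps' := by
    intro c hc
    rw [Subgroup.IsArithmetic.isCusp_iff_isCusp_SL2Z] at hc
    rw [OnePoint.isBoundedAt_iff_forall_SL2Z hc]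
    intro γ _
    exact h.bdd γ

@[simp] lemma IsMF.coe_toMF {N : ℕ} [NeZero N] {k : ℤ} {f : ℍ → ℂ} (h : IsMF N k f) :
    (h.toMF : ℍ → ℂ) = f := rfl

lemma isMF_of_mf {N : ℕ} [NeZero N] {k : ℤ} (f : ModularForm (GN N) k) : IsMF N k f where
  inv γ hγ := by
    have := SlashInvariantFormClass.slash_action_eq f (γ : GL (Fin 2) ℝ) ⟨γ, hγ, rfl⟩
    exact this
  hol := ModularFormClass.holo f
  bdd δ := ModularFormClass.bdd_at_infty_slash f δ

lemma N_mem_strictPeriods (N : ℕ) : (N : ℝ) ∈ (GN N).strictPeriods := by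
  rw [Subgroup.mem_strictPeriods_iff]
  refine ⟨ModularGroup.T ^ (N : ℤ), ?_, ?_⟩
  · have := ModularGroup_T_pow_mem_Gamma (N : ℤ) (N : ℤ) dvd_rfl
    simpa using this
  · have h : ((ModularGroup.T ^ (N : ℤ) : SL(2, ℤ)) : Matrix (Fin 2) (Fin 2) ℤ)
        = !![1, (N : ℤ); 0, 1] := ModularGroup.coe_T_zpow _
    ext i j
    rw [Matrix.SpecialLinearGroup.mapGL_coe_matrix, Matrix.SpecialLinearGroup.map_apply_coe, h]
    fin_cases i <;> fin_cases j <;>
      simp [Matrix.GeneralLinearGroup.upperRightHom]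

lemma IsMF.periodic {N : ℕ} [NeZero N] {k : ℤ} {f : ℍ → ℂ} (h : IsMF N k f) :
    Periodic (f ∘ ofComplex) (N : ℝ) := by
  have := periodic_comp_ofComplex h.toMF (N_mem_strictPeriods N)
  exact this

lemma N_pos (N : ℕ) [NeZero N] : (0 : ℝ) < N := by
  have := NeZero.ne N
  positivity

lemma IsMF.bdd_infty {N : ℕ} {k : ℤ} {f : ℍ → ℂ} (h : IsMF N k f) :
    IsBoundedAtImInfty f := by
  simpa using h.bdd 1

lemma IsMF.analyticAt {N : ℕ} [NeZero N] {k : ℤ} {f : ℍ → ℂ} (h : IsMF N k f) :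
    AnalyticAt ℂ (cuspFunction N f) 0 :=
  analyticAt_cuspFunction_zero (N_pos N) h.periodic h.hol h.bdd_infty

lemma IsMF.hasSum {N : ℕ} [NeZero N] {k : ℤ} {f : ℍ → ℂ} (h : IsMF N k f) (τ : ℍ) :
    HasSum (fun m : ℕ ↦ (qExpansion N f).coeff m • Periodic.qParam N τ ^ m) (f τ) :=
  hasSum_qExpansion (N_pos N) h.periodic h.hol h.bdd_infty τ

lemma IsMF.eq_zero_iff {N : ℕ} [NeZero N] {k : ℤ} {f : ℍ → ℂ} (h : IsMF N k f) :
    qExpansion N f = 0 ↔ f = 0 :=
  qExpansion_eq_zero_iff (N_pos N) h.periodic h.hol h.bdd_infty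

lemma IsMF.mul {N : ℕ} {k l : ℤ} {f g : ℍ → ℂ} (hf : IsMF N k f) (hg : IsMF N l g) :
    IsMF N (k + l) (f * g) where
  inv γ hγ := by rw [mul_slash_SL2, hf.inv γ hγ, hg.inv γ hγ]
  hol := hf.hol.mul hg.hol
  bdd δ := by
    rw [mul_slash_SL2]
    exact (hf.bdd δ).mul (hg.bdd δ)

lemma IsMF.add {N : ℕ} {k : ℤ} {f g : ℍ → ℂ} (hf : IsMF N k f) (hg : IsMF N k g) :
    IsMF N k (f + g) where
  inv γ hγ := by rw [SlashAction.add_slash, hf.inv γ hγ, hg.inv γ hγ]
  hol := hf.hol.add hg.hol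
  bdd δ := by
    rw [SlashAction.add_slash]
    exact (hf.bdd δ).add (hg.bdd δ)

lemma IsMF.const_smul {N : ℕ} {k : ℤ} {f : ℍ → ℂ} (hf : IsMF N k f) (c : ℂ) :
    IsMF N k (c • f) where
  inv γ hγ := by rw [SL_smul_slash, hf.inv γ hγ]
  hol := hf.hol.const_smul c
  bdd δ := by
    rw [SL_smul_slash]
    exact (hf.bdd δ).const_smul_left c

lemma isMF_one (N : ℕ) : IsMF N 0 1 where
  inv γ _ := is_invariant_one γ
  hol := mdifferentiable_const
  bdd δ := by
    rw [is_invariant_one]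
    exact Filter.const_boundedAtFilter _ _

lemma IsMF.pow {N : ℕ} {k : ℤ} {f : ℍ → ℂ} (hf : IsMF N k f) (n : ℕ) :
    IsMF N (n * k) (f ^ n) := by
  induction n with
  | zero => simpa using isMF_one N
  | succ n ih =>
    rw [pow_succ]
    have := ih.mul hf
    convert this using 1
    push_cast; ring

lemma isMF_zero (N : ℕ) (k : ℤ) : IsMF N k 0 where
  inv γ _ := by simp
  hol := mdifferentiable_const
  bdd δ := by
    rw [SlashAction.zero_slash]
    exact Filter.const_boundedAtFilter _ _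

lemma IsMF.sum {N : ℕ} {k : ℤ} {ι : Type*} (s : Finset ι) {f : ι → ℍ → ℂ}
    (hf : ∀ i ∈ s, IsMF N k (f i)) : IsMF N k (∑ i ∈ s, f i) := by
  classical
  induction s using Finset.induction_on with
  | empty => simpa using isMF_zero N k
  | insert a s ha ih =>
    rw [Finset.sum_insert ha]
    exact (hf a (by simp)).add (ih fun i hi => hf i (by simp [hi]))

lemma IsMF.cast {N : ℕ} {k l : ℤ} {f : ℍ → ℂ} (h : IsMF N k f) (e : k = l) : IsMF N l f := e ▸ h

end Pool.Agent.H20.HASC
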