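import Pool.Agent.H20.HASC.Elliptic1

set_option autoImplicit false

open UpperHalfPlane ModularForm ModularFormClass MatrixGroups SlashInvariantFormClass
  CongruenceSubgroup Function
open scoped Topology Manifold Real

namespace Pool.Agent.H20.HASC

lemma IsMF.slash {N : ℕ} {k : ℤ} {f : ℍ → ℂ} (h : IsMF N k f) (δ : SL(2, ℤ)) :
    IsMF N k (f ∣[k] δ) where
  inv γ hγ := by
    rw [← SlashAction.slash_mul]
    have h1 : δ * γ = (δ * γ * δ⁻¹) * δ := by group
    rw [h1, SlashAction.slash_mul, h.inv _ ((Gamma_normal N).conj_mem γ hγ δ)]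
  hol := by
    rw [SL_slash]
    exact h.hol.slash k _
  bdd δ' := by
    rw [← SlashAction.slash_mul]
    exact h.bdd _

lemma IsMF.prod {N : ℕ} {k : ℤ} {ι : Type*} (s : Finset ι) {f : ι → ℍ → ℂ}
    (hf : ∀ i ∈ s, IsMF N k (f i)) : IsMF N (s.card * k) (∏ i ∈ s, f i) := by
  classical
  induction s using Finset.induction_on with
  | empty => simpa using isMF_one N
  | insert a s ha ih =>
    rw [Finset.prod_insert ha, Finset.card_insert_of_notMem ha]
    refine ((hf a (by simp)).mul (ih fun i hi => hf i (by simp [hi]))).cast ?_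
    push_cast; ring

lemma IsMF.qExpansion_mul {N : ℕ} [NeZero N] {k l : ℤ} {f g : ℍ → ℂ} (hf : IsMF N k f)
    (hg : IsMF N l g) : qExpansion N (f * g) = qExpansion N f * qExpansion N g :=
  UpperHalfPlane.qExpansion_mul hf.analyticAt hg.analyticAt

lemma qParam_pow_N {N : ℕ} [NeZero N] (τ : ℂ) : Periodic.qParam N τ ^ N = Periodic.qParam 1 τ := by
  have hN : (N : ℂ) ≠ 0 := by exact_mod_cast NeZero.ne N
  simp only [Periodic.qParam]
  rw [← Complex.exp_nat_mul]
  congr 1
  push_cast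
  field_simp

lemma IsMF.coeff_unique {N : ℕ} [NeZero N] {k : ℤ} {f : ℍ → ℂ} (h : IsMF N k f) {c : ℕ → ℂ}
    (hc : ∀ τ : ℍ, HasSum (fun m ↦ c m • Periodic.qParam N τ ^ m) (f τ)) (m : ℕ) :
    c m = (qExpansion N f).coeff m :=
  ModularFormClass.qExpansion_coeff_unique (f := h.toMF) (N_pos N) (N_mem_strictPeriods N) hc m

/-- comparison of `q`-expansions at widths `1` and `N` -/
lemma qExpansion_coeff_of_hasSum_one {N : ℕ} [NeZero N] {k : ℤ} {g : ℍ → ℂ} {b : ℕ → ℂ}
    (hg : IsMF N k g)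
    (hb : ∀ τ : ℍ, HasSum (fun m ↦ b m • Periodic.qParam 1 τ ^ m) (g τ)) (m : ℕ) :
    (qExpansion N g).coeff (N * m) = b m := by
  classical
  have hNpos : 0 < N := Nat.pos_of_ne_zero (NeZero.ne N)
  have hinj : Injective (fun n : ℕ => N * n) := fun x y hxy => Nat.eq_of_mul_eq_mul_left hNpos hxy
  have key : ∀ τ : ℍ, HasSum (fun m ↦ (if N ∣ m then b (m / N) else 0) •
      Periodic.qParam N τ ^ m) (g τ) := by
    intro τ
    refine (hinj.hasSum_iff ?_).mp ?_
    · intro x hx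
      have : ¬ N ∣ x := by
        rintro ⟨c, rfl⟩
        exact hx ⟨c, rfl⟩
      simp only [this, if_false, zero_smul]
    · have h1 := hb τ
      have h2 : ((fun m ↦ (if N ∣ m then b (m / N) else 0) • Periodic.qParam (N : ℝ) τ ^ m) ∘
          fun n : ℕ => N * n) = fun m ↦ b m • Periodic.qParam 1 τ ^ m := by
        funext n
        simp only [Function.comp, dvd_mul_right, if_true]
        rw [Nat.mul_div_cancel_left n hNpos, pow_mul, qParam_pow_N]
      rw [h2]
      exact h1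
  have h3 := hg.coeff_unique key (N * m)
  rw [← h3]
  simp only [dvd_mul_right, if_true]
  rw [Nat.mul_div_cancel_left m hNpos]

/-- **Sturm bound for `Γ(N)`**. -/
theorem sturm_GN (N : ℕ) [NeZero N] : ∃ C : ℕ, 0 < C ∧ ∀ (k : ℕ) (f : ℍ → ℂ), IsMF N k f →
    (∀ n ≤ C * k, (qExpansion N f).coeff n = 0) → f = 0 := by
  classical
  set h : ℕ := Nat.card (𝒮ℒ ⧸ (GN N).subgroupOf 𝒮ℒ) with hh
  have hh0 : 0 < h := by
    rw [hh]; exact Nat.card_pos
  refine ⟨N * h, Nat.mul_pos (Nat.pos_of_ne_zero (NeZero.ne N)) hh0, fun k f hf hcoef => ?_⟩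
  set F : ModularForm (GN N) k := hf.toMF with hF
  set G := ModularForm.norm 𝒮ℒ F with hG
  let _ : Fintype (𝒮ℒ ⧸ (GN N).subgroupOf 𝒮ℒ) := Fintype.ofFinite _
  have hGf : (G : ℍ → ℂ) = ∏ q : 𝒮ℒ ⧸ (GN N).subgroupOf 𝒮ℒ, SlashInvariantForm.quotientFunc F q := by
    rw [hG, ModularForm.coe_norm]
  -- each factor is a modular form
  have hfac : ∀ q : 𝒮ℒ ⧸ (GN N).subgroupOf 𝒮ℒ, IsMF N k (SlashInvariantForm.quotientFunc F q) := by
    intro q
    induction q using Quotient.inductionOn with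
    | h r =>
      rw [SlashInvariantForm.quotientFunc_mk]
      obtain ⟨δ, hδ⟩ := (r⁻¹).2
      have : ((r : GL (Fin 2) ℝ))⁻¹ = (δ : GL (Fin 2) ℝ) := by
        rw [← Subgroup.coe_inv]; exact hδ.symm
      rw [this]
      exact hf.slash δ
  have hsplit := Finset.mul_prod_erase (Finset.univ)
    (fun q : 𝒮ℒ ⧸ (GN N).subgroupOf 𝒮ℒ => SlashInvariantForm.quotientFunc F q)
    (Finset.mem_univ (⟦1⟧ : 𝒮ℒ ⧸ (GN N).subgroupOf 𝒮ℒ))
  have h1 : SlashInvariantForm.quotientFunc F (⟦1⟧ : 𝒮ℒ ⧸ (GN N).subgroupOf 𝒮ℒ) = f := by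
    rw [SlashInvariantForm.quotientFunc_mk]
    simp [hF]
  rw [← hGf, h1] at hsplit
  set R := ∏ q ∈ Finset.univ.erase (⟦1⟧ : 𝒮ℒ ⧸ (GN N).subgroupOf 𝒮ℒ),
    SlashInvariantForm.quotientFunc F q with hR
  have hRMF : IsMF N _ R := IsMF.prod _ fun q _ => hfac q
  have hq : qExpansion N G = qExpansion N f * qExpansion N R := by
    rw [← hsplit]
    exact hf.qExpansion_mul hRMF
  have hGMF : ∃ l, IsMF N l G := ⟨_, hsplit ▸ hf.mul hRMF⟩
  obtain ⟨l, hGMF⟩ := hGMF
  -- vanishing of the level one expansion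
  have hone : ∀ n, (qExpansion N G).coeff (N * n) = (qExpansion 1 G).coeff n := by
    intro n
    refine qExpansion_coeff_of_hasSum_one hGMF (b := fun n => (qExpansion 1 G).coeff n) ?_ n
    intro τ
    have := ModularForm.hasSum_qExpansion G one_pos one_mem_strictPeriods_SL τ
    simpa using this
  have hvan : ∀ n ≤ N * h * k, (qExpansion N G).coeff n = 0 := by
    intro n hn
    rw [hq, PowerSeries.coeff_mul]
    refine Finset.sum_eq_zero fun p hp => ?_
    rw [hcoef p.1, zero_mul]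
    have := Finset.HasAntidiagonal.mem_antidiagonal.mp hp
    omega
  have hG0 : G = 0 := by
    apply sturm_bound_levelOne
    have hw : ((k : ℤ) * (Nat.card (𝒮ℒ ⧸ (GN N).subgroupOf 𝒮ℒ) : ℤ)).toNat = k * h := by
      rw [← hh]; exact_mod_cast Int.toNat_natCast (k * h)
    rw [hw]
    have hle : ((k * h / 12 + 1 : ℕ) : ℕ∞) ≤ (qExpansion 1 G).order := by
      refine PowerSeries.nat_le_order _ _ fun n hn => ?_
      rw [← hone n]
      apply hvan
      have h12 : n ≤ k * h := by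
        have := Nat.div_le_self (k * h) 12
        omega
      calc N * n ≤ N * (k * h) := Nat.mul_le_mul_left N h12
        _ = N * h * k := by ring
    refine lt_of_lt_of_le ?_ hle
    exact_mod_cast Nat.lt_succ_self _
  have := (ModularForm.norm_eq_zero_iff (f := F) 𝒮ℒ).mp hG0
  simpa [hF] using this

end Pool.Agent.H20.HASC
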