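import Pool.Agent.H20.HASC.Elliptic2

set_option autoImplicit false

open UpperHalfPlane ModularForm ModularFormClass MatrixGroups SlashInvariantFormClass
  CongruenceSubgroup Function
open scoped Topology Manifold Real

namespace Pool.Agent.H20.HASC

/-- the field of algebraic numbers in `ℂ` -/
noncomputable abbrev QB : IntermediateField ℚ ℂ := algebraicClosure ℚ ℂ

lemma mem_QB {x : ℂ} : x ∈ QB ↔ IsAlgebraic ℚ x := mem_algebraicClosure_iff

/-- power series with algebraic coefficients -/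
def AlgPS (φ : PowerSeries ℂ) : Prop := ∀ n, φ.coeff n ∈ QB

lemma AlgPS.mul {φ ψ : PowerSeries ℂ} (h : AlgPS φ) (h' : AlgPS ψ) : AlgPS (φ * ψ) := by
  intro n
  rw [PowerSeries.coeff_mul]
  exact sum_mem fun p _ => mul_mem (h _) (h' _)

lemma AlgPS.one : AlgPS 1 := by
  intro n
  rw [PowerSeries.coeff_one]
  split_ifs
  · exact one_mem _
  · exact zero_mem _

lemma AlgPS.pow {φ : PowerSeries ℂ} (h : AlgPS φ) (n : ℕ) : AlgPS (φ ^ n) := by
  induction n with
  | zero => simpa using AlgPS.one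
  | succ n ih => rw [pow_succ]; exact ih.mul h

lemma AlgPS.add {φ ψ : PowerSeries ℂ} (h : AlgPS φ) (h' : AlgPS ψ) : AlgPS (φ + ψ) := by
  intro n
  rw [map_add]
  exact add_mem (h _) (h' _)

lemma AlgPS.smul {φ : PowerSeries ℂ} (h : AlgPS φ) {c : ℂ} (hc : c ∈ QB) : AlgPS (c • φ) := by
  intro n
  rw [PowerSeries.coeff_smul]
  exact mul_mem hc (h n)

/-- modular forms for `Γ(N)` with algebraic `q`-expansion -/
structure IsAMF (N : ℕ) (k : ℤ) (f : ℍ → ℂ) : Prop extends IsMF N k f where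
  alg : AlgPS (qExpansion N f)

lemma IsMF.qExpansion_add {N : ℕ} [NeZero N] {k l : ℤ} {f g : ℍ → ℂ} (hf : IsMF N k f)
    (hg : IsMF N l g) : qExpansion N (f + g) = qExpansion N f + qExpansion N g :=
  UpperHalfPlane.qExpansion_add hf.analyticAt hg.analyticAt

lemma IsMF.qExpansion_smul {N : ℕ} [NeZero N] {k : ℤ} {f : ℍ → ℂ} (hf : IsMF N k f)
    (c : ℂ) : qExpansion N (c • f) = c • qExpansion N f :=
  UpperHalfPlane.qExpansion_smul hf.analyticAt c

lemma IsMF.qExpansion_pow {N : ℕ} [NeZero N] {k : ℤ} {f : ℍ → ℂ} (hf : IsMF N k f) (n : ℕ) :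
    qExpansion N (f ^ n) = qExpansion N f ^ n := by
  induction n with
  | zero => simpa using qExpansion_one _
  | succ n ih => rw [pow_succ, pow_succ, (hf.pow n).qExpansion_mul hf, ih]

lemma IsMF.qExpansion_sum {N : ℕ} [NeZero N] {k : ℤ} {ι : Type*} (s : Finset ι) {f : ι → ℍ → ℂ}
    (hf : ∀ i ∈ s, IsMF N k (f i)) :
    qExpansion N (∑ i ∈ s, f i) = ∑ i ∈ s, qExpansion N (f i) := by
  classical
  induction s using Finset.induction_on with
  | empty => simpa using qExpansion_zero _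
  | insert a s ha ih =>
    rw [Finset.sum_insert ha, Finset.sum_insert ha,
      (hf a (by simp)).qExpansion_add (IsMF.sum s fun i hi => hf i (by simp [hi])),
      ih fun i hi => hf i (by simp [hi])]

lemma IsAMF.mul {N : ℕ} [NeZero N] {k l : ℤ} {f g : ℍ → ℂ} (hf : IsAMF N k f) (hg : IsAMF N l g) :
    IsAMF N (k + l) (f * g) where
  toIsMF := hf.toIsMF.mul hg.toIsMF
  alg := by rw [hf.toIsMF.qExpansion_mul hg.toIsMF]; exact hf.alg.mul hg.alg

lemma IsAMF.pow {N : ℕ} [NeZero N] {k : ℤ} {f : ℍ → ℂ} (hf : IsAMF N k f) (n : ℕ) :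
    IsAMF N (n * k) (f ^ n) where
  toIsMF := hf.toIsMF.pow n
  alg := by rw [hf.toIsMF.qExpansion_pow]; exact hf.alg.pow n

lemma IsAMF.cast {N : ℕ} {k l : ℤ} {f : ℍ → ℂ} (h : IsAMF N k f) (e : k = l) : IsAMF N l f := e ▸ h

/-- A nontrivial algebraic relation between three modular forms of equal weight. -/
theorem exists_relation {N : ℕ} [NeZero N] {w : ℕ} (hw : 0 < w) {G P Q : ℍ → ℂ}
    (hG : IsAMF N w G) (hP : IsAMF N w P) (hQ : IsAMF N w Q) :
    ∃ (d : ℕ) (c : Fin (d + 1) × Fin (d + 1) → ℂ), (∀ i, c i ∈ QB) ∧ (∃ i, c i ≠ 0) ∧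
      ∀ τ : ℍ, ∑ i : Fin (d + 1) × Fin (d + 1),
        c i * (G τ ^ (i.1 : ℕ) * P τ ^ (i.2 : ℕ) * Q τ ^ (2 * d - i.1 - i.2)) = 0 := by
  classical
  obtain ⟨C, hC0, hC⟩ := sturm_GN N
  set d : ℕ := 2 * C * w with hd
  have hd0 : 0 < d := by positivity
  let mon : Fin (d + 1) × Fin (d + 1) → ℍ → ℂ := fun i =>
    G ^ (i.1 : ℕ) * P ^ (i.2 : ℕ) * Q ^ (2 * d - i.1 - i.2)
  have hmon : ∀ i, IsAMF N ((2 * d * w : ℕ) : ℤ) (mon i) := by
    intro i
    refine (((hG.pow i.1).mul (hP.pow i.2)).mul (hQ.pow (2 * d - i.1 - i.2))).cast ?_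
    have h1 : (i.1 : ℕ) ≤ d := Nat.lt_succ_iff.mp i.1.2
    have h2 : (i.2 : ℕ) ≤ d := Nat.lt_succ_iff.mp i.2.2
    have h3 : (i.1 : ℕ) + i.2 + (2 * d - i.1 - i.2) = 2 * d := by omega
    have h4 : ((i.1 : ℕ) : ℤ) + ((i.2 : ℕ) : ℤ) + ((2 * d - i.1 - i.2 : ℕ) : ℤ) = 2 * d := by
      exact_mod_cast h3
    push_cast
    rw [← h4]
    ring
  set B : ℕ := C * (2 * d * w) with hB
  let v : Fin (d + 1) × Fin (d + 1) → (Fin (B + 1) → QB) := fun i n =>
    ⟨(qExpansion N (mon i)).coeff n, (hmon i).alg n⟩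
  have hnot : ¬ LinearIndependent QB v := by
    intro hli
    have h1 := hli.fintype_card_le_finrank
    rw [Module.finrank_fin_fun, Fintype.card_prod, Fintype.card_fin] at h1
    have : B = d * d := by rw [hB, hd]; ring
    nlinarith
  obtain ⟨g, hg, i₀, hi₀⟩ := Fintype.not_linearIndependent_iff.mp hnot
  refine ⟨d, fun i => (g i : ℂ), fun i => (g i).2, ⟨i₀, by simpa using hi₀⟩, ?_⟩
  -- the form `f = ∑ g i • mon i`
  set f : ℍ → ℂ := ∑ i, (g i : ℂ) • mon i with hf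
  have hfMF : IsMF N ((2 * d * w : ℕ) : ℤ) f :=
    IsMF.sum _ fun i _ => (hmon i).toIsMF.const_smul _
  have hfq : ∀ n ≤ B, (qExpansion N f).coeff n = 0 := by
    intro n hn
    rw [hf, IsMF.qExpansion_sum _ fun i _ => (hmon i).toIsMF.const_smul _, map_sum]
    have h2 := congrFun hg ⟨n, Nat.lt_succ_of_le hn⟩
    have h3 := congrArg (fun x : QB => (x : ℂ)) h2
    simp only [Finset.sum_apply, Pi.smul_apply, Pi.zero_apply, smul_eq_mul, v] at h3
    rw [← ZeroMemClass.coe_zero QB, ← h3]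
    rw [AddSubmonoidClass.coe_finsetSum]
    refine Finset.sum_congr rfl fun i _ => ?_
    rw [(hmon i).toIsMF.qExpansion_smul, PowerSeries.coeff_smul]
    rfl
  have hf0 : f = 0 := hC (2 * d * w) f hfMF hfq
  intro τ
  have := congrFun hf0 τ
  rw [hf] at this
  simpa [mon] using this

end Pool.Agent.H20.HASC
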