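import Pool.Agent.H20.HASC.Elliptic3

set_option autoImplicit false

open UpperHalfPlane ModularForm ModularFormClass MatrixGroups SlashInvariantFormClass
  CongruenceSubgroup Function
open scoped Topology Manifold Real

namespace Pool.Agent.H20.HASC

lemma pow_ne_zero_fun {P : ℍ → ℂ} (hP : MDiff P) (hne : P ≠ 0) (n : ℕ) : P ^ n ≠ 0 := by
  induction n with
  | zero =>
    intro h
    have := congrFun h UpperHalfPlane.I
    simp at this
  | succ n ih =>
    rw [pow_succ]
    intro h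
    rcases (UpperHalfPlane.mul_eq_zero_iff (hP.pow n) hP).mp h with h | h
    · exact ih h
    · exact hne h

/-- Evaluate an algebraic relation at a zero of `P`. -/
theorem alg_ratio {N : ℕ} [NeZero N] {w : ℕ} (hw : 0 < w) {G P Q : ℍ → ℂ}
    (hG : IsAMF N w G) (hP : IsAMF N w P) (hQ : IsAMF N w Q) {τ₀ : ℍ}
    (hP0 : P τ₀ = 0) (hPne : P ≠ 0) (hQ0 : Q τ₀ ≠ 0) : IsAlgebraic ℚ (G τ₀ / Q τ₀) := by
  classical
  obtain ⟨d, c, hcalg, ⟨⟨a₀, b₀⟩, hab⟩, hrel⟩ := exists_relation hw hG hP hQ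
  -- minimal exponent of `P`
  let S : Finset (Fin (d + 1)) := Finset.univ.filter fun b => ∃ a, c (a, b) ≠ 0
  have hS : S.Nonempty := ⟨b₀, by simp only [S, Finset.mem_filter, Finset.mem_univ, true_and]; exact ⟨a₀, hab⟩⟩
  obtain ⟨m, hmS, hmin⟩ := S.exists_min_image (fun b => (b : ℕ)) hS
  have hm1 : ∃ a, c (a, m) ≠ 0 := by simpa [S] using hmS
  have hm2 : ∀ i : Fin (d + 1) × Fin (d + 1), (i.2 : ℕ) < m → c i = 0 := by
    intro i hi
    by_contra hne
    have : i.2 ∈ S := by
      simp only [S, Finset.mem_filter, Finset.mem_univ, true_and]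
      exact ⟨i.1, hne⟩
    have := hmin i.2 this
    omega
  let T : ℍ → ℂ := ∑ i : Fin (d + 1) × Fin (d + 1),
    c i • (G ^ (i.1 : ℕ) * P ^ ((i.2 : ℕ) - m) * Q ^ (2 * d - i.1 - i.2))
  have hT : MDiff T := by
    have hh : ∀ i : Fin (d + 1) × Fin (d + 1),
        IsMF N (((i.1 : ℕ) * w + ((i.2 : ℕ) - m : ℕ) * w + (2 * d - i.1 - i.2 : ℕ) * w : ℤ))
        (G ^ (i.1 : ℕ) * P ^ ((i.2 : ℕ) - m) * Q ^ (2 * d - i.1 - i.2)) := fun i =>
      ((hG.toIsMF.pow i.1).mul (hP.toIsMF.pow _)).mul (hQ.toIsMF.pow _)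
    refine MDifferentiable.sum fun i _ => ?_
    exact (hh i).hol.const_smul (c i)
  have hprod : P ^ (m : ℕ) * T = 0 := by
    funext τ
    have h1 := hrel τ
    simp only [T, Pi.mul_apply, Pi.pow_apply, Finset.sum_apply, Pi.smul_apply, smul_eq_mul,
      Finset.mul_sum, Pi.zero_apply]
    rw [← h1]
    refine Finset.sum_congr rfl fun i _ => ?_
    by_cases hi : (i.2 : ℕ) < m
    · rw [hm2 i hi]; simp
    · have : P τ ^ (i.2 : ℕ) = P τ ^ (m : ℕ) * P τ ^ ((i.2 : ℕ) - m) := by
        rw [← pow_add]; congr 1; omega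
      rw [this]; ring
  have hT0 : T = 0 := by
    rcases (UpperHalfPlane.mul_eq_zero_iff (hP.hol.pow _) hT).mp hprod with h | h
    · exact absurd h (pow_ne_zero_fun hP.hol hPne _)
    · exact h
  have hev := congrFun hT0 τ₀
  simp only [T, Finset.sum_apply, Pi.smul_apply, Pi.mul_apply, Pi.pow_apply, smul_eq_mul,
    Pi.zero_apply, hP0] at hev
  rw [Fintype.sum_prod_type_right] at hev
  rw [Finset.sum_eq_single m] at hev
  · -- remaining: sum over a
    simp only [Nat.sub_self, pow_zero, mul_one] at hev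
    set x : ℂ := G τ₀ / Q τ₀ with hx
    have hpoly : ∑ a : Fin (d + 1), c (a, m) * x ^ (a : ℕ) = 0 := by
      have hQ2 : Q τ₀ ^ (2 * d - m) ≠ 0 := pow_ne_zero _ hQ0
      have : (∑ a : Fin (d + 1), c (a, m) * x ^ (a : ℕ)) * Q τ₀ ^ (2 * d - m) = 0 := by
        rw [← hev, Finset.sum_mul]
        refine Finset.sum_congr rfl fun a _ => ?_
        have ha : (a : ℕ) ≤ d := Nat.lt_succ_iff.mp a.2
        have hm' : (m : ℕ) ≤ d := Nat.lt_succ_iff.mp m.2
        have : Q τ₀ ^ (2 * d - m) = Q τ₀ ^ (a : ℕ) * Q τ₀ ^ (2 * d - a - m) := by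
          rw [← pow_add]; congr 1; omega
        rw [this, hx, div_pow]
        field_simp
      exact (mul_eq_zero.mp this).resolve_right hQ2
    -- `x` is algebraic over `QB`
    have hxQB : IsAlgebraic QB x := by
      let p : Polynomial QB := ∑ a : Fin (d + 1), Polynomial.monomial (a : ℕ) (⟨c (a, m), hcalg _⟩ : QB)
      refine ⟨p, ?_, ?_⟩
      · obtain ⟨a, ha⟩ := hm1
        intro hp
        have h3 : p.coeff (a : ℕ) = 0 := by rw [hp]; simp
        have h4 : p.coeff (a : ℕ) = ⟨c (a, m), hcalg _⟩ := by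
          simp only [p, Polynomial.finsetSum_coeff, Polynomial.coeff_monomial]
          rw [Finset.sum_eq_single a]
          · simp
          · intro b _ hb
            rw [if_neg]
            intro h
            exact hb (Fin.ext h)
          · simp
        rw [h4] at h3
        exact ha (by simpa using congrArg (fun x : QB => (x : ℂ)) h3)
      · simp only [p, map_sum, Polynomial.aeval_monomial]
        exact hpoly
    have : Algebra.IsAlgebraic ℚ QB := algebraicClosure.isAlgebraic ℚ ℂ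
    exact hxQB.restrictScalars ℚ
  · intro b _ hb
    by_cases hlt : (b : ℕ) < m
    · refine Finset.sum_eq_zero fun a _ => ?_
      rw [hm2 (a, b) hlt, zero_mul]
    · refine Finset.sum_eq_zero fun a _ => ?_
      have : (b : ℕ) - m ≠ 0 := by
        have : (b : ℕ) ≠ m := fun h => hb (Fin.ext h)
        omega
      simp [this]
  · simp

end Pool.Agent.H20.HASC
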