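import Pool.Agent.H20.HASC.Elliptic4

set_option autoImplicit false

open UpperHalfPlane ModularForm ModularFormClass MatrixGroups SlashInvariantFormClass
  CongruenceSubgroup Function EisensteinSeries
open scoped Topology Manifold Real

namespace Pool.Agent.H20.HASC

/-- `τ` is a point at which the values of all modular forms with algebraic Fourier coefficients
are algebraic after division by the `k`-th power of `Ω`. -/
def GoodPoint (τ : ℍ) (Ω : ℂ) : Prop :=
  Ω ≠ 0 ∧ ∀ (N : ℕ) [NeZero N] (k : ℕ) (F : ℍ → ℂ), IsAMF N k F → IsAlgebraic ℚ (F τ / Ω ^ k)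

theorem goodPoint_of_zero {τ : ℍ} {a b : ℕ} (ha : 0 < a) (hb : 0 < b) {A B : ℍ → ℂ}
    (hA : ∀ (N : ℕ) [NeZero N], IsAMF N a A) (hB : ∀ (N : ℕ) [NeZero N], IsAMF N b B)
    (hA0 : A τ = 0) (hAne : A ≠ 0) (hB0 : B τ ≠ 0) {Ω : ℂ} (hΩ : Ω ^ b = B τ) :
    GoodPoint τ Ω := by
  have hΩ0 : Ω ≠ 0 := by
    rintro rfl
    rw [zero_pow hb.ne'] at hΩ
    exact hB0 hΩ.symm
  have key : ∀ (N : ℕ) [NeZero N] (k : ℕ) (F : ℍ → ℂ), 0 < k → IsAMF N k F →
      IsAlgebraic ℚ (F τ / Ω ^ k) := by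
    intro N _ k F hk hF
    have hw : 0 < k * a * b := by positivity
    have h1 : IsAMF N ((k * a * b : ℕ) : ℤ) (F ^ (a * b)) :=
      (hF.pow (a * b)).cast (by push_cast; ring)
    have h2 : IsAMF N ((k * a * b : ℕ) : ℤ) (A ^ (k * b)) :=
      ((hA N).pow (k * b)).cast (by push_cast; ring)
    have h3 : IsAMF N ((k * a * b : ℕ) : ℤ) (B ^ (k * a)) :=
      ((hB N).pow (k * a)).cast (by push_cast; ring)
    have h4 := alg_ratio hw h1 h2 h3 (τ₀ := τ)
      (by rw [Pi.pow_apply, hA0, zero_pow (by positivity)])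
      (pow_ne_zero_fun (hA N).hol hAne _) (by rw [Pi.pow_apply]; exact pow_ne_zero _ hB0)
    have h5 : (F ^ (a * b)) τ / (B ^ (k * a)) τ = (F τ / Ω ^ k) ^ (a * b) := by
      rw [Pi.pow_apply, Pi.pow_apply, ← hΩ, div_pow]
      congr 1
      rw [← pow_mul, ← pow_mul]
      congr 1
      ring
    rw [h5] at h4
    exact h4.of_pow (by positivity)
  refine ⟨hΩ0, fun N _ k F hF => ?_⟩
  have h := key N (k + b) (F * B) (by positivity) ((hF.mul (hB N)).cast (by push_cast; ring))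
  have h2 : (F * B) τ / Ω ^ (k + b) = F τ / Ω ^ k := by
    rw [Pi.mul_apply, pow_add, hΩ]
    field_simp
  rwa [h2] at h

lemma isAMF_of_levelOne {k : ℤ} (f : ModularForm 𝒮ℒ k) (hf : AlgPS (qExpansion 1 f)) (N : ℕ)
    [NeZero N] : IsAMF N k f := by
  classical
  have hNpos : 0 < N := Nat.pos_of_ne_zero (NeZero.ne N)
  have hinj : Injective (fun n : ℕ => N * n) := fun x y hxy => Nat.eq_of_mul_eq_mul_left hNpos hxy
  have hslash : ∀ δ : SL(2, ℤ), (f : ℍ → ℂ) ∣[k] δ = f := fun δ =>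
    SlashInvariantFormClass.slash_action_eq f (δ : GL (Fin 2) ℝ) ⟨δ, rfl⟩
  have hMF : IsMF N k f :=
    { inv := fun γ _ => hslash γ
      hol := ModularFormClass.holo f
      bdd := fun δ => by
        rw [hslash]
        exact ModularFormClass.bdd_at_infty f }
  refine { toIsMF := hMF, alg := fun n => ?_ }
  have key : ∀ τ : ℍ, HasSum (fun m ↦ (if N ∣ m then (qExpansion 1 f).coeff (m / N) else 0) •
      Periodic.qParam N τ ^ m) (f τ) := by
    intro τ
    refine (hinj.hasSum_iff ?_).mp ?_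
    · intro x hx
      have : ¬ N ∣ x := by
        rintro ⟨c, rfl⟩
        exact hx ⟨c, rfl⟩
      simp only [this, if_false, zero_smul]
    · have h1 := ModularForm.hasSum_qExpansion f one_pos one_mem_strictPeriods_SL τ
      have h2 : ((fun m ↦ (if N ∣ m then (qExpansion 1 f).coeff (m / N) else 0) •
          Periodic.qParam (N : ℝ) τ ^ m) ∘
          fun n : ℕ => N * n) = fun m ↦ (qExpansion 1 f).coeff m * Periodic.qParam 1 τ ^ m := by
        funext n
        simp only [Function.comp, dvd_mul_right, if_true]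
        rw [Nat.mul_div_cancel_left n hNpos, pow_mul, qParam_pow_N, smul_eq_mul]
      rw [h2]
      exact h1
  have h3 := hMF.coeff_unique key n
  rw [← h3]
  split_ifs
  · exact hf _
  · exact zero_mem _

lemma algPS_E {k : ℕ} (hk : 3 ≤ k) (hk2 : Even k) : AlgPS (qExpansion 1 (E hk)) := by
  intro n
  rw [E_qExpansion_coeff hk hk2 n]
  split_ifs
  · exact one_mem _
  · have h1 : ((2 * k / bernoulli k : ℂ)) = ((2 * k / bernoulli k : ℚ) : ℂ) := by push_cast; ring
    have h2 : (-(2 * k / bernoulli k : ℂ) * (ArithmeticFunction.sigma (k - 1) n) : ℂ) =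
        ((-(2 * k / bernoulli k) * (ArithmeticFunction.sigma (k - 1) n : ℚ) : ℚ) : ℂ) := by
      push_cast; ring
    rw [h2]
    exact QB.algebraMap_mem _

lemma isAMF_E₄ (N : ℕ) [NeZero N] : IsAMF N ((4 : ℕ) : ℤ) E₄ :=
  isAMF_of_levelOne E₄ (algPS_E _ ⟨2, rfl⟩) N

lemma isAMF_E₆ (N : ℕ) [NeZero N] : IsAMF N ((6 : ℕ) : ℤ) E₆ :=
  isAMF_of_levelOne E₆ (algPS_E _ ⟨3, rfl⟩) N

/-- The point `i`. -/
lemma E₆_I : E₆ UpperHalfPlane.I = 0 := by
  have h := SlashInvariantForm.slash_action_eqn'' (Γ := 𝒮ℒ) E₆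
    (γ := (ModularGroup.S : GL (Fin 2) ℝ)) ⟨ModularGroup.S, rfl⟩ UpperHalfPlane.I
  have h1 : (ModularGroup.S : GL (Fin 2) ℝ) • UpperHalfPlane.I = UpperHalfPlane.I := by
    have := modular_S_smul UpperHalfPlane.I
    have h2 : ModularGroup.S • UpperHalfPlane.I = UpperHalfPlane.I := by
      rw [this]
      ext
      simp [UpperHalfPlane.coe_I]
    exact h2
  rw [h1] at h
  have h3 : denom (ModularGroup.S : GL (Fin 2) ℝ) UpperHalfPlane.I = Complex.I := by
    simp [denom, ModularGroup.S, UpperHalfPlane.coe_I]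
  rw [h3] at h
  have h4 : (Complex.I : ℂ) ^ (6 : ℤ) = -1 := by
    have : (Complex.I : ℂ) ^ (6 : ℕ) = -1 := by
      rw [show (6 : ℕ) = 2 * 3 by norm_num, pow_mul, Complex.I_sq]; norm_num
    exact_mod_cast this
  rw [h4] at h
  linear_combination h / 2

lemma E₄_I : E₄ UpperHalfPlane.I ≠ 0 := by
  intro h
  have h1 := discriminant_eq_E₄_cube_sub_E₆_sq UpperHalfPlane.I
  rw [h, E₆_I] at h1
  exact discriminant_ne_zero UpperHalfPlane.I (by rw [h1]; norm_num)

end Pool.Agent.H20.HASC
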