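import Pool.Agent.H20.HASC.Elliptic5

set_option autoImplicit false

open UpperHalfPlane ModularForm ModularFormClass MatrixGroups SlashInvariantFormClass
  CongruenceSubgroup Function EisensteinSeries
open scoped Topology Manifold Real

namespace Pool.Agent.H20.HASC

/-- `ρ = (-1 + √3 i)/2` -/
noncomputable def rhoPt : ℍ := ⟨⟨-1 / 2, Real.sqrt 3 / 2⟩, by simp⟩

lemma rho_sq : (rhoPt : ℂ) ^ 2 + rhoPt + 1 = 0 := by
  have h3 : Real.sqrt 3 * Real.sqrt 3 = 3 := Real.mul_self_sqrt (by norm_num)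
  apply Complex.ext
  · simp [rhoPt, pow_two]
    nlinarith
  · simp [rhoPt, pow_two]
    ring

/-- the element `[[0, -1], [1, 1]]` fixing `ρ` -/
def STmat : SL(2, ℤ) := ⟨!![0, -1; 1, 1], by simp [Matrix.det_fin_two]⟩

lemma E₄_rho : E₄ rhoPt = 0 := by
  have h := SlashInvariantForm.slash_action_eqn'' (Γ := 𝒮ℒ) E₄
    (γ := (STmat : GL (Fin 2) ℝ)) ⟨STmat, rfl⟩ rhoPt
  have hr := rho_sq
  have h0 : (rhoPt : ℂ) + 1 ≠ 0 := by
    intro h
    have := congrArg Complex.im h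
    simp [rhoPt] at this
  have h1 : (STmat : GL (Fin 2) ℝ) • rhoPt = rhoPt := by
    have h2 : STmat • rhoPt = rhoPt := by
      ext
      rw [coe_specialLinearGroup_apply]
      simp only [STmat, Matrix.SpecialLinearGroup.coe_mk, Matrix.of_apply, Matrix.cons_val',
        Matrix.cons_val_zero, Matrix.cons_val_one, Matrix.cons_val_fin_one, algebraMap_int_eq,
        Int.coe_castRingHom]
      push_cast
      rw [div_eq_iff (by simpa using h0)]
      linear_combination -hr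
    exact h2
  rw [h1] at h
  have h3 : denom (STmat : GL (Fin 2) ℝ) rhoPt = rhoPt + 1 := by
    simp [denom, STmat]
  rw [h3] at h
  have h4 : ((rhoPt : ℂ) + 1) ^ (4 : ℤ) = (rhoPt : ℂ) ^ 2 := by
    have : ((rhoPt : ℂ) + 1) ^ (4 : ℕ) = (rhoPt : ℂ) ^ 2 := by
      have h5 : (rhoPt : ℂ) + 1 = -(rhoPt : ℂ) ^ 2 := by linear_combination hr
      have h6 : (rhoPt : ℂ) ^ 3 = 1 := by linear_combination ((rhoPt : ℂ) - 1) * hr
      rw [h5]
      linear_combination ((rhoPt : ℂ) ^ 5 + (rhoPt : ℂ) ^ 2) * h6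
    exact_mod_cast this
  rw [h4] at h
  have h7 : ((rhoPt : ℂ) ^ 2 - 1) * E₄ rhoPt = 0 := by linear_combination -h
  rcases mul_eq_zero.mp h7 with h8 | h8
  · exfalso
    have h9 : (rhoPt : ℂ) = -2 := by linear_combination hr - h8
    have := congrArg Complex.im h9
    simp [rhoPt] at this
  · exact h8

lemma E₆_rho : E₆ rhoPt ≠ 0 := by
  intro h
  have h1 := discriminant_eq_E₄_cube_sub_E₆_sq rhoPt
  rw [h, E₄_rho] at h1
  exact discriminant_ne_zero rhoPt (by rw [h1]; norm_num)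

theorem exists_goodPoint_I : ∃ Ω, GoodPoint UpperHalfPlane.I Ω := by
  obtain ⟨Ω, hΩ⟩ := IsAlgClosed.exists_pow_nat_eq (E₄ UpperHalfPlane.I) (n := 4) (by norm_num)
  refine ⟨Ω, goodPoint_of_zero (a := 6) (b := 4) (by norm_num) (by norm_num)
    (fun N _ => isAMF_E₆ N) (fun N _ => isAMF_E₄ N) E₆_I ?_ E₄_I hΩ⟩
  have := E_ne_zero (k := 6) (by norm_num) ⟨3, rfl⟩
  intro h
  apply this
  ext τ
  exact congrFun h τ

theorem exists_goodPoint_rho : ∃ Ω, GoodPoint rhoPt Ω := by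
  obtain ⟨Ω, hΩ⟩ := IsAlgClosed.exists_pow_nat_eq (E₆ rhoPt) (n := 6) (by norm_num)
  refine ⟨Ω, goodPoint_of_zero (a := 4) (b := 6) (by norm_num) (by norm_num)
    (fun N _ => isAMF_E₄ N) (fun N _ => isAMF_E₆ N) E₄_rho ?_ E₆_rho hΩ⟩
  have := E_ne_zero (k := 4) (by norm_num) ⟨2, rfl⟩
  intro h
  apply this
  ext τ
  exact congrFun h τ

end Pool.Agent.H20.HASC
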