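import Pool.Agent.H20.HASC.Elliptic6

set_option autoImplicit false

open UpperHalfPlane ModularForm ModularFormClass MatrixGroups SlashInvariantFormClass
  CongruenceSubgroup Function EisensteinSeries
open scoped Topology Manifold Real Pointwise

namespace Pool.Agent.H20.HASC

lemma alg_exp_rat (q : ℚ) : Complex.exp (2 * π * Complex.I * q) ∈ QB := by
  rw [mem_QB]
  have := (Complex.isIntegral_exp_rat_mul_pi_mul_I (2 * q)).tower_top (A := ℚ)
  have h2 : (2 * π * Complex.I * q : ℂ) = ((2 * q : ℚ) : ℂ) * π * Complex.I := by push_cast; ring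
  rw [h2]
  exact this.isAlgebraic

/-- the rational matrix `[[2, b], [0, 1]]` -/
noncomputable def alphaQ (b : ℤ) : GL (Fin 2) ℚ :=
  Matrix.GeneralLinearGroup.mkOfDetNeZero !![2, (b : ℚ); 0, 1] (by simp [Matrix.det_fin_two])

/-- the real matrix `[[2, b], [0, 1]]` -/
noncomputable def alphaR (b : ℤ) : GL (Fin 2) ℝ := (alphaQ b).map (Rat.castHom ℝ)

lemma alphaR_coe (b : ℤ) : ((alphaR b : GL (Fin 2) ℝ) : Matrix (Fin 2) (Fin 2) ℝ)
    = !![2, (b : ℝ); 0, 1] := by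
  ext i j
  fin_cases i <;> fin_cases j <;> simp [alphaR, alphaQ, Matrix.GeneralLinearGroup.mkOfDetNeZero]

lemma alphaR_det (b : ℤ) : (alphaR b).det.val = 2 := by
  rw [Matrix.GeneralLinearGroup.val_det_apply, alphaR_coe]
  simp [Matrix.det_fin_two]

lemma alphaR_det' (b : ℤ) : ((alphaR b : GL (Fin 2) ℝ) : Matrix (Fin 2) (Fin 2) ℝ).det = 2 := by
  rw [alphaR_coe]
  simp [Matrix.det_fin_two]

lemma alphaR_smul (b : ℤ) (τ : ℍ) : ((alphaR b • τ : ℍ) : ℂ) = 2 * τ + b := by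
  rw [UpperHalfPlane.coe_smul_of_det_pos (by rw [alphaR_det]; norm_num)]
  simp [num, denom, alphaR_coe]

lemma slash_alphaR (b : ℤ) (k : ℤ) (F : ℍ → ℂ) (τ : ℍ) :
    (F ∣[k] alphaR b) τ = (2 : ℂ) ^ (k - 1) * F (alphaR b • τ) := by
  rw [slash_apply]
  have h1 : denom (alphaR b) τ = 1 := by simp [denom, alphaR_coe]
  have h2 : σ (alphaR b) = ContinuousAlgEquiv.refl ℝ ℂ := by
    simp [σ, alphaR_det']
  rw [h1, alphaR_det, h2]
  simp
  ring

instance arith_conj (b : ℤ) (N : ℕ) [NeZero N] :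
    (ConjAct.toConjAct (alphaR b)⁻¹ • GN N).IsArithmetic := by
  have := Subgroup.IsArithmetic.conj (GN N) (alphaQ b)⁻¹
  have h : ((alphaQ b)⁻¹).map (Rat.castHom ℝ) = (alphaR b)⁻¹ := by
    rw [alphaR, map_inv]
  rwa [h] at this

lemma conj_mem (b : ℤ) {N : ℕ} {γ : SL(2, ℤ)} (hγ : γ ∈ Gamma (2 * N)) :
    ∃ γ' ∈ Gamma N, (γ' : GL (Fin 2) ℝ) * alphaR b = alphaR b * (γ : GL (Fin 2) ℝ) := by
  rw [Gamma_mem] at hγ
  obtain ⟨hA, hB, hC, hD⟩ := hγ
  have hdet : γ 0 0 * γ 1 1 - γ 0 1 * γ 1 0 = 1 := by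
    have := γ.2
    rwa [Matrix.det_fin_two] at this
  have hA' : ((γ 0 0 - 1 : ℤ) : ZMod (2 * N)) = 0 := by push_cast; rw [hA]; ring
  have hD' : ((γ 1 1 - 1 : ℤ) : ZMod (2 * N)) = 0 := by push_cast; rw [hD]; ring
  rw [ZMod.intCast_zmod_eq_zero_iff_dvd] at hA' hB hC hD'
  obtain ⟨a', ha⟩ := hA'
  obtain ⟨b', hb⟩ := hB
  obtain ⟨c', hc⟩ := hC
  obtain ⟨d', hd⟩ := hD'
  push_cast at ha hb hc hd
  refine ⟨⟨!![γ 0 0 + b * (N * c'), -b * γ 0 0 - b ^ 2 * (N * c') + 2 * γ 0 1 + b * γ 1 1;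
    N * c', γ 1 1 - b * (N * c')], ?_⟩, ?_, ?_⟩
  · rw [Matrix.det_fin_two]
    simp only [Matrix.of_apply, Matrix.cons_val', Matrix.cons_val_zero, Matrix.cons_val_one,
      Matrix.cons_val_fin_one]
    linear_combination hdet + γ 0 1 * hc
  · rw [Gamma_mem]
    have hN : ((N : ℤ) : ZMod N) = 0 := by simp
    have h00 : γ 0 0 = 1 + N * (2 * a') := by linear_combination ha
    have h11 : γ 1 1 = 1 + N * (2 * d') := by linear_combination hd
    have h01 : γ 0 1 = N * (2 * b') := by linear_combination hb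
    simp only [Matrix.of_apply, Matrix.cons_val',
      Matrix.cons_val_zero, Matrix.cons_val_one, Matrix.cons_val_fin_one]
    rw [h00, h11, h01]
    push_cast
    simp
  · ext i j
    rw [Units.val_mul, Units.val_mul, alphaR_coe]
    have hcR : (γ 1 0 : ℝ) = 2 * N * c' := by exact_mod_cast hc
    fin_cases i <;> fin_cases j <;>
      simp [Matrix.mul_apply, Fin.sum_univ_two, hcR] <;> ring

lemma IsMF.slash_alpha (b : ℤ) {N : ℕ} [NeZero N] {k : ℤ} {F : ℍ → ℂ} (h : IsMF N k F) :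
    IsMF (2 * N) k (F ∣[k] alphaR b) where
  inv γ hγ := by
    obtain ⟨γ', hγ', e⟩ := conj_mem b hγ
    rw [SL_slash, ← SlashAction.slash_mul, ← e, SlashAction.slash_mul, ← SL_slash, h.inv γ' hγ']
  hol := h.hol.slash k _
  bdd δ := by
    have := ModularFormClass.bdd_at_infty_slash (ModularForm.translate h.toMF (alphaR b)) δ
    exact this

lemma qParam_alpha (b : ℤ) {N : ℕ} [NeZero N] (τ : ℍ) :
    Periodic.qParam N (alphaR b • τ : ℍ) =
      Complex.exp (2 * π * Complex.I * ((b / N : ℚ) : ℂ)) *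
        Periodic.qParam ((2 * N : ℕ) : ℝ) τ ^ 4 := by
  have hN : (N : ℂ) ≠ 0 := by exact_mod_cast NeZero.ne N
  rw [alphaR_smul]
  simp only [Periodic.qParam]
  rw [← Complex.exp_nat_mul, ← Complex.exp_add]
  congr 1
  push_cast
  field_simp
  ring

lemma IsAMF.slash_alpha (b : ℤ) {N : ℕ} [NeZero N] {k : ℤ} {F : ℍ → ℂ} (h : IsAMF N k F) :
    IsAMF (2 * N) k (F ∣[k] alphaR b) := by
  classical
  refine { toIsMF := h.toIsMF.slash_alpha b, alg := fun n => ?_ }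
  set ζ : ℂ := Complex.exp (2 * π * Complex.I * ((b / N : ℚ) : ℂ)) with hζ
  have hinj : Injective (fun n : ℕ => 4 * n) := fun x y hxy => by
    simpa using hxy
  have key : ∀ τ : ℍ, HasSum (fun m ↦ (if 4 ∣ m then
      (2 : ℂ) ^ (k - 1) * ((qExpansion N F).coeff (m / 4) * ζ ^ (m / 4)) else 0) •
      Periodic.qParam ((2 * N : ℕ) : ℝ) τ ^ m) ((F ∣[k] alphaR b) τ) := by
    intro τ
    refine (hinj.hasSum_iff ?_).mp ?_
    · intro x hx
      have : ¬ 4 ∣ x := by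
        rintro ⟨c, rfl⟩
        exact hx ⟨c, rfl⟩
      simp only [this, if_false, zero_smul]
    · have h1 := (h.toIsMF.hasSum (alphaR b • τ)).mul_left ((2 : ℂ) ^ (k - 1))
      rw [slash_alphaR]
      have h2 : ((fun m ↦ (if 4 ∣ m then
          (2 : ℂ) ^ (k - 1) * ((qExpansion N F).coeff (m / 4) * ζ ^ (m / 4)) else 0) •
          Periodic.qParam ((2 * N : ℕ) : ℝ) τ ^ m) ∘ fun n : ℕ => 4 * n) =
          fun m ↦ (2 : ℂ) ^ (k - 1) * ((qExpansion N F).coeff m •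
            Periodic.qParam N (alphaR b • τ : ℍ) ^ m) := by
        funext m
        simp only [Function.comp, dvd_mul_right, if_true, smul_eq_mul]
        rw [Nat.mul_div_cancel_left m (by norm_num : 0 < 4), qParam_alpha, mul_pow, pow_mul, ← hζ]
        ring
      rw [h2]
      exact h1
  have h3 := (h.toIsMF.slash_alpha b).coeff_unique key n
  rw [← h3]
  split_ifs
  · refine mul_mem ?_ (mul_mem (h.alg _) (pow_mem (alg_exp_rat _) _))
    exact zpow_mem (by exact_mod_cast natCast_mem QB 2) _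
  · exact zero_mem _

theorem GoodPoint.alpha (b : ℤ) {τ : ℍ} {Ω : ℂ} (h : GoodPoint τ Ω) :
    GoodPoint (alphaR b • τ) Ω := by
  refine ⟨h.1, fun N _ k F hF => ?_⟩
  have h1 := h.2 (2 * N) k _ (hF.slash_alpha b)
  rw [slash_alphaR] at h1
  have h2 : (2 : ℂ) ^ ((k : ℤ) - 1) ∈ QB := zpow_mem (by exact_mod_cast natCast_mem QB 2) _
  have h3 : F (alphaR b • τ) / Ω ^ k = ((2 : ℂ) ^ ((k : ℤ) - 1))⁻¹ *
      ((2 : ℂ) ^ ((k : ℤ) - 1) * F (alphaR b • τ) / Ω ^ k) := by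
    have : (2 : ℂ) ^ ((k : ℤ) - 1) ≠ 0 := zpow_ne_zero _ two_ne_zero
    field_simp
  rw [h3, ← mem_QB]
  rw [← mem_QB] at h1
  exact mul_mem (inv_mem h2) h1

/-- the point `2i` -/
noncomputable def pt2I : ℍ := ⟨⟨0, 2⟩, by norm_num⟩

/-- the point `√3 i` -/
noncomputable def ptS3 : ℍ := ⟨⟨0, Real.sqrt 3⟩, by simp⟩

theorem exists_goodPoint_2I : ∃ Ω, GoodPoint pt2I Ω := by
  obtain ⟨Ω, h⟩ := exists_goodPoint_I
  refine ⟨Ω, ?_⟩
  have h2 := h.alpha 0
  convert h2 using 1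
  ext
  rw [alphaR_smul]
  apply Complex.ext <;> simp [pt2I]

theorem exists_goodPoint_S3 : ∃ Ω, GoodPoint ptS3 Ω := by
  obtain ⟨Ω, h⟩ := exists_goodPoint_rho
  refine ⟨Ω, ?_⟩
  have h2 := h.alpha 1
  convert h2 using 1
  ext
  rw [alphaR_smul]
  apply Complex.ext <;> simp [ptS3, rhoPt] <;> ring

end Pool.Agent.H20.HASC
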