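import Pool.Agent.H20.HASC.Elliptic7

set_option autoImplicit false

open UpperHalfPlane ModularForm ModularFormClass MatrixGroups SlashInvariantFormClass
  CongruenceSubgroup Function EisensteinSeries Derivative
open scoped Topology Manifold Real Pointwise Nat

namespace Pool.Agent.H20.HASC

lemma _root_.HasSum.congr_fun' {ι α : Type*} [AddCommMonoid α] [TopologicalSpace α] {f g : ι → α}
    {a : α} (h : HasSum f a) (e : ∀ i, g i = f i) : HasSum g a := by
  have : g = f := funext e
  rw [this]; exact h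

lemma hasDerivAt_qParam (h : ℝ) (z : ℂ) :
    HasDerivAt (Periodic.qParam h) (2 * π * Complex.I / h * Periodic.qParam h z) z := by
  have h1 : HasDerivAt (fun z : ℂ => 2 * π * Complex.I * z / h) (2 * π * Complex.I / h) z := by
    have := ((hasDerivAt_id z).const_mul (2 * π * Complex.I)).div_const (h : ℂ)
    simpa using this
  have h2 := h1.cexp
  have h3 : 2 * π * Complex.I / h * Periodic.qParam h z =
      Complex.exp (2 * π * Complex.I * z / h) * (2 * π * Complex.I / h) := by
    rw [Periodic.qParam]; ring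
  rw [h3]
  exact h2

lemma IsMF.differentiableOn_cusp {N : ℕ} [NeZero N] {k : ℤ} {f : ℍ → ℂ} (h : IsMF N k f) :
    DifferentiableOn ℂ (cuspFunction N f) (Metric.ball 0 1) :=
  differentiableOn_cuspFunction_ball (N_pos N) h.periodic h.hol h.bdd_infty

lemma IsMF.hasSum_D {N : ℕ} [NeZero N] {k : ℤ} {f : ℍ → ℂ} (h : IsMF N k f) (τ : ℍ) :
    HasSum (fun m : ℕ ↦ ((m : ℂ) / N * (qExpansion N f).coeff m) • Periodic.qParam N τ ^ m)
      (normalizedDerivOfComplex f τ) := by
  have hN : (N : ℂ) ≠ 0 := by exact_mod_cast NeZero.ne N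
  set q : ℂ := Periodic.qParam N τ with hq
  have hq1 : q ∈ Metric.ball (0 : ℂ) 1 := by
    rw [mem_ball_zero_iff]
    exact Periodic.norm_qParam_lt_one (N_pos N) τ.im_pos
  set c := cuspFunction N f with hc
  have hcd : DifferentiableOn ℂ c (Metric.ball 0 1) := h.differentiableOn_cusp
  have hcd' : DifferentiableOn ℂ (deriv c) (Metric.ball 0 1) := hcd.deriv Metric.isOpen_ball
  -- the derivative of `f`
  have hder : deriv (f ∘ ofComplex) (τ : ℂ) = deriv c q * (2 * π * Complex.I / N * q) := by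
    have heq : (f ∘ ofComplex) =ᶠ[𝓝 (τ : ℂ)] (c ∘ Periodic.qParam N) := by
      filter_upwards [isOpen_upperHalfPlaneSet.mem_nhds τ.im_pos] with z hz
      have := eq_cuspFunction (f := f) ⟨z, hz⟩ (N_pos N).ne' h.periodic
      simp only [Function.comp]
      rw [hc, ofComplex_apply_of_im_pos hz]
      exact this.symm
    rw [heq.deriv_eq]
    have h1 : HasDerivAt c (deriv c q) (Periodic.qParam N τ) :=
      (hcd.differentiableAt (Metric.isOpen_ball.mem_nhds hq1)).hasDerivAt
    have h2 := h1.comp (τ : ℂ) (hasDerivAt_qParam N τ)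
    rw [h2.deriv]
    push_cast
    rfl
  have hsum := Complex.hasSum_taylorSeries_on_ball hcd' hq1
  simp only [sub_zero] at hsum
  have hsum2 : HasSum (fun m : ℕ => ((m + 1 : ℕ) : ℂ) * (qExpansion N f).coeff (m + 1) * q ^ (m + 1))
      (deriv c q * q) := by
    have h3 := hsum.mul_right q
    refine HasSum.congr_fun' h3 fun m => ?_
    rw [qExpansion_coeff, iteratedDeriv_succ', ← hc, smul_eq_mul, smul_eq_mul, Nat.factorial_succ]
    have : ((m + 1 : ℕ) : ℂ) ≠ 0 := by exact_mod_cast Nat.succ_ne_zero m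
    have h4 : ((m ! : ℕ) : ℂ) ≠ 0 := by exact_mod_cast Nat.factorial_ne_zero m
    push_cast at *
    field_simp
    ring
  have hsum3 : HasSum (fun m : ℕ => (m : ℂ) * (qExpansion N f).coeff m * q ^ m)
      (deriv c q * q) := by
    rw [← hasSum_nat_add_iff' 1]
    simpa using hsum2
  have hsum4 := hsum3.mul_left ((N : ℂ)⁻¹)
  have hval : normalizedDerivOfComplex f τ = (N : ℂ)⁻¹ * (deriv c q * q) := by
    rw [normalizedDerivOfComplex, hder]
    have : (2 * (π : ℂ) * Complex.I) ≠ 0 := Complex.two_pi_I_ne_zero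
    field_simp
  rw [hval]
  refine HasSum.congr_fun' hsum4 fun m => ?_
  rw [smul_eq_mul]
  ring

lemma IsMF.bdd_D {N : ℕ} [NeZero N] {k : ℤ} {f : ℍ → ℂ} (h : IsMF N k f) :
    IsBoundedAtImInfty (normalizedDerivOfComplex f) :=
  isBoundedAtImInfty_of_hasSum_qExpansion (N_pos N) h.hasSum_D

/-- the bracket `D F * G - F * D G` -/
noncomputable def brk (F G : ℍ → ℂ) : ℍ → ℂ :=
  normalizedDerivOfComplex F * G - F * normalizedDerivOfComplex G

lemma brk_slash {k : ℤ} {F G : ℍ → ℂ} (hF : MDiff F) (hG : MDiff G) (δ : SL(2, ℤ)) :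
    (brk F G) ∣[2 * k + 2] δ = brk (F ∣[k] δ) (G ∣[k] δ) := by
  have h1 : (normalizedDerivOfComplex F * G) ∣[2 * k + 2] δ =
      (normalizedDerivOfComplex F ∣[k + 2] δ) * (G ∣[k] δ) := by
    rw [← mul_slash_SL2]; congr 1; ring
  have h2 : (F * normalizedDerivOfComplex G) ∣[2 * k + 2] δ =
      (F ∣[k] δ) * (normalizedDerivOfComplex G ∣[k + 2] δ) := by
    rw [← mul_slash_SL2]; congr 1; ring
  rw [brk, sub_eq_add_neg, SlashAction.add_slash, SlashAction.neg_slash, h1, h2, brk, normalizedDerivOfComplex_SL_slash hF,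
    normalizedDerivOfComplex_SL_slash hG]
  funext τ
  simp only [Pi.sub_apply, Pi.mul_apply, Pi.add_apply, Pi.neg_apply]
  ring

lemma IsMF.brk {N : ℕ} [NeZero N] {k : ℤ} {F G : ℍ → ℂ} (hF : IsMF N k F) (hG : IsMF N k G) :
    IsMF N (2 * k + 2) (brk F G) where
  inv γ hγ := by rw [brk_slash hF.hol hG.hol, hF.inv γ hγ, hG.inv γ hγ]
  hol := ((normalizedDerivOfComplex_mdifferentiable hF.hol).mul hG.hol).sub
    (hF.hol.mul (normalizedDerivOfComplex_mdifferentiable hG.hol))
  bdd δ := by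
    rw [brk_slash hF.hol hG.hol]
    have h1 := hF.slash δ
    have h2 := hG.slash δ
    exact (h1.bdd_D.mul h2.bdd_infty).sub (h1.bdd_infty.mul h2.bdd_D)

end Pool.Agent.H20.HASC
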