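import Pool.Agent.H20.HASC.Elliptic8

set_option autoImplicit false

open UpperHalfPlane ModularForm ModularFormClass MatrixGroups SlashInvariantFormClass
  CongruenceSubgroup Function EisensteinSeries Derivative
open scoped Topology Manifold Real Pointwise Nat

namespace Pool.Agent.H20.HASC

/-- functions with a `q`-expansion of width `N` -/
structure IsQF (N : ℕ) (f : ℍ → ℂ) : Prop where
  per : Periodic (f ∘ ofComplex) (N : ℝ)
  hol : MDiff f
  bdd : IsBoundedAtImInfty f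

lemma IsMF.toQF {N : ℕ} [NeZero N] {k : ℤ} {f : ℍ → ℂ} (h : IsMF N k f) : IsQF N f :=
  ⟨h.periodic, h.hol, h.bdd_infty⟩

lemma IsQF.analyticAt {N : ℕ} [NeZero N] {f : ℍ → ℂ} (h : IsQF N f) :
    AnalyticAt ℂ (cuspFunction N f) 0 :=
  analyticAt_cuspFunction_zero (N_pos N) h.per h.hol h.bdd

lemma IsQF.hasSum {N : ℕ} [NeZero N] {f : ℍ → ℂ} (h : IsQF N f) (τ : ℍ) :
    HasSum (fun m : ℕ ↦ (qExpansion N f).coeff m • Periodic.qParam N τ ^ m) (f τ) :=
  hasSum_qExpansion (N_pos N) h.per h.hol h.bdd τ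

lemma IsQF.coeff_unique {N : ℕ} [NeZero N] {f : ℍ → ℂ} (h : IsQF N f) {c : ℕ → ℂ}
    (hc : ∀ τ : ℍ, HasSum (fun m ↦ c m • Periodic.qParam N τ ^ m) (f τ)) (m : ℕ) :
    c m = (qExpansion N f).coeff m :=
  qExpansion_coeff_unique (⟨f, h.hol.continuous⟩ : C(ℍ, ℂ)) (N_pos N) h.analyticAt hc m

lemma IsMF.D_toQF {N : ℕ} [NeZero N] {k : ℤ} {f : ℍ → ℂ} (h : IsMF N k f) :
    IsQF N (normalizedDerivOfComplex f) where
  per := by
    intro z
    simp only [Function.comp]
    by_cases hz : 0 < z.im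
    · have hz' : 0 < (z + (N : ℝ)).im := by simpa using hz
      rw [normalizedDerivOfComplex, normalizedDerivOfComplex, ofComplex_apply_of_im_pos hz,
        ofComplex_apply_of_im_pos hz']
      congr 1
      have h1 : (f ∘ ofComplex) = fun w => (f ∘ ofComplex) (w + (N : ℝ)) := by
        funext w; exact (h.periodic w).symm
      conv_rhs => rw [h1]
      rw [deriv_comp_add_const]
    · have hz' : ¬ 0 < (z + (N : ℝ)).im := by simpa using hz
      rw [ofComplex_apply_of_im_nonpos (not_lt.mp hz), ofComplex_apply_of_im_nonpos (not_lt.mp hz')]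
  hol := normalizedDerivOfComplex_mdifferentiable h.hol
  bdd := h.bdd_D

lemma IsQF.mul {N : ℕ} {f g : ℍ → ℂ} (hf : IsQF N f) (hg : IsQF N g) : IsQF N (f * g) where
  per := by
    intro z
    simpa using congrArg₂ (· * ·) (hf.per z) (hg.per z)
  hol := hf.hol.mul hg.hol
  bdd := hf.bdd.mul hg.bdd

lemma IsQF.qExpansion_mul {N : ℕ} [NeZero N] {f g : ℍ → ℂ} (hf : IsQF N f) (hg : IsQF N g) :
    qExpansion N (f * g) = qExpansion N f * qExpansion N g :=
  UpperHalfPlane.qExpansion_mul hf.analyticAt hg.analyticAt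

lemma IsQF.qExpansion_sub {N : ℕ} [NeZero N] {f g : ℍ → ℂ} (hf : IsQF N f) (hg : IsQF N g) :
    qExpansion N (f - g) = qExpansion N f - qExpansion N g :=
  UpperHalfPlane.qExpansion_sub hf.analyticAt hg.analyticAt

lemma IsAMF.alg_D {N : ℕ} [NeZero N] {k : ℤ} {f : ℍ → ℂ} (h : IsAMF N k f) :
    AlgPS (qExpansion N (normalizedDerivOfComplex f)) := by
  intro n
  rw [← h.toIsMF.D_toQF.coeff_unique h.toIsMF.hasSum_D n]
  exact mul_mem (div_mem (natCast_mem QB n) (natCast_mem QB N)) (h.alg n)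

theorem IsAMF.brk {N : ℕ} [NeZero N] {k : ℤ} {F G : ℍ → ℂ} (hF : IsAMF N k F) (hG : IsAMF N k G) :
    IsAMF N (2 * k + 2) (brk F G) where
  toIsMF := hF.toIsMF.brk hG.toIsMF
  alg := by
    have h1 : IsQF N (normalizedDerivOfComplex F * G) := hF.toIsMF.D_toQF.mul hG.toIsMF.toQF
    have h2 : IsQF N (F * normalizedDerivOfComplex G) := hF.toIsMF.toQF.mul hG.toIsMF.D_toQF
    intro n
    rw [HASC.brk, h1.qExpansion_sub h2, hF.toIsMF.D_toQF.qExpansion_mul hG.toIsMF.toQF,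
      hF.toIsMF.toQF.qExpansion_mul hG.toIsMF.D_toQF, map_sub]
    exact sub_mem ((hF.alg_D.mul hG.alg) n) ((hF.alg.mul hG.alg_D) n)

/-- The derivative of a quotient of modular forms at a good point. -/
theorem GoodPoint.deriv_quot {τ : ℍ} {Ω : ℂ} (h : GoodPoint τ Ω) {N : ℕ} [NeZero N] {k : ℕ}
    {F G : ℍ → ℂ} (hF : IsAMF N k F) (hG : IsAMF N k G) :
    IsAlgebraic ℚ ((normalizedDerivOfComplex F τ * G τ - F τ * normalizedDerivOfComplex G τ) /
      Ω ^ (2 * k + 2)) := by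
  have := h.2 N (2 * k + 2) _ ((hF.brk hG).cast (by push_cast; ring))
  exact this

end Pool.Agent.H20.HASC
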