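import Pool.Agent.H20.HASC.SHC

set_option autoImplicit false

open Matrix Topology
open scoped Real

namespace Pool.Agent.H20.HASC

lemma arith_step {q0 q1 s0 s1 : ℤ} {y1 y2 y12 : ℝ}
    (hy1 : |y1 - 2| < 1 / 100) (hy2 : |y2 - Real.sqrt 3| < 1 / 100) (hy12 : |y12| < 1 / 100)
    (h : y1 * (s0 ^ 2 + 4 * q0 ^ 2 : ℤ) + 2 * y12 * (s0 * s1 + 4 * q0 * q1 : ℤ) +
      y2 * (s1 ^ 2 + 4 * q1 ^ 2 : ℤ) = 2) : s0 ^ 2 = 1 ∧ q0 = 0 ∧ s1 = 0 ∧ q1 = 0 := by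
  obtain ⟨a1, a2⟩ := abs_lt.mp hy1
  obtain ⟨b1, b2⟩ := abs_lt.mp hy2
  obtain ⟨c1, c2⟩ := abs_lt.mp hy12
  have s3 : Real.sqrt 3 ^ 2 = 3 := Real.sq_sqrt (by norm_num)
  have s3' : 0 ≤ Real.sqrt 3 := Real.sqrt_nonneg 3
  have l3 : (1.73 : ℝ) < Real.sqrt 3 := by nlinarith
  have u3 : Real.sqrt 3 < (1.74 : ℝ) := by nlinarith
  set P : ℤ := s0 ^ 2 + 4 * q0 ^ 2 with hP
  set R : ℤ := s1 ^ 2 + 4 * q1 ^ 2 with hR
  set M : ℤ := s0 * s1 + 4 * q0 * q1 with hM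
  have hP0 : 0 ≤ P := by positivity
  have hR0 : 0 ≤ R := by positivity
  have hM1 : 2 * M ≤ P + R := by
    rw [hM, hP, hR]; nlinarith [sq_nonneg (s0 - s1), sq_nonneg (q0 - q1)]
  have hM2 : -(P + R) ≤ 2 * M := by
    rw [hM, hP, hR]; nlinarith [sq_nonneg (s0 + s1), sq_nonneg (q0 + q1)]
  have hP0' : (0 : ℝ) ≤ P := by exact_mod_cast hP0
  have hR0' : (0 : ℝ) ≤ R := by exact_mod_cast hR0
  have hM1' : 2 * (M : ℝ) ≤ P + R := by exact_mod_cast hM1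
  have hM2' : -((P : ℝ) + R) ≤ 2 * M := by exact_mod_cast hM2
  have habs : |2 * y12 * (M : ℝ)| ≤ 1 / 100 * (P + R) := by
    have : |2 * y12 * (M : ℝ)| = |y12| * |2 * (M : ℝ)| := by
      rw [← abs_mul]; congr 1; ring
    rw [this]
    have h1 : |2 * (M : ℝ)| ≤ P + R := abs_le.mpr ⟨hM2', hM1'⟩
    exact mul_le_mul hy12.le h1 (abs_nonneg _) (by norm_num)
  obtain ⟨d1, d2⟩ := abs_le.mp habs
  have e1 : 1.98 * (P : ℝ) + 1.71 * R ≤ 2 := by nlinarith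
  have e2 : 2 ≤ 2.02 * (P : ℝ) + 1.76 * R := by nlinarith
  have e1' : 198 * P + 171 * R ≤ 200 := by
    have : (198 : ℝ) * P + 171 * R ≤ 200 := by linarith
    exact_mod_cast this
  have e2' : 200 ≤ 202 * P + 176 * R := by
    have : (200 : ℝ) ≤ 202 * P + 176 * R := by linarith
    exact_mod_cast this
  have hP1 : P = 1 ∧ R = 0 := by
    have gen : ∀ P R : ℤ, 0 ≤ P → 0 ≤ R → 198 * P + 171 * R ≤ 200 → 200 ≤ 202 * P + 176 * R →
        P = 1 ∧ R = 0 := by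
      intro P R h1 h2 h3 h4
      have h5 : P ≤ 1 := by omega
      have h6 : R ≤ 1 := by omega
      interval_cases P <;> interval_cases R <;> omega
    exact gen P R hP0 hR0 e1' e2'
  obtain ⟨hP1, hR1⟩ := hP1
  rw [hP] at hP1
  rw [hR] at hR1
  have hs1 : s1 = 0 := by
    have : s1 ^ 2 = 0 := by nlinarith [sq_nonneg s1, sq_nonneg q1]
    exact pow_eq_zero_iff (two_ne_zero) |>.mp this
  have hq1 : q1 = 0 := by
    have : q1 ^ 2 = 0 := by nlinarith [sq_nonneg s1, sq_nonneg q1]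
    exact pow_eq_zero_iff (two_ne_zero) |>.mp this
  have hq0 : q0 = 0 := by
    have h1 : q0 ^ 2 < 1 := by nlinarith [sq_nonneg s0, sq_nonneg q0]
    have h2 : q0 ^ 2 = 0 := by nlinarith [sq_nonneg q0]
    exact pow_eq_zero_iff (two_ne_zero) |>.mp h2
  refine ⟨?_, hq0, hs1, hq1⟩
  rw [hq0] at hP1
  linarith

theorem local_step : ∀ᶠ τ in 𝓝 oPt, ∀ γ ∈ Matrix.symplecticGroup (Fin 2) ℤ, ∀ x ∈ SiegelX,
    x.1 = 2 * Complex.I → x.2.1 = 0 → act (intMat γ) x = τ → τ.2.1 = 0 := by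
  have c1 : ∀ᶠ τ : Sym2 in 𝓝 oPt, |τ.1.im - 2| < 1 / 100 := by
    have : Continuous (fun τ : Sym2 => |τ.1.im - 2|) := by fun_prop
    refine (this.tendsto oPt).eventually_lt_const ?_
    simp [oPt]
  have c2 : ∀ᶠ τ : Sym2 in 𝓝 oPt, |τ.2.2.im - Real.sqrt 3| < 1 / 100 := by
    have : Continuous (fun τ : Sym2 => |τ.2.2.im - Real.sqrt 3|) := by fun_prop
    refine (this.tendsto oPt).eventually_lt_const ?_
    simp [oPt]
  have c3 : ∀ᶠ τ : Sym2 in 𝓝 oPt, |τ.2.1.im| < 1 / 100 := by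
    have : Continuous (fun τ : Sym2 => |τ.2.1.im|) := by fun_prop
    refine (this.tendsto oPt).eventually_lt_const ?_
    simp [oPt]
  have c4 : ∀ᶠ τ : Sym2 in 𝓝 oPt, |τ.2.1.re| < 1 / 100 := by
    have : Continuous (fun τ : Sym2 => |τ.2.1.re|) := by fun_prop
    refine (this.tendsto oPt).eventually_lt_const ?_
    simp [oPt]
  filter_upwards [c1, c2, c3, c4] with τ h1 h2 h3 h4
  intro γ hγ x hx hx1 hx2 hact
  have hg := isGSpPos_of_mem hγ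
  have hmul := toMat_act_mul hg hx
  rw [hact] at hmul
  set p0 := γ (Sum.inl 0) (Sum.inl 0) with hp0
  set p1 := γ (Sum.inl 1) (Sum.inl 0) with hp1
  set q0 := γ (Sum.inr 0) (Sum.inl 0) with hq0
  set q1 := γ (Sum.inr 1) (Sum.inl 0) with hq1
  set r0 := γ (Sum.inl 0) (Sum.inr 0) with hr0
  set r1 := γ (Sum.inl 1) (Sum.inr 0) with hr1
  set s0 := γ (Sum.inr 0) (Sum.inr 0) with hs0
  set s1 := γ (Sum.inr 1) (Sum.inr 0) with hs1
  have E1 := congrFun (congrFun hmul 0) 0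
  have E2 := congrFun (congrFun hmul 1) 0
  simp [denom, numer, toMat, Matrix.mul_apply, Fin.sum_univ_two, Matrix.toBlocks₂₁,
    Matrix.toBlocks₂₂, Matrix.toBlocks₁₁, Matrix.toBlocks₁₂, hx1, hx2,
    ← hp0, ← hp1, ← hq0, ← hq1, ← hr0, ← hr1, ← hs0, ← hs1] at E1 E2
  -- the symplectic relation
  have hsy : p0 * s0 + p1 * s1 - q0 * r0 - q1 * r1 = 1 := by
    have h5 := SymplecticGroup.transpose_mem hγ
    rw [SymplecticGroup.mem_iff, Matrix.transpose_transpose] at h5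
    have h6 := congrFun (congrFun h5 (Sum.inr 0)) (Sum.inl 0)
    simp [Matrix.mul_apply, Matrix.J, Matrix.fromBlocks, Fin.sum_univ_two,
      Matrix.one_apply, ← hp0, ← hp1, ← hq0, ← hq1, ← hr0, ← hr1, ← hs0, ← hs1] at h6
    linarith
  have R1 := congrArg Complex.re E1
  have I1 := congrArg Complex.im E1
  have R2 := congrArg Complex.re E2
  have I2 := congrArg Complex.im E2
  simp at R1 I1 R2 I2
  have hsy' : (p0 : ℝ) * s0 + p1 * s1 - q0 * r0 - q1 * r1 = 1 := by exact_mod_cast hsy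
  have hquad : τ.1.im * (s0 ^ 2 + 4 * q0 ^ 2 : ℤ) + 2 * τ.2.1.im * (s0 * s1 + 4 * q0 * q1 : ℤ) +
      τ.2.2.im * (s1 ^ 2 + 4 * q1 ^ 2 : ℤ) = 2 := by
    push_cast
    linear_combination (s0 : ℝ) * I1 - 2 * q0 * R1 + s1 * I2 - 2 * q1 * R2 + 2 * hsy'
  obtain ⟨k1, k2, k3, k4⟩ := arith_step h1 h2 h3 hquad
  have k1' : (s0 : ℝ) ^ 2 = 1 := by exact_mod_cast k1
  rw [k2, k3, k4] at R2 I2
  simp at R2 I2
  obtain ⟨a1, a2⟩ := abs_lt.mp h3
  obtain ⟨b1, b2⟩ := abs_lt.mp h4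
  have hs : (s0 : ℝ) = 1 ∨ (s0 : ℝ) = -1 := by
    have h0 : ((s0 : ℝ) - 1) * (s0 + 1) = 0 := by linear_combination k1'
    rcases mul_eq_zero.mp h0 with h | h
    · left; linarith
    · right; linarith
  have hr1 : r1 = 0 := by
    have h0 : |(r1 : ℝ)| < 1 := by
      rw [abs_lt]
      rcases hs with h | h <;> rw [h] at R2 <;> constructor <;> linarith
    exact Int.abs_lt_one_iff.mp (by exact_mod_cast h0)
  have hp1 : p1 = 0 := by
    have h0 : |(p1 : ℝ)| < 1 := by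
      rw [abs_lt]
      rcases hs with h | h <;> rw [h] at I2 <;> constructor <;> linarith
    exact Int.abs_lt_one_iff.mp (by exact_mod_cast h0)
  rw [hr1] at R2
  rw [hp1] at I2
  apply Complex.ext
  · rcases hs with h | h <;> rw [h] at R2 <;> simp at R2 ⊢ <;> linarith
  · rcases hs with h | h <;> rw [h] at I2 <;> simp at I2 ⊢ <;> linarith

end Pool.Agent.H20.HASC
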