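import Pool.Agent.H20.HASC.SShift
import Pool.Agent.H17.HASC.Torus

set_option autoImplicit false

open Matrix

namespace Pool.Agent.H20.HASC

open Pool.Agent.H17.HASC

lemma oo_eq : oo = oPt := by
  rw [oo, oPt, s3, mul_comm (Complex.ofReal _) Complex.I]

/-- the rational matrix cutting out the torus -/
def AQ : Matrix I4 I4 ℚ := fromBlocks 0 (diagonal ![-4, -3]) 1 0

/-- the same matrix over `ℂ` -/
noncomputable def AC : Matrix I4 I4 ℂ := blk 0 ![-4, -3] 1 0

lemma AQ_map : AQ.map (algebraMap ℚ ℂ) = AC := by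
  rw [AQ, AC, blk, fromBlocks_map]
  congr 1
  · ext i j; simp
  · ext i j; fin_cases i <;> fin_cases j <;> simp
  · ext i j; fin_cases i <;> fin_cases j <;> simp
  · ext i j; simp

lemma J_blk : Matrix.J (Fin 2) ℂ = blk 0 (-1) 1 0 := by
  rw [Matrix.J, blk]
  congr 1
  · simp
  · ext i j; fin_cases i <;> fin_cases j <;> simp
  · ext i j; fin_cases i <;> fin_cases j <;> simp

lemma blk_transpose (A B C D : Fin 2 → ℂ) : (blk A B C D)ᵀ = blk A C B D := by
  rw [blk, blk, fromBlocks_transpose]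
  simp

lemma P_symp : P * Matrix.J (Fin 2) ℂ * Pᵀ = Matrix.J (Fin 2) ℂ := by
  have hI := I_mul_I'
  have hs := Pool.Agent.H17.HASC.s3_sq
  rw [J_blk, P, blk_transpose, blk_mul, blk_mul]
  apply blk_ext
  · ext k; fin_cases k <;> simp <;> ring
  · ext k
    fin_cases k
    · simp; linear_combination (1 / 2 : ℂ) * hI
    · simp; linear_combination (1 / 6 * (s3 * s3) : ℂ) * hI - (1 / 6 : ℂ) * hs
  · ext k
    fin_cases k
    · simp; linear_combination (-1 / 2 : ℂ) * hI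
    · simp; linear_combination (-1 / 6 * (s3 * s3) : ℂ) * hI + (1 / 6 : ℂ) * hs
  · ext k; fin_cases k <;> simp

lemma gP_mem : gP ∈ GSp4 := ⟨1, by rw [one_smul]; exact P_symp⟩

/-- eigenvalues -/
noncomputable def Lam : Matrix I4 I4 ℂ :=
  blk ![2 * Complex.I, s3 * Complex.I] 0 0 ![-(2 * Complex.I), -(s3 * Complex.I)]

lemma AC_P : AC * P = P * Lam := by
  have hI := I_mul_I'
  have hs := Pool.Agent.H17.HASC.s3_sq
  rw [AC, P, Lam, blk_mul, blk_mul]
  apply blk_ext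
  · ext k; fin_cases k
    · simp; ring
    · simp; ring
  · ext k; fin_cases k
    · simp
      linear_combination (-4) * hI
    · simp
      linear_combination (-s3 * s3) * hI + hs
  · ext k; fin_cases k
    · simp
      linear_combination (1 / 2 : ℂ) * hI
    · simp
      linear_combination (s3 * s3 / 6) * hI - (1 / 6 : ℂ) * hs
  · ext k; fin_cases k <;> simp

lemma Pinv_AC : Pinv * AC = Lam * Pinv := by
  have h : Pinv * (AC * P) * Pinv = Pinv * (P * Lam) * Pinv := by rw [AC_P]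
  calc Pinv * AC = Pinv * (AC * P) * Pinv := by
        rw [Matrix.mul_assoc, Matrix.mul_assoc, P_mul_Pinv, Matrix.mul_one]
    _ = Pinv * (P * Lam) * Pinv := h
    _ = Lam * Pinv := by rw [← Matrix.mul_assoc Pinv, Pinv_mul_P, Matrix.one_mul]

/-- the eigenvalues as a function -/
noncomputable def lam : I4 → ℂ :=
  Sum.elim ![2 * Complex.I, s3 * Complex.I] ![-(2 * Complex.I), -(s3 * Complex.I)]

lemma Lam_eq : Lam = diagonal lam := by
  rw [Lam, blk, lam]
  ext i j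
  rcases i with i | i <;> rcases j with j | j
  · rw [fromBlocks_apply₁₁]
    by_cases h : i = j
    · subst h; simp
    · rw [diagonal_apply_ne _ h, diagonal_apply_ne]
      simpa using h
  · rw [fromBlocks_apply₁₂]; simp
  · rw [fromBlocks_apply₂₁]; simp
  · rw [fromBlocks_apply₂₂]
    by_cases h : i = j
    · subst h; simp
    · rw [diagonal_apply_ne _ h, diagonal_apply_ne]
      simpa using h

lemma s3_ne_two : s3 ≠ 2 := by
  intro h
  have := Pool.Agent.H17.HASC.s3_sq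
  rw [h] at this
  norm_num at this

lemma s3_ne_neg_two : s3 ≠ -2 := by
  intro h
  have := Pool.Agent.H17.HASC.s3_sq
  rw [h] at this
  norm_num at this

lemma lam_inj : Function.Injective lam := by
  have hI := Complex.I_ne_zero
  have h0 := Pool.Agent.H17.HASC.s3_ne
  have h1 := s3_ne_two
  have h2 := s3_ne_neg_two
  have c1 : (2 : ℂ) * Complex.I ≠ s3 * Complex.I := by
    intro h; exact h1 (mul_right_cancel₀ hI h).symm
  have c2 : (2 : ℂ) * Complex.I ≠ -(2 * Complex.I) := by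
    intro h
    have : (4 : ℂ) * Complex.I = 0 := by linear_combination h
    simp [hI] at this
  have c3 : (2 : ℂ) * Complex.I ≠ -(s3 * Complex.I) := by
    intro h
    apply h2
    apply mul_right_cancel₀ hI
    linear_combination h
  have c5 : s3 * Complex.I ≠ -(2 * Complex.I) := by
    intro h
    apply h2
    apply mul_right_cancel₀ hI
    linear_combination h
  have c4 : s3 * Complex.I ≠ -(s3 * Complex.I) := by
    intro h
    have : (2 : ℂ) * (s3 * Complex.I) = 0 := by linear_combination h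
    simp [hI, h0] at this
  intro i j hij
  rcases i with i | i <;> rcases j with j | j <;> fin_cases i <;> fin_cases j <;>
    simp [lam] at hij ⊢
  all_goals first
    | exact c1 hij
    | exact c1 hij.symm
    | exact c2 hij
    | exact c2 hij.symm
    | exact c3 hij
    | exact c3 hij.symm
    | exact c4 hij
    | exact c4 hij.symm
    | exact c5 hij
    | exact c5 hij.symm
    | exact h1 hij
    | exact h1 hij.symm

lemma diag_of_comm {M : Matrix I4 I4 ℂ} (h : M * Lam = Lam * M) : M.IsDiag := by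
  intro i j hij
  rw [Lam_eq] at h
  have := congrFun (congrFun h i) j
  rw [Matrix.mul_diagonal, Matrix.diagonal_mul] at this
  have h2 : (lam j - lam i) * M i j = 0 := by linear_combination this
  rcases mul_eq_zero.mp h2 with h3 | h3
  · exact absurd (lam_inj (sub_eq_zero.mp h3)).symm hij
  · exact h3

lemma comm_of_diag {M : Matrix I4 I4 ℂ} (h : M.IsDiag) : M * Lam = Lam * M := by
  rw [Lam_eq]
  ext i j
  rw [Matrix.mul_diagonal, Matrix.diagonal_mul]
  by_cases hij : i = j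
  · subst hij; ring
  · rw [h hij]; ring

lemma gP_coe : (gP : Matrix I4 I4 ℂ) = P := rfl
lemma gP_inv_coe : ((gP⁻¹ : GL I4 ℂ) : Matrix I4 I4 ℂ) = Pinv := rfl

/-- commuting with the rational matrix is the same as being diagonal in the eigenbasis -/
lemma comm_iff (t : GL I4 ℂ) : (t : Matrix I4 I4 ℂ) * AC = AC * t ↔
    ((gP⁻¹ * t * gP : GL I4 ℂ) : Matrix I4 I4 ℂ).IsDiag := by
  rw [Units.val_mul, Units.val_mul, gP_coe, gP_inv_coe]
  constructor
  · intro h
    apply diag_of_comm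
    calc Pinv * t * P * Lam = Pinv * (t * AC) * P := by
          rw [Matrix.mul_assoc (Pinv * (t : Matrix I4 I4 ℂ)), ← AC_P]; simp only [Matrix.mul_assoc]
      _ = Lam * (Pinv * t * P) := by
          rw [h, ← Matrix.mul_assoc Pinv, Pinv_AC]; simp only [Matrix.mul_assoc]
  · intro h
    have h1 := comm_of_diag h
    calc (t : Matrix I4 I4 ℂ) * AC = P * (Pinv * t * P * Lam) * Pinv := by
          have e1 : P * (Pinv * t * P * Lam) * Pinv = (P * Pinv) * t * (P * Lam) * Pinv := by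
            simp only [Matrix.mul_assoc]
          rw [e1, P_mul_Pinv, Matrix.one_mul, ← AC_P, Matrix.mul_assoc, Matrix.mul_assoc AC,
            P_mul_Pinv, Matrix.mul_one]
      _ = P * (Lam * (Pinv * t * P)) * Pinv := by rw [h1]
      _ = AC * t := by
          have e1 : P * (Lam * (Pinv * t * P)) * Pinv = P * (Lam * Pinv) * t * (P * Pinv) := by
            simp only [Matrix.mul_assoc]
          rw [e1, P_mul_Pinv, Matrix.mul_one, ← Pinv_AC, ← Matrix.mul_assoc P, P_mul_Pinv,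
            Matrix.one_mul]

/-- the torus, as centralizer of a rational matrix -/
noncomputable def T0 : Subgroup (GL I4 ℂ) where
  carrier := {t | t ∈ GSp4 ∧ (t : Matrix I4 I4 ℂ) * AC = AC * t}
  mul_mem' := by
    rintro a b ⟨ha, ha'⟩ ⟨hb, hb'⟩
    refine ⟨mul_mem ha hb, ?_⟩
    rw [Units.val_mul, Matrix.mul_assoc, hb', ← Matrix.mul_assoc, ha', Matrix.mul_assoc]
  one_mem' := ⟨one_mem _, by simp⟩
  inv_mem' := by
    rintro a ⟨ha, ha'⟩
    refine ⟨inv_mem ha, ?_⟩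
    have h1 : ((a⁻¹ : GL I4 ℂ) : Matrix I4 I4 ℂ) * (a : Matrix I4 I4 ℂ) = 1 := by
      rw [← Units.val_mul, inv_mul_cancel]; rfl
    have h2 : (a : Matrix I4 I4 ℂ) * ((a⁻¹ : GL I4 ℂ) : Matrix I4 I4 ℂ) = 1 := by
      rw [← Units.val_mul, mul_inv_cancel]; rfl
    calc ((a⁻¹ : GL I4 ℂ) : Matrix I4 I4 ℂ) * AC
        = ((a⁻¹ : GL I4 ℂ) : Matrix I4 I4 ℂ) * (AC * a) * ((a⁻¹ : GL I4 ℂ) : Matrix I4 I4 ℂ) := by
          rw [Matrix.mul_assoc, Matrix.mul_assoc, h2, Matrix.mul_one]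
      _ = _ := by
          rw [← ha', ← Matrix.mul_assoc, h1, Matrix.one_mul]

lemma mem_T0 {t : GL I4 ℂ} : t ∈ T0 ↔ t ∈ GSp4 ∧ (t : Matrix I4 I4 ℂ) * AC = AC * t := Iff.rfl

/-- the generic matrix -/
noncomputable def Xm : Matrix I4 I4 (MvPolynomial (I4 × I4) ℚ) :=
  Matrix.of fun i j => MvPolynomial.X (i, j)

/-- evaluation at `g` -/
noncomputable def evG (g : Matrix I4 I4 ℂ) : MvPolynomial (I4 × I4) ℚ →+* ℂ :=
  (MvPolynomial.aeval (fun ij : I4 × I4 => g ij.1 ij.2) : MvPolynomial (I4 × I4) ℚ →ₐ[ℚ] ℂ)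

lemma evG_Xm (g : Matrix I4 I4 ℂ) : Xm.map (evG g) = g := by
  ext i j
  simp [evG, Xm]

lemma evG_C (g : Matrix I4 I4 ℂ) (M : Matrix I4 I4 ℚ) :
    (M.map (MvPolynomial.C : ℚ →+* MvPolynomial (I4 × I4) ℚ)).map (evG g) =
      M.map (algebraMap ℚ ℂ) := by
  ext i j
  simp [evG]

/-- the polynomial matrix `x J xᵀ` -/
noncomputable def SJ : Matrix I4 I4 (MvPolynomial (I4 × I4) ℚ) :=
  Xm * Matrix.J (Fin 2) (MvPolynomial (I4 × I4) ℚ) * Xmᵀ

lemma evG_SJ (g : Matrix I4 I4 ℂ) : SJ.map (evG g) = g * Matrix.J (Fin 2) ℂ * gᵀ := by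
  rw [SJ, Matrix.map_mul, Matrix.map_mul, Matrix.map_J, Matrix.transpose_map, evG_Xm]

/-- the polynomial matrix `x A - A x` -/
noncomputable def SA : Matrix I4 I4 (MvPolynomial (I4 × I4) ℚ) :=
  Xm * AQ.map (MvPolynomial.C : ℚ →+* MvPolynomial (I4 × I4) ℚ) -
    AQ.map (MvPolynomial.C : ℚ →+* MvPolynomial (I4 × I4) ℚ) * Xm

lemma evG_SA (g : Matrix I4 I4 ℂ) : SA.map (evG g) = g * AC - AC * g := by
  have : ∀ A B : Matrix I4 I4 (MvPolynomial (I4 × I4) ℚ),
      (A - B).map (evG g) = A.map (evG g) - B.map (evG g) := by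
    intro A B; ext i j; simp
  rw [SA, this, Matrix.map_mul, Matrix.map_mul, evG_Xm, evG_C, AQ_map]

lemma T0_isQ : IsQSubgroup T0 := by
  refine ⟨{p | (∃ i j, p = SJ i j - SJ (Sum.inr 0) (Sum.inl 0) *
      Matrix.J (Fin 2) (MvPolynomial (I4 × I4) ℚ) i j) ∨ (∃ i j, p = SA i j)}, fun g => ?_⟩
  have e1 : ∀ i j, evG (g : Matrix I4 I4 ℂ) (SJ i j) =
      ((g : Matrix I4 I4 ℂ) * Matrix.J (Fin 2) ℂ * (g : Matrix I4 I4 ℂ)ᵀ) i j := by
    intro i j
    rw [← evG_SJ]; rfl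
  have e2 : ∀ i j, evG (g : Matrix I4 I4 ℂ) (SA i j) =
      ((g : Matrix I4 I4 ℂ) * AC - AC * (g : Matrix I4 I4 ℂ)) i j := by
    intro i j
    rw [← evG_SA]; rfl
  have e3 : ∀ i j, evG (g : Matrix I4 I4 ℂ) (Matrix.J (Fin 2) (MvPolynomial (I4 × I4) ℚ) i j) =
      Matrix.J (Fin 2) ℂ i j := by
    intro i j
    have := Matrix.map_J (l := Fin 2) (R := MvPolynomial (I4 × I4) ℚ)
      (evG (g : Matrix I4 I4 ℂ))
    exact congrFun (congrFun this i) j
  have e4 : Matrix.J (Fin 2) ℂ (Sum.inr 0) (Sum.inl 0) = 1 := by simp [Matrix.J]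
  rw [mem_T0]
  constructor
  · rintro ⟨⟨ν, hν⟩, hA⟩ p hp
    change evG (g : Matrix I4 I4 ℂ) p = 0
    rcases hp with ⟨i, j, rfl⟩ | ⟨i, j, rfl⟩
    · rw [map_sub, map_mul, e1, e1, e3, hν, Matrix.smul_apply, Matrix.smul_apply, e4]
      simp
    · rw [e2, hA, sub_self]; rfl
  · intro h
    refine ⟨⟨((g : Matrix I4 I4 ℂ) * Matrix.J (Fin 2) ℂ * (g : Matrix I4 I4 ℂ)ᵀ)
      (Sum.inr 0) (Sum.inl 0), ?_⟩, ?_⟩
    · ext i j
      have h1 : evG (g : Matrix I4 I4 ℂ) (SJ i j - SJ (Sum.inr 0) (Sum.inl 0) *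
        Matrix.J (Fin 2) (MvPolynomial (I4 × I4) ℚ) i j) = 0 := h _ (Or.inl ⟨i, j, rfl⟩)
      rw [map_sub, map_mul, e1, e1, e3] at h1
      rw [Matrix.smul_apply, smul_eq_mul]
      exact sub_eq_zero.mp h1
    · ext i j
      have h1 : evG (g : Matrix I4 I4 ℂ) (SA i j) = 0 := h _ (Or.inr ⟨i, j, rfl⟩)
      rw [e2] at h1
      exact sub_eq_zero.mp h1

/-- the similitude character on diagonal matrices -/
lemma dg_J (p r q s : ℂ) : dg p r q s * Matrix.J (Fin 2) ℂ * (dg p r q s)ᵀ =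
    blk 0 ![-(p * q), -(r * s)] ![p * q, r * s] 0 := by
  rw [J_blk, dg, blk_transpose, blk_mul, blk_mul]
  apply blk_ext
  · ext k; fin_cases k <;> simp
  · ext k; fin_cases k <;> simp
  · ext k; fin_cases k <;> simp [mul_comm]
  · ext k; fin_cases k <;> simp

lemma tor_GSp {p r q s : ℂ} (h : p * q = r * s) :
    tor p r q s * Matrix.J (Fin 2) ℂ * (tor p r q s)ᵀ = (p * q) • Matrix.J (Fin 2) ℂ := by
  have h1 : dg p r q s * Matrix.J (Fin 2) ℂ * (dg p r q s)ᵀ = (p * q) • Matrix.J (Fin 2) ℂ := by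
    rw [dg_J, ← h, J_blk, blk_smul]
    apply blk_ext
    · ext k; fin_cases k <;> simp
    · ext k; fin_cases k <;> simp
    · ext k; fin_cases k <;> simp
    · ext k; fin_cases k <;> simp
  have h2 : Pinv * Matrix.J (Fin 2) ℂ * Pinvᵀ = Matrix.J (Fin 2) ℂ := by
    have h3 : Pᵀ * Pinvᵀ = 1 := by
      rw [← Matrix.transpose_mul, Pinv_mul_P, Matrix.transpose_one]
    calc Pinv * Matrix.J (Fin 2) ℂ * Pinvᵀ = Pinv * (P * Matrix.J (Fin 2) ℂ * Pᵀ) * Pinvᵀ := by
          rw [P_symp]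
      _ = (Pinv * P) * Matrix.J (Fin 2) ℂ * (Pᵀ * Pinvᵀ) := by simp only [Matrix.mul_assoc]
      _ = _ := by rw [Pinv_mul_P, h3]; simp
  calc tor p r q s * Matrix.J (Fin 2) ℂ * (tor p r q s)ᵀ
      = P * (dg p r q s * (Pinv * Matrix.J (Fin 2) ℂ * Pinvᵀ) * (dg p r q s)ᵀ) * Pᵀ := by
        rw [tor, Matrix.transpose_mul, Matrix.transpose_mul]
        simp only [Matrix.mul_assoc]
    _ = _ := by
        rw [h2, h1, Matrix.mul_smul, Matrix.smul_mul, P_symp]

lemma dg_diag (p r q s : ℂ) : (dg p r q s).IsDiag := by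
  intro i j hij
  rw [dg, blk]
  rcases i with i | i <;> rcases j with j | j
  · rw [fromBlocks_apply₁₁, diagonal_apply_ne]
    intro h; exact hij (by rw [h])
  · rw [fromBlocks_apply₁₂]; simp
  · rw [fromBlocks_apply₂₁]; simp
  · rw [fromBlocks_apply₂₂, diagonal_apply_ne]
    intro h; exact hij (by rw [h])

lemma tor_mem_T0 {p r q s : ℂ} (h : p * q = r * s) {t : GL I4 ℂ}
    (ht : (t : Matrix I4 I4 ℂ) = tor p r q s) : t ∈ T0 := by
  rw [mem_T0]
  refine ⟨⟨p * q, by rw [ht]; exact tor_GSp h⟩, ?_⟩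
  rw [comm_iff, Units.val_mul, Units.val_mul, gP_coe, gP_inv_coe, ht, tor]
  have : Pinv * (P * dg p r q s * Pinv) * P = dg p r q s := by
    calc Pinv * (P * dg p r q s * Pinv) * P = (Pinv * P) * dg p r q s * (Pinv * P) := by
          simp only [Matrix.mul_assoc]
      _ = _ := by rw [Pinv_mul_P, Matrix.one_mul, Matrix.mul_one]
  rw [this]
  exact dg_diag p r q s

lemma T0_factors : FactorsThrough oPt T0 := by
  rw [← oo_eq]
  intro s hs
  have h1 := cplx_hodge_oo s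
  rw [tor_plus] at h1
  have ha : (s.re : ℂ) + s.im * Complex.I ≠ 0 := by rwa [Complex.re_add_im]
  have hb : (s.re : ℂ) - s.im * Complex.I ≠ 0 := by
    intro h
    apply hs
    have h2 := congrArg Complex.re h
    have h3 := congrArg Complex.im h
    simp at h2 h3
    exact Complex.ext h2 h3
  obtain ⟨u, hu⟩ := tor_isUnit ha ha hb hb
  exact ⟨u, tor_mem_T0 rfl hu, by rw [hu, h1]⟩

/-- diagonal elements in the eigenbasis -/
lemma eq_tor {t : GL I4 ℂ} (ht : t ∈ GSp4)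
    (hd : ((gP⁻¹ * t * gP : GL I4 ℂ) : Matrix I4 I4 ℂ).IsDiag) :
    ∃ p r q s : ℂ, p ≠ 0 ∧ r ≠ 0 ∧ s ≠ 0 ∧ p * q = r * s ∧ (t : Matrix I4 I4 ℂ) = tor p r q s := by
  set m : GL I4 ℂ := gP⁻¹ * t * gP with hm
  have hmG : m ∈ GSp4 := mul_mem (mul_mem (inv_mem gP_mem) ht) gP_mem
  have hdg : (m : Matrix I4 I4 ℂ) = dg (m.1 (Sum.inl 0) (Sum.inl 0)) (m.1 (Sum.inl 1) (Sum.inl 1))
      (m.1 (Sum.inr 0) (Sum.inr 0)) (m.1 (Sum.inr 1) (Sum.inr 1)) := by
    ext i j
    by_cases hij : i = j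
    · subst hij
      rcases i with i | i <;> fin_cases i <;> simp [dg, blk]
    · rw [hd hij, dg_diag _ _ _ _ hij]
  set p := m.1 (Sum.inl 0) (Sum.inl 0)
  set r := m.1 (Sum.inl 1) (Sum.inl 1)
  set q := m.1 (Sum.inr 0) (Sum.inr 0)
  set s := m.1 (Sum.inr 1) (Sum.inr 1)
  obtain ⟨ν, hν⟩ := hmG
  rw [hdg, dg_J] at hν
  have h1 := congrFun (congrFun hν (Sum.inr 0)) (Sum.inl 0)
  have h2 := congrFun (congrFun hν (Sum.inr 1)) (Sum.inl 1)
  simp [blk, Matrix.J] at h1 h2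
  have hdet : (m : Matrix I4 I4 ℂ).det ≠ 0 := by
    have := m.isUnit
    rw [Matrix.isUnit_iff_isUnit_det] at this
    exact this.ne_zero
  have hpr : ∀ i, (m : Matrix I4 I4 ℂ) i i ≠ 0 := by
    intro i h0
    apply hdet
    apply Matrix.det_eq_zero_of_row_eq_zero i
    intro j
    by_cases hij : i = j
    · subst hij; exact h0
    · exact hd hij
  refine ⟨p, r, q, s, hpr _, hpr _, hpr _, by rw [h1, h2], ?_⟩
  have : t = gP * m * gP⁻¹ := by rw [hm]; group
  rw [this, Units.val_mul, Units.val_mul, gP_coe, gP_inv_coe, hdg, tor]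

theorem MT_eq : MT oPt = T0 := by
  apply le_antisymm
  · exact sInf_le ⟨fun t ht => ht.1, T0_isQ, T0_factors⟩
  · apply le_sInf
    rintro H ⟨hH, hQ, hF⟩ t ht
    rw [← oo_eq] at hF
    obtain ⟨hG, hc⟩ := ht
    rw [comm_iff] at hc
    obtain ⟨p, r, q, s, hp, hr, hs, hpq, he⟩ := eq_tor hG hc
    obtain ⟨g, hg, hg'⟩ := mem_tor hQ hF hp hr hs hpq
    have : t = g := Units.ext (by rw [he, hg'])
    rw [this]; exact hg

theorem isMaximalTorus_MT : IsMaximalTorus (MT oPt) := by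
  refine ⟨gP, gP_mem, fun t => ?_⟩
  rw [MT_eq, mem_T0, comm_iff]

end Pool.Agent.H20.HASC
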