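import Pool.Agent.H20.HASC.Hodge
import Pool.Agent.H20.HASC.Local

set_option autoImplicit false

open Matrix Topology

namespace Pool.Agent.H20.HASC

/-- complexification -/
noncomputable def toC : GL I4 ℝ →* GL I4 ℂ := Matrix.GeneralLinearGroup.map Complex.ofRealHom

lemma toC_coe (m : GL I4 ℝ) : (toC m : Matrix I4 I4 ℂ) = cplxMat (m : Matrix I4 I4 ℝ) := rfl

lemma mem_realPoints {H : Subgroup (GL I4 ℂ)} {M : Matrix I4 I4 ℝ} :
    M ∈ realPoints H ↔ ∃ m : GL I4 ℝ, toC m ∈ H ∧ (m : Matrix I4 I4 ℝ) = M := by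
  constructor
  · rintro ⟨g, hg, h⟩
    have h1 : IsUnit M.det := by
      rw [isUnit_iff_ne_zero]
      intro h0
      have h2 : (g : Matrix I4 I4 ℂ).det = 0 := by
        rw [h]
        have := RingHom.map_det Complex.ofRealHom M
        rw [h0, map_zero] at this
        exact this.symm
      have h3 := g.isUnit
      rw [Matrix.isUnit_iff_isUnit_det, h2] at h3
      exact not_isUnit_zero h3
    refine ⟨Matrix.nonsingInvUnit M h1, ?_, rfl⟩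
    have : toC (Matrix.nonsingInvUnit M h1) = g := by
      apply Units.ext
      rw [toC_coe, h]
      rfl
    rw [this]; exact hg
  · rintro ⟨m, hm, rfl⟩
    exact ⟨toC m, hm, rfl⟩

lemma coe_mem_realPoints {H : Subgroup (GL I4 ℂ)} {m : GL I4 ℝ} :
    (m : Matrix I4 I4 ℝ) ∈ realPoints H ↔ toC m ∈ H := by
  rw [mem_realPoints]
  constructor
  · rintro ⟨n, hn, h⟩
    rwa [← Units.ext h]
  · intro h
    exact ⟨m, h, rfl⟩

/-- rational matrices in `GL₄(ℝ)` -/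
noncomputable def qR : GL I4 ℚ →* GL I4 ℝ := Matrix.GeneralLinearGroup.map (algebraMap ℚ ℝ)

/-- rational matrices in `GL₄(ℂ)` -/
noncomputable def qC : GL I4 ℚ →* GL I4 ℂ := Matrix.GeneralLinearGroup.map (algebraMap ℚ ℂ)

lemma toC_qR (c : GL I4 ℚ) : toC (qR c) = qC c := by
  apply Units.ext
  rw [toC_coe]
  ext i j
  simp [qR, qC]

lemma qR_coe (c : GL I4 ℚ) : (qR c : Matrix I4 I4 ℝ) = ratMat (c : Matrix I4 I4 ℚ) := by
  ext i j
  simp [qR]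

/-- the conjugate `c H c⁻¹` -/
noncomputable def conjG (c : GL I4 ℚ) (H : Subgroup (GL I4 ℂ)) : Subgroup (GL I4 ℂ) :=
  H.comap (MulAut.conj (qC c)⁻¹).toMonoidHom

lemma mem_conjG {c : GL I4 ℚ} {H : Subgroup (GL I4 ℂ)} {g : GL I4 ℂ} :
    g ∈ conjG c H ↔ (qC c)⁻¹ * g * qC c ∈ H := by
  rw [conjG, Subgroup.mem_comap]
  simp

lemma conjG_isQ {c : GL I4 ℚ} {H : Subgroup (GL I4 ℂ)} (hQ : IsQSubgroup H) :
    IsQSubgroup (conjG c H) := by
  obtain ⟨E, hE⟩ := hQ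
  let φ : I4 × I4 → MvPolynomial (I4 × I4) ℚ := fun ij =>
    ∑ k, ∑ l, MvPolynomial.C (((c⁻¹ : GL I4 ℚ) : Matrix I4 I4 ℚ) ij.1 k) *
      MvPolynomial.X (k, l) * MvPolynomial.C ((c : Matrix I4 I4 ℚ) l ij.2)
  refine ⟨{p | ∃ p₀ ∈ E, p = MvPolynomial.bind₁ φ p₀}, fun g => ?_⟩
  have key : ∀ ij : I4 × I4, MvPolynomial.aeval
      (fun ij : I4 × I4 => (g : Matrix I4 I4 ℂ) ij.1 ij.2) (φ ij) =
      (((qC c)⁻¹ * g * qC c : GL I4 ℂ) : Matrix I4 I4 ℂ) ij.1 ij.2 := by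
    intro ij
    have e1 : (((qC c)⁻¹ : GL I4 ℂ) : Matrix I4 I4 ℂ) =
        ((c⁻¹ : GL I4 ℚ) : Matrix I4 I4 ℚ).map (algebraMap ℚ ℂ) := by
      rw [← map_inv]; rfl
    have e2 : ((qC c : GL I4 ℂ) : Matrix I4 I4 ℂ) =
        (c : Matrix I4 I4 ℚ).map (algebraMap ℚ ℂ) := rfl
    rw [Units.val_mul, Units.val_mul, e1, e2]
    simp only [φ, map_sum, map_mul, MvPolynomial.aeval_C, MvPolynomial.aeval_X, Matrix.mul_apply,
      Matrix.map_apply, Finset.sum_mul]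
    rw [Finset.sum_comm]
  have key2 : ∀ p₀ : MvPolynomial (I4 × I4) ℚ, MvPolynomial.aeval
      (fun ij : I4 × I4 => (g : Matrix I4 I4 ℂ) ij.1 ij.2) (MvPolynomial.bind₁ φ p₀) =
      MvPolynomial.aeval (fun ij : I4 × I4 =>
        (((qC c)⁻¹ * g * qC c : GL I4 ℂ) : Matrix I4 I4 ℂ) ij.1 ij.2) p₀ := by
    intro p₀
    rw [MvPolynomial.aeval_bind₁]
    congr 2
    funext ij
    exact key ij
  rw [mem_conjG, hE]
  constructor
  · rintro h p ⟨p₀, hp₀, rfl⟩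
    rw [key2]
    exact h p₀ hp₀
  · intro h p₀ hp₀
    rw [← key2]
    exact h _ ⟨p₀, hp₀, rfl⟩

lemma toC_mem_conjG {c : GL I4 ℚ} {H : Subgroup (GL I4 ℂ)} {m : GL I4 ℝ} :
    toC m ∈ conjG c H ↔ toC ((qR c)⁻¹ * m * qR c) ∈ H := by
  rw [mem_conjG, map_mul, map_mul, map_inv, toC_qR]

/-- multiplier of a real point -/
lemma multiplier {H : Subgroup (GL I4 ℂ)} (hH : H ≤ GSp4) {M : Matrix I4 I4 ℝ}
    (hM : M ∈ realPoints H) :
    M * Matrix.J (Fin 2) ℝ * Mᵀ =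
      (M * Matrix.J (Fin 2) ℝ * Mᵀ) (Sum.inr 0) (Sum.inl 0) • Matrix.J (Fin 2) ℝ ∧
    (M * Matrix.J (Fin 2) ℝ * Mᵀ) (Sum.inr 0) (Sum.inl 0) ≠ 0 := by
  obtain ⟨m, hm, rfl⟩ := mem_realPoints.mp hM
  obtain ⟨ν, hν⟩ := hH hm
  have h0 : cplxMat ((m : Matrix I4 I4 ℝ) * Matrix.J (Fin 2) ℝ * (m : Matrix I4 I4 ℝ)ᵀ) =
      ν • Matrix.J (Fin 2) ℂ := by
    rw [cplx_mul, cplx_mul, cplx_J]
    exact hν
  have h1 : ν = (((m : Matrix I4 I4 ℝ) * Matrix.J (Fin 2) ℝ * (m : Matrix I4 I4 ℝ)ᵀ)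
      (Sum.inr 0) (Sum.inl 0) : ℝ) := by
    have := congrFun (congrFun h0 (Sum.inr 0)) (Sum.inl 0)
    rw [Matrix.smul_apply, smul_eq_mul] at this
    have e : Matrix.J (Fin 2) ℂ (Sum.inr 0) (Sum.inl 0) = 1 := by simp [Matrix.J]
    rw [e, mul_one] at this
    rw [← this]; rfl
  set r := ((m : Matrix I4 I4 ℝ) * Matrix.J (Fin 2) ℝ * (m : Matrix I4 I4 ℝ)ᵀ)
      (Sum.inr 0) (Sum.inl 0) with hr
  have h2 : (m : Matrix I4 I4 ℝ) * Matrix.J (Fin 2) ℝ * (m : Matrix I4 I4 ℝ)ᵀ =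
      r • Matrix.J (Fin 2) ℝ := by
    apply cplx_inj
    rw [h0, h1]
    have e2 : cplxMat (r • Matrix.J (Fin 2) ℝ) = (r : ℂ) • cplxMat (Matrix.J (Fin 2) ℝ) := by
      ext i j; simp
    rw [e2, cplx_J]
  refine ⟨h2, ?_⟩
  intro hr0
  rw [hr0, zero_smul] at h2
  have h3 : ((m⁻¹ : GL I4 ℝ) : Matrix I4 I4 ℝ) *
      ((m : Matrix I4 I4 ℝ) * Matrix.J (Fin 2) ℝ * (m : Matrix I4 I4 ℝ)ᵀ) =
      ((m⁻¹ : GL I4 ℝ) : Matrix I4 I4 ℝ) * 0 := by rw [h2]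
  rw [← Matrix.mul_assoc, ← Matrix.mul_assoc, ← Units.val_mul, inv_mul_cancel, Units.val_one,
    Matrix.one_mul, Matrix.mul_zero] at h3
  have hJ : Matrix.J (Fin 2) ℝ ≠ 0 := by
    intro h
    have := congrFun (congrFun h (Sum.inr 0)) (Sum.inl 0)
    simp [Matrix.J] at this
  have h4 : Matrix.J (Fin 2) ℝ * (m : Matrix I4 I4 ℝ)ᵀ *
      ((m⁻¹ : GL I4 ℝ) : Matrix I4 I4 ℝ)ᵀ = 0 * ((m⁻¹ : GL I4 ℝ) : Matrix I4 I4 ℝ)ᵀ := by rw [h3]
  rw [Matrix.mul_assoc, ← Matrix.transpose_mul, ← Units.val_mul, inv_mul_cancel, Units.val_one,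
    Matrix.transpose_one, Matrix.mul_one, Matrix.zero_mul] at h4
  exact hJ h4

lemma realComponent_subset {H : Subgroup (GL I4 ℂ)} : realComponent H ⊆ realPoints H :=
  connectedComponentIn_subset _ _

lemma one_mem_realPoints {H : Subgroup (GL I4 ℂ)} : (1 : Matrix I4 I4 ℝ) ∈ realPoints H :=
  ⟨1, H.one_mem, by rw [cplx_one]; rfl⟩

lemma realComponent_pos {H : Subgroup (GL I4 ℂ)} (hH : H ≤ GSp4) {M : Matrix I4 I4 ℝ}
    (hM : M ∈ realComponent H) : IsGSpPos M := by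
  set φ : Matrix I4 I4 ℝ → ℝ := fun M =>
    (M * Matrix.J (Fin 2) ℝ * Mᵀ) (Sum.inr 0) (Sum.inl 0) with hφ
  have hcont : Continuous φ := by
    have h1 : Continuous (fun M : Matrix I4 I4 ℝ => M * Matrix.J (Fin 2) ℝ * Mᵀ) := by fun_prop
    exact (continuous_apply_apply (Sum.inr 0) (Sum.inl 0)).comp h1
  have hpre : IsPreconnected (φ '' realComponent H) :=
    isPreconnected_connectedComponentIn.image _ hcont.continuousOn
  have h1 : φ 1 = 1 := by simp [hφ, Matrix.J]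
  have h1m : (1 : Matrix I4 I4 ℝ) ∈ realComponent H := mem_connectedComponentIn one_mem_realPoints
  have hpos : 0 < φ M := by
    by_contra hneg
    push Not at hneg
    have h0 : (0 : ℝ) ∈ φ '' realComponent H := by
      have := hpre.Icc_subset (Set.mem_image_of_mem _ hM) (Set.mem_image_of_mem _ h1m)
      apply this
      rw [h1]
      exact ⟨hneg, zero_le_one⟩
    obtain ⟨M', hM', h0⟩ := h0
    exact (multiplier hH (realComponent_subset hM')).2 h0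
  exact ⟨φ M, hpos, (multiplier hH (realComponent_subset hM)).1⟩

end Pool.Agent.H20.HASC
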