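import Pool.Agent.H20.HASC.Reduce1

set_option autoImplicit false

open Matrix Topology

namespace Pool.Agent.H20.HASC

/-- the unipotent element `τ ↦ τ + (t, 0, 0)` -/
noncomputable def unip (t : ℝ) : Matrix I4 I4 ℝ :=
  1 + t • Matrix.single (Sum.inl 0) (Sum.inr 0) 1

/-- The statement about the fibres. -/
def FiberControl : Prop :=
  ∀ H : Subgroup (GL I4 ℂ), H ≤ GSp4 → IsQSubgroup H → FactorsThrough oPt H →
    (∃ t : ℝ, unip t ∉ realPoints H) → ∀ M ∈ realPoints H, IsGSpPos M →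
      (act M oPt).1 = 2 * Complex.I ∧ (act M oPt).2.1 = 0

lemma unip_eq (t : ℝ) : unip t = Matrix.fromBlocks 1 !![t, 0; 0, 0] 0 1 := by
  rw [unip, ← Matrix.fromBlocks_one]
  ext i j
  rcases i with i | i <;> rcases j with j | j <;> fin_cases i <;> fin_cases j <;>
    simp [Matrix.single_apply]

lemma unip_mul (s t : ℝ) : unip s * unip t = unip (s + t) := by
  rw [unip_eq, unip_eq, unip_eq, Matrix.fromBlocks_multiply]
  congr 1
  · simp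
  · ext i j; fin_cases i <;> fin_cases j <;> simp; ring
  · simp
  · simp

lemma unip_zero : unip 0 = 1 := by simp [unip]

lemma unip_pos (t : ℝ) : IsGSpPos (unip t) := by
  refine ⟨1, one_pos, ?_⟩
  rw [unip_eq, Matrix.J, Matrix.fromBlocks_transpose, Matrix.fromBlocks_multiply,
    Matrix.fromBlocks_multiply, one_smul, Matrix.fromBlocks_inj, t22]
  refine ⟨?_, ?_, ?_, ?_⟩ <;> ext i j <;> fin_cases i <;> fin_cases j <;> simp

/-- as an element of the group -/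
noncomputable def unipU (t : ℝ) : GL I4 ℝ :=
  ⟨unip t, unip (-t), by rw [unip_mul, add_neg_cancel, unip_zero],
    by rw [unip_mul, neg_add_cancel, unip_zero]⟩

lemma unipU_coe (t : ℝ) : (unipU t : Matrix I4 I4 ℝ) = unip t := rfl

lemma continuous_unip : Continuous unip := by
  unfold unip
  fun_prop

lemma act_unip (t : ℝ) (τ : Sym2) : act (unip t) τ = (τ.1 + t, τ.2.1, τ.2.2) := by
  have h1 : denom (unip t) τ = 1 := by
    rw [HASC.denom, unip_eq]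
    ext i j
    fin_cases i <;> fin_cases j <;>
      simp [toMat, Matrix.toBlocks₂₁, Matrix.toBlocks₂₂, Matrix.mul_apply, Fin.sum_univ_two]
  have h2 : numer (unip t) τ = toMat (τ.1 + t, τ.2.1, τ.2.2) := by
    rw [HASC.numer, unip_eq]
    ext i j
    fin_cases i <;> fin_cases j <;>
      simp [toMat, Matrix.toBlocks₁₁, Matrix.toBlocks₁₂, Matrix.mul_apply, Fin.sum_univ_two]
  rw [act, h1, h2]
  simp

lemma gspPos_unit {g : Matrix I4 I4 ℝ} (hg : IsGSpPos g) : IsUnit g.det := by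
  obtain ⟨ν, hν, h⟩ := hg
  have h1 := gsp_transpose hν.ne' h
  refine Matrix.isUnit_det_of_left_inverse (B := (-ν⁻¹) • (Matrix.J (Fin 2) ℝ * gᵀ *
    Matrix.J (Fin 2) ℝ)) ?_
  rw [Matrix.smul_mul]
  calc (-ν⁻¹) • (Matrix.J (Fin 2) ℝ * gᵀ * Matrix.J (Fin 2) ℝ * g)
      = (-ν⁻¹) • (Matrix.J (Fin 2) ℝ * (gᵀ * Matrix.J (Fin 2) ℝ * g)) := by
        simp only [Matrix.mul_assoc]
    _ = 1 := by
        rw [h1, Matrix.mul_smul, J_mul_J, smul_smul, neg_mul, inv_mul_cancel₀ hν.ne']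
        simp

lemma gspPos_inv {m : GL I4 ℝ} (h : IsGSpPos (m : Matrix I4 I4 ℝ)) :
    IsGSpPos ((m⁻¹ : GL I4 ℝ) : Matrix I4 I4 ℝ) := by
  obtain ⟨ν, hν, h⟩ := h
  refine ⟨ν⁻¹, inv_pos.mpr hν, ?_⟩
  have e1 : ((m⁻¹ : GL I4 ℝ) : Matrix I4 I4 ℝ) * (m : Matrix I4 I4 ℝ) = 1 := by
    rw [← Units.val_mul, inv_mul_cancel]; rfl
  have e2 : (m : Matrix I4 I4 ℝ)ᵀ * ((m⁻¹ : GL I4 ℝ) : Matrix I4 I4 ℝ)ᵀ = 1 := by
    rw [← Matrix.transpose_mul, e1, Matrix.transpose_one]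
  have e3 : ν • (((m⁻¹ : GL I4 ℝ) : Matrix I4 I4 ℝ) * Matrix.J (Fin 2) ℝ *
      ((m⁻¹ : GL I4 ℝ) : Matrix I4 I4 ℝ)ᵀ) = Matrix.J (Fin 2) ℝ := by
    calc ν • (((m⁻¹ : GL I4 ℝ) : Matrix I4 I4 ℝ) * Matrix.J (Fin 2) ℝ *
          ((m⁻¹ : GL I4 ℝ) : Matrix I4 I4 ℝ)ᵀ)
        = ((m⁻¹ : GL I4 ℝ) : Matrix I4 I4 ℝ) * (ν • Matrix.J (Fin 2) ℝ) *
          ((m⁻¹ : GL I4 ℝ) : Matrix I4 I4 ℝ)ᵀ := by
          rw [Matrix.mul_smul, Matrix.smul_mul]
      _ = (((m⁻¹ : GL I4 ℝ) : Matrix I4 I4 ℝ) * (m : Matrix I4 I4 ℝ)) * Matrix.J (Fin 2) ℝ *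
          ((m : Matrix I4 I4 ℝ)ᵀ * ((m⁻¹ : GL I4 ℝ) : Matrix I4 I4 ℝ)ᵀ) := by
          rw [← h]; simp only [Matrix.mul_assoc]
      _ = _ := by rw [e1, e2, Matrix.one_mul, Matrix.mul_one]
  rw [← e3, smul_smul, inv_mul_cancel₀ hν.ne', one_smul, e3]

lemma toC_mem_GSp4 {m : GL I4 ℝ} (h : IsGSpPos (m : Matrix I4 I4 ℝ)) : toC m ∈ GSp4 := by
  obtain ⟨ν, hν, h⟩ := h
  refine ⟨ν, ?_⟩
  have := congrArg cplxMat h
  rw [cplx_mul, cplx_mul, cplx_J] at this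
  have e2 : cplxMat (ν • Matrix.J (Fin 2) ℝ) = (ν : ℂ) • cplxMat (Matrix.J (Fin 2) ℝ) := by
    ext i j; simp
  rw [e2, cplx_J] at this
  exact this

/-- the tangent space contains `(1, 0, 0)` if `Z` contains the curve `o + (t, 0, 0)` -/
lemma tangent_of_curve {Z : Set Sym2}
    (h : ∀ t : ℝ, ((oPt.1 + t, oPt.2.1, oPt.2.2) : Sym2) ∈ Z) :
    ((1, 0, 0) : Sym2) ∈ tangentSpaceAt Z oPt := by
  intro f hf hZ
  have h1 : HasDerivAt (fun t : ℝ => ((oPt.1 + t, oPt.2.1, oPt.2.2) : Sym2)) (1, 0, 0) 0 := by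
    refine HasDerivAt.prodMk ?_ (HasDerivAt.prodMk (hasDerivAt_const _ _) (hasDerivAt_const _ _))
    exact (Complex.ofRealCLM.hasDerivAt).const_add oPt.1
  have h0 : ((oPt.1 + ((0 : ℝ) : ℂ), oPt.2.1, oPt.2.2) : Sym2) = oPt := by
    simp
  have h2 : HasFDerivAt f ((fderiv ℂ f oPt).restrictScalars ℝ)
      ((fun t : ℝ => ((oPt.1 + t, oPt.2.1, oPt.2.2) : Sym2)) 0) := by
    simp only
    rw [h0]
    exact (hf.differentiableAt.hasFDerivAt).restrictScalars ℝ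
  have h3 := h2.comp_hasDerivAt (0 : ℝ) h1
  have h4 : (f ∘ (fun t : ℝ => ((oPt.1 + t, oPt.2.1, oPt.2.2) : Sym2))) =ᶠ[𝓝 0]
      fun _ => (0 : ℂ) := by
    have hc : Filter.Tendsto (fun t : ℝ => ((oPt.1 + t, oPt.2.1, oPt.2.2) : Sym2)) (𝓝 0)
        (𝓝 oPt) := by
      have := h1.continuousAt.tendsto
      rwa [h0] at this
    filter_upwards [hc.eventually hZ] with t ht
    exact ht (h t)
  have h5 := h3.congr_of_eventuallyEq h4.symm
  have h6 := h5.unique (hasDerivAt_const (0 : ℝ) (0 : ℂ))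
  exact h6

end Pool.Agent.H20.HASC
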