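import Pool.Agent.H20.HASC.Reduce3
import Pool.Agent.H17.HASC.D3

set_option autoImplicit false

open Matrix Topology

namespace Pool.Agent.H20.HASC

theorem fiberControl : FiberControl := by
  intro H hH hQ hF ht M hM hMp
  exact Pool.Agent.H17.HASC.D3 H hH hQ hF ht M hM hMp

/-- The general version: `Z` is any union of `Γ(N)`-translates. -/
theorem no_shimura_gen (hFC : FiberControl) {N : ℕ} {Z : Set Sym2} {Δ : Set (Matrix I4 I4 ℤ)}
    (hΔ : Δ ⊆ GammaN N) {H : Subgroup (GL I4 ℂ)} (hH : H ≤ GSp4) (hQ : IsQSubgroup H)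
    {x₀ : Sym2} (hx₀ : x₀ ∈ SiegelX) (hF : FactorsThrough x₀ H) {q : Matrix I4 I4 ℚ}
    (hq : IsGSpPos (ratMat q))
    (hZe : Z = {τ | ∃ γ ∈ Δ, ∃ h ∈ realComponent H,
      τ = act (intMat γ) (act (ratMat q) (act h x₀))})
    (ho : oPt ∈ Z) (hz : harishChandra oPt zPt ∈ tangentSpaceAt Z oPt)
    (hV : tangentSpaceAt Z oPt ⊆ (V11 : Set Sym2)) : False := by
  have ho' := ho
  rw [hZe] at ho'
  obtain ⟨γ₀, hγ₀, h₀, hh₀, ho'⟩ := ho'
  -- the element `m₀`
  obtain ⟨m₀, hm₀, hm₀e⟩ := mem_realPoints.mp (realComponent_subset hh₀)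
  have hm₀pos : IsGSpPos (m₀ : Matrix I4 I4 ℝ) := by rw [hm₀e]; exact realComponent_pos hH hh₀
  have hγ₀' : γ₀ ∈ GammaN N := hΔ hγ₀
  have hγ₀pos : IsGSpPos (intMat γ₀) := isGSpPos_of_mem hγ₀'.1
  -- the rational element `c`
  set C : Matrix I4 I4 ℚ := γ₀.map (fun a => (a : ℚ)) * q with hC
  have hCR : ratMat C = intMat γ₀ * ratMat q := by rw [hC, ratMat_mul, ratMat_int]
  have hCpos : IsGSpPos (ratMat C) := by rw [hCR]; exact hγ₀pos.mul hq
  set c : GL I4 ℚ := Matrix.nonsingInvUnit C (ratMat_isUnit hCpos) with hc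
  have hcC : (c : Matrix I4 I4 ℚ) = C := rfl
  have hqR : (qR c : Matrix I4 I4 ℝ) = intMat γ₀ * ratMat q := by rw [qR_coe, hcC, hCR]
  have hcpos : IsGSpPos (qR c : Matrix I4 I4 ℝ) := by rw [qR_coe, hcC]; exact hCpos
  -- composition of actions
  have hcomp : ∀ h : Matrix I4 I4 ℝ, IsGSpPos h →
      act (intMat γ₀) (act (ratMat q) (act h x₀)) = act ((qR c : Matrix I4 I4 ℝ) * h) x₀ := by
    intro h hh
    rw [hqR, act_mul hh hx₀, act_mul hq (act_mem hh hx₀)]
  have hoc : oPt = act ((qR c * m₀ : GL I4 ℝ) : Matrix I4 I4 ℝ) x₀ := by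
    rw [Units.val_mul, ← hcomp _ hm₀pos, hm₀e]; exact ho'
  have hcm₀pos : IsGSpPos ((qR c * m₀ : GL I4 ℝ) : Matrix I4 I4 ℝ) := by
    rw [Units.val_mul]; exact hcpos.mul hm₀pos
  -- the conjugate group
  set H' := conjG c H with hH'
  have hH'le : H' ≤ GSp4 := conjG_le hH hcpos
  have hH'Q : IsQSubgroup H' := conjG_isQ hQ
  have hH'F : FactorsThrough oPt H' := by
    intro s hs
    obtain ⟨n, hn, hne⟩ := mem_realPoints.mp (hF s hs)
    have e1 : hodge oPt s = ((qR c * m₀ * n * (qR c * m₀)⁻¹ : GL I4 ℝ) : Matrix I4 I4 ℝ) := by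
      have hg : (((qR c * m₀)⁻¹ : GL I4 ℝ) : Matrix I4 I4 ℝ) *
          ((qR c * m₀ : GL I4 ℝ) : Matrix I4 I4 ℝ) = 1 := by
        rw [← Units.val_mul, inv_mul_cancel]; rfl
      rw [hoc, hodge_act hcm₀pos hg hx₀, ← hne]
      rfl
    rw [e1, coe_mem_realPoints, hH', toC_mem_conjG]
    have e2 : (qR c)⁻¹ * (qR c * m₀ * n * (qR c * m₀)⁻¹) * qR c = m₀ * n * m₀⁻¹ := by group
    rw [e2, map_mul, map_mul, map_inv]
    exact mul_mem (mul_mem hm₀ hn) (inv_mem hm₀)
  by_cases hun : ∀ t : ℝ, unip t ∈ realPoints H'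
  · -- the tangent space is too large
    have hcurve : ∀ t : ℝ, ((oPt.1 + t, oPt.2.1, oPt.2.2) : Sym2) ∈ Z := by
      intro t
      set Pth : ℝ → Matrix I4 I4 ℝ := fun t =>
        (((qR c)⁻¹ : GL I4 ℝ) : Matrix I4 I4 ℝ) * unip t * (qR c : Matrix I4 I4 ℝ) *
          (m₀ : Matrix I4 I4 ℝ) with hPth
      have hPcont : Continuous Pth := by
        have := continuous_unip
        fun_prop
      have hPeq : ∀ t, Pth t = (((qR c)⁻¹ * unipU t * qR c * m₀ : GL I4 ℝ) : Matrix I4 I4 ℝ) := by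
        intro t; rfl
      have hPmem : ∀ t, Pth t ∈ realPoints H := by
        intro t
        rw [hPeq, coe_mem_realPoints, map_mul]
        refine mul_mem ?_ hm₀
        rw [← toC_mem_conjG, ← coe_mem_realPoints]
        exact hun t
      have hP0 : Pth 0 = h₀ := by
        rw [hPeq, ← hm₀e]
        have : unipU 0 = 1 := by
          apply Units.ext
          rw [unipU_coe, unip_zero]; rfl
        rw [this, mul_one, inv_mul_cancel, one_mul]
      have hPcomp : Pth t ∈ realComponent H := by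
        have h1 : Set.range Pth ⊆ connectedComponentIn (realPoints H) h₀ := by
          apply IsPreconnected.subset_connectedComponentIn
          · exact isPreconnected_range hPcont
          · exact ⟨0, hP0⟩
          · rintro _ ⟨s, rfl⟩
            exact hPmem s
        have h2 : realComponent H = connectedComponentIn (realPoints H) h₀ :=
          connectedComponentIn_eq hh₀
        rw [h2]
        exact h1 ⟨t, rfl⟩
      rw [hZe]
      refine ⟨γ₀, hγ₀, Pth t, hPcomp, ?_⟩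
      rw [hcomp _ (realComponent_pos hH hPcomp), hPeq, ← Units.val_mul]
      have e3 : qR c * ((qR c)⁻¹ * unipU t * qR c * m₀) = unipU t * (qR c * m₀) := by group
      rw [e3, Units.val_mul, act_mul hcm₀pos hx₀, ← hoc, unipU_coe, act_unip]
    have h1 := hV (tangent_of_curve hcurve)
    have h2 : (1 : ℂ) = 0 := h1
    exact one_ne_zero h2
  · -- the germ of `Z` at `o` is too small
    push Not at hun
    have hfib := hFC H' hH'le hH'Q hH'F hun
    have hloc : ∀ᶠ τ in 𝓝 oPt, τ ∈ Z → τ.2.1 = 0 := by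
      filter_upwards [local_step] with τ hτ hτZ
      rw [hZe] at hτZ
      obtain ⟨γ, hγ, h, hh, hτe⟩ := hτZ
      obtain ⟨m, hm, hme⟩ := mem_realPoints.mp (realComponent_subset hh)
      have hmpos : IsGSpPos (m : Matrix I4 I4 ℝ) := by rw [hme]; exact realComponent_pos hH hh
      -- the point `x = c h x₀`
      set g : GL I4 ℝ := qR c * (m * m₀⁻¹) * (qR c)⁻¹ with hg
      have hgpos : IsGSpPos (g : Matrix I4 I4 ℝ) := by
        rw [hg, Units.val_mul, Units.val_mul, Units.val_mul]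
        exact (hcpos.mul (hmpos.mul (gspPos_inv hm₀pos))).mul (gspPos_inv hcpos)
      have hgmem : (g : Matrix I4 I4 ℝ) ∈ realPoints H' := by
        rw [coe_mem_realPoints, hH', toC_mem_conjG]
        have e2 : (qR c)⁻¹ * g * qR c = m * m₀⁻¹ := by rw [hg]; group
        rw [e2, map_mul, map_inv]
        exact mul_mem hm (inv_mem hm₀)
      obtain ⟨hx1, hx2⟩ := hfib _ hgmem hgpos
      have hx : act (g : Matrix I4 I4 ℝ) oPt = act ((qR c : Matrix I4 I4 ℝ) * h) x₀ := by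
        rw [hoc, ← act_mul hcm₀pos hx₀, ← Units.val_mul]
        have e3 : g * (qR c * m₀) = qR c * m := by rw [hg]; group
        rw [e3, Units.val_mul, hme]
      have hxm : act (g : Matrix I4 I4 ℝ) oPt ∈ SiegelX := act_mem hgpos oPt_mem
      -- `τ = γ γ₀⁻¹ x`
      have hγinv : ∃ δ ∈ Matrix.symplecticGroup (Fin 2) ℤ, δ * γ₀ = 1 := by
        have h1 : γ₀ ∈ Matrix.symplecticGroup (Fin 2) ℤ := hγ₀'.1
        refine ⟨((⟨γ₀, h1⟩ : Matrix.symplecticGroup (Fin 2) ℤ)⁻¹ :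
          Matrix.symplecticGroup (Fin 2) ℤ), Subtype.property _, ?_⟩
        have := inv_mul_cancel (⟨γ₀, h1⟩ : Matrix.symplecticGroup (Fin 2) ℤ)
        exact congrArg Subtype.val this
      obtain ⟨δ, hδ, hδγ⟩ := hγinv
      have hδpos := isGSpPos_of_mem hδ
      have hγ' : γ ∈ GammaN N := hΔ hγ
      have hγpos := isGSpPos_of_mem hγ'.1
      have hhpos : IsGSpPos h := hme ▸ hmpos
      have e5 : act (intMat (γ * δ)) (act (g : Matrix I4 I4 ℝ) oPt) = τ := by
        have h6 : act (ratMat q) (act h x₀) ∈ SiegelX := act_mem hq (act_mem hhpos hx₀)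
        rw [hx, ← hcomp _ hhpos, ← act_mul hγ₀pos h6, ← intMat_mul, Matrix.mul_assoc, hδγ,
          Matrix.mul_one, hτe]
      exact hτ (γ * δ) (mul_mem hγ'.1 hδ) _ hxm hx1 hx2 e5
    have h1 := hz (fun τ => τ.2.1) (((ContinuousLinearMap.fst ℂ ℂ ℂ).comp
      (ContinuousLinearMap.snd ℂ ℂ (ℂ × ℂ))).analyticAt oPt) hloc
    have h2 : fderiv ℂ (fun τ : Sym2 => τ.2.1) oPt (harishChandra oPt zPt) =
        (harishChandra oPt zPt).2.1 := by
      have h3 : HasFDerivAt (fun τ : Sym2 => τ.2.1)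
          ((ContinuousLinearMap.fst ℂ ℂ ℂ).comp (ContinuousLinearMap.snd ℂ ℂ (ℂ × ℂ))) oPt :=
        ((ContinuousLinearMap.fst ℂ ℂ ℂ).comp
          (ContinuousLinearMap.snd ℂ ℂ (ℂ × ℂ))).hasFDerivAt
      rw [h3.fderiv]; rfl
    rw [h2] at h1
    exact hc_ne h1

end Pool.Agent.H20.HASC
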