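import Pool.Agent.H20.HASC.Defs

set_option autoImplicit false

open Matrix Complex Topology

namespace Pool.Agent.H20.HASC

lemma posDef_two (a b c : ℝ) :
    (!![a, b; b, c] : Matrix (Fin 2) (Fin 2) ℝ).PosDef ↔ 0 < a ∧ 0 < a * c - b ^ 2 := by
  rw [Matrix.posDef_iff_dotProduct_mulVec]
  constructor
  · rintro ⟨_, h⟩
    have h1 := h (x := ![1, 0]) (by intro h; simpa using congrFun h 0)
    simp [Matrix.mulVec, dotProduct, Fin.sum_univ_two] at h1
    refine ⟨h1, ?_⟩
    have h2 := h (x := ![-b, a]) (by intro h; have := congrFun h 1; simp at this; linarith)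
    simp [Matrix.mulVec, dotProduct, Fin.sum_univ_two] at h2
    have h3 : 0 < a * (a * c - b ^ 2) := by nlinarith
    exact (mul_pos_iff_of_pos_left h1).mp h3
  · rintro ⟨ha, hd⟩
    refine ⟨?_, ?_⟩
    · ext i j
      fin_cases i <;> fin_cases j <;> simp
    · intro x hx
      simp only [Matrix.mulVec, dotProduct, Fin.sum_univ_two, star_trivial, Matrix.of_apply,
        Matrix.cons_val', Matrix.cons_val_zero, Matrix.cons_val_one, Matrix.cons_val_fin_one]
      have h1 : a * (x 0 * (a * x 0 + b * x 1) + x 1 * (b * x 0 + c * x 1)) =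
          (a * x 0 + b * x 1) ^ 2 + (a * c - b ^ 2) * (x 1) ^ 2 := by ring
      have h2 : 0 < (a * x 0 + b * x 1) ^ 2 + (a * c - b ^ 2) * (x 1) ^ 2 := by
        by_cases h : x 1 = 0
        · have h0 : x 0 ≠ 0 := by
            intro h0
            apply hx
            funext i
            fin_cases i
            · exact h0
            · exact h
          rw [h]
          have : 0 < (a * x 0) ^ 2 := by positivity
          nlinarith
        · have : 0 < (a * c - b ^ 2) * (x 1) ^ 2 := by positivity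
          positivity
      rw [← h1] at h2
      exact (mul_pos_iff_of_pos_left ha).mp h2

lemma toMat_im (τ : Sym2) : (toMat τ).map Complex.im = !![τ.1.im, τ.2.1.im; τ.2.1.im, τ.2.2.im] := by
  ext i j
  fin_cases i <;> fin_cases j <;> rfl

lemma mem_SiegelX {τ : Sym2} :
    τ ∈ SiegelX ↔ 0 < τ.1.im ∧ 0 < τ.1.im * τ.2.2.im - τ.2.1.im ^ 2 := by
  rw [SiegelX, Set.mem_ofPred_eq, toMat_im, posDef_two]

lemma isOpen_SiegelX : IsOpen SiegelX := by
  have : SiegelX = {τ : Sym2 | 0 < τ.1.im} ∩ {τ : Sym2 | 0 < τ.1.im * τ.2.2.im - τ.2.1.im ^ 2} := by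
    ext τ; rw [mem_SiegelX]; rfl
  rw [this]
  refine IsOpen.inter ?_ ?_
  · exact isOpen_lt continuous_const (by fun_prop)
  · exact isOpen_lt continuous_const (by fun_prop)

@[simp] lemma ofMat_toMat (v : Sym2) : ofMat (toMat v) = v := rfl

lemma toMat_ofMat {M : Matrix (Fin 2) (Fin 2) ℂ} (h : Mᵀ = M) : toMat (ofMat M) = M := by
  have h1 : M 1 0 = M 0 1 := by
    have := congrFun (congrFun h 0) 1
    simpa using this
  ext i j
  fin_cases i <;> fin_cases j <;> simp [toMat, ofMat, h1]

lemma toMat_transpose (v : Sym2) : (toMat v)ᵀ = toMat v := by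
  ext i j
  fin_cases i <;> fin_cases j <;> rfl

end Pool.Agent.H20.HASC
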