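import Pool.Agent.H20.HASC.SBasic

set_option autoImplicit false

open Matrix Complex Topology

namespace Pool.Agent.H20.HASC

lemma herm_pos {Y : Matrix (Fin 2) (Fin 2) ℝ} (hY : Y.PosDef) {u : Fin 2 → ℂ} (hu : u ≠ 0) :
    0 < (star u ⬝ᵥ ((Y.map (fun a => (a : ℂ))) *ᵥ u)).re := by
  rw [Matrix.posDef_iff_dotProduct_mulVec] at hY
  obtain ⟨_, hY⟩ := hY
  have key : (star u ⬝ᵥ ((Y.map (fun a => (a : ℂ))) *ᵥ u)).re =
      (fun i => (u i).re) ⬝ᵥ (Y *ᵥ (fun i => (u i).re)) +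
      (fun i => (u i).im) ⬝ᵥ (Y *ᵥ (fun i => (u i).im)) := by
    simp [Matrix.mulVec, dotProduct, Fin.sum_univ_two]
    ring
  rw [key]
  have nn : ∀ x : Fin 2 → ℝ, 0 ≤ x ⬝ᵥ (Y *ᵥ x) := by
    intro x
    by_cases h : x = 0
    · simp [h]
    · have := hY h
      simpa using this.le
  by_cases h : (fun i => (u i).re) = 0
  · have h' : (fun i => (u i).im) ≠ 0 := by
      intro h'
      apply hu
      funext i
      apply Complex.ext
      · exact congrFun h i
      · exact congrFun h' i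
    have := hY h'
    simp only [star_trivial] at this
    linarith [nn (fun i => (u i).re)]
  · have := hY h
    simp only [star_trivial] at this
    linarith [nn (fun i => (u i).im)]

/-- The `4 × 2` matrix `(τ; 1)`. -/
noncomputable def col (τ : Sym2) : Matrix I4 (Fin 2) ℂ := Matrix.fromRows (toMat τ) 1

lemma cplx_mul_col (g : Matrix I4 I4 ℝ) (τ : Sym2) :
    cplxMat g * col τ = Matrix.fromRows (numer g τ) (denom g τ) := by
  conv_lhs => rw [← Matrix.fromBlocks_toBlocks (cplxMat g), col]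
  rw [Matrix.fromBlocks_mul_fromRows]
  simp [numer, denom]

lemma cplx_mul (g h : Matrix I4 I4 ℝ) : cplxMat (g * h) = cplxMat g * cplxMat h := by
  have := Matrix.map_mul (L := g) (M := h) (f := Complex.ofRealHom)
  exact this

lemma cplx_J : cplxMat (Matrix.J (Fin 2) ℝ) = Matrix.J (Fin 2) ℂ := by
  have := Matrix.map_J (l := Fin 2) (R := ℝ) Complex.ofRealHom
  exact this

lemma J_mul_J {R : Type*} [CommRing R] : Matrix.J (Fin 2) R * Matrix.J (Fin 2) R = -1 :=
  Matrix.J_squared (Fin 2) R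

lemma gsp_transpose {K : Type*} [Field K] {g : Matrix I4 I4 K} {ν : K} (hν : ν ≠ 0)
    (h : g * Matrix.J (Fin 2) K * gᵀ = ν • Matrix.J (Fin 2) K) :
    gᵀ * Matrix.J (Fin 2) K * g = ν • Matrix.J (Fin 2) K := by
  have h1 : g * (-(ν⁻¹) • (Matrix.J (Fin 2) K * gᵀ * Matrix.J (Fin 2) K)) = 1 := by
    rw [Matrix.mul_smul, ← Matrix.mul_assoc, ← Matrix.mul_assoc, h, Matrix.smul_mul, J_mul_J,
      smul_smul]
    rw [smul_neg, neg_mul, neg_smul, neg_neg, inv_mul_cancel₀ hν, one_smul]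
  have h2 := mul_eq_one_comm.mp h1
  rw [Matrix.smul_mul] at h2
  have h3 : Matrix.J (Fin 2) K * (gᵀ * Matrix.J (Fin 2) K * g) = -(ν • 1) := by
    have : -ν⁻¹ • (Matrix.J (Fin 2) K * (gᵀ * Matrix.J (Fin 2) K * g)) = 1 := by
      rw [← h2]; simp only [Matrix.mul_assoc]
    calc Matrix.J (Fin 2) K * (gᵀ * Matrix.J (Fin 2) K * g)
        = (-ν) • (-ν⁻¹ • (Matrix.J (Fin 2) K * (gᵀ * Matrix.J (Fin 2) K * g))) := by
          rw [smul_smul, neg_mul_neg, mul_inv_cancel₀ hν, one_smul]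
      _ = _ := by rw [this, neg_smul]
  have h4 : Matrix.J (Fin 2) K * (Matrix.J (Fin 2) K * (gᵀ * Matrix.J (Fin 2) K * g)) =
      -(ν • Matrix.J (Fin 2) K) := by
    rw [h3]; simp
  rw [← Matrix.mul_assoc, J_mul_J, Matrix.neg_mul, Matrix.one_mul] at h4
  exact neg_injective h4

lemma fromRows_T_J {P Q P' Q' : Matrix (Fin 2) (Fin 2) ℂ} :
    Matrix.fromCols P Q * Matrix.J (Fin 2) ℂ * Matrix.fromRows P' Q' = Q * P' - P * Q' := by
  rw [Matrix.J, Matrix.fromCols_mul_fromBlocks, Matrix.fromCols_mul_fromRows]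
  simp [sub_eq_add_neg]

/-- The two fundamental identities. -/
lemma fund1 {g : Matrix I4 I4 ℝ} (hg : IsGSpPos g) (τ : Sym2) :
    (denom g τ)ᵀ * numer g τ = (numer g τ)ᵀ * denom g τ := by
  obtain ⟨ν, hν, h⟩ := hg
  have h1 := gsp_transpose hν.ne' h
  have h2 : (cplxMat g)ᵀ * Matrix.J (Fin 2) ℂ * cplxMat g = (ν : ℂ) • Matrix.J (Fin 2) ℂ := by
    have := congrArg cplxMat h1
    rw [cplx_mul, cplx_mul, cplx_J] at this
    have e1 : cplxMat (gᵀ) = (cplxMat g)ᵀ := rfl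
    rw [e1] at this
    rw [this]
    have e2 : cplxMat (ν • Matrix.J (Fin 2) ℝ) = (ν : ℂ) • cplxMat (Matrix.J (Fin 2) ℝ) := by
      ext i j; simp
    rw [e2, cplx_J]
  have h3 : (cplxMat g * col τ)ᵀ * Matrix.J (Fin 2) ℂ * (cplxMat g * col τ) = 0 := by
    rw [Matrix.transpose_mul]
    calc (col τ)ᵀ * (cplxMat g)ᵀ * Matrix.J (Fin 2) ℂ * (cplxMat g * col τ)
        = (col τ)ᵀ * ((cplxMat g)ᵀ * Matrix.J (Fin 2) ℂ * cplxMat g) * col τ := by
          simp only [Matrix.mul_assoc]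
      _ = 0 := by
          rw [h2, Matrix.mul_smul, Matrix.smul_mul, col, Matrix.transpose_fromRows,
            fromRows_T_J, toMat_transpose]
          simp
  rw [cplx_mul_col, Matrix.transpose_fromRows, fromRows_T_J] at h3
  exact sub_eq_zero.mp h3

lemma fund2 {g : Matrix I4 I4 ℝ} {ν : ℝ} (hν : 0 < ν)
    (h : g * Matrix.J (Fin 2) ℝ * gᵀ = ν • Matrix.J (Fin 2) ℝ) (τ : Sym2) :
    (denom g τ)ᴴ * numer g τ - (numer g τ)ᴴ * denom g τ =
      (2 * Complex.I * ν) • (((toMat τ).map Complex.im).map (fun a => (a : ℂ))) := by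
  have h1 := gsp_transpose hν.ne' h
  have h2 : (cplxMat g)ᴴ * Matrix.J (Fin 2) ℂ * cplxMat g = (ν : ℂ) • Matrix.J (Fin 2) ℂ := by
    have := congrArg cplxMat h1
    rw [cplx_mul, cplx_mul, cplx_J] at this
    have e1 : cplxMat (gᵀ) = (cplxMat g)ᴴ := by
      ext i j; simp [Matrix.conjTranspose]
    rw [e1] at this
    rw [this]
    have e2 : cplxMat (ν • Matrix.J (Fin 2) ℝ) = (ν : ℂ) • cplxMat (Matrix.J (Fin 2) ℝ) := by
      ext i j; simp
    rw [e2, cplx_J]
  have h3 : (cplxMat g * col τ)ᴴ * Matrix.J (Fin 2) ℂ * (cplxMat g * col τ) =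
      (2 * Complex.I * ν) • (((toMat τ).map Complex.im).map (fun a => (a : ℂ))) := by
    rw [Matrix.conjTranspose_mul]
    calc (col τ)ᴴ * (cplxMat g)ᴴ * Matrix.J (Fin 2) ℂ * (cplxMat g * col τ)
        = (col τ)ᴴ * ((cplxMat g)ᴴ * Matrix.J (Fin 2) ℂ * cplxMat g) * col τ := by
          simp only [Matrix.mul_assoc]
      _ = _ := by
          rw [h2, Matrix.mul_smul, Matrix.smul_mul, col,
            Matrix.conjTranspose_fromRows_eq_fromCols_conjTranspose, fromRows_T_J]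
          ext i j
          fin_cases i <;> fin_cases j <;>
            simp [toMat, Matrix.conjTranspose, mul_comm] <;>
            (apply Complex.ext <;> simp <;> ring)
  rw [cplx_mul_col, Matrix.conjTranspose_fromRows_eq_fromCols_conjTranspose, fromRows_T_J] at h3
  exact h3

end Pool.Agent.H20.HASC
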