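import Pool.Agent.H20.HASC.SBasic2

set_option autoImplicit false

open Matrix Complex Topology

namespace Pool.Agent.H20.HASC

lemma denom_det_ne {g : Matrix I4 I4 ℝ} (hg : IsGSpPos g) {τ : Sym2} (hτ : τ ∈ SiegelX) :
    (denom g τ).det ≠ 0 := by
  obtain ⟨ν, hν, h⟩ := hg
  intro h0
  obtain ⟨v, hv, hv0⟩ := Matrix.exists_mulVec_eq_zero_iff.mpr h0
  have h2 := fund2 hν h τ
  have h3 : star v ⬝ᵥ (((denom g τ)ᴴ * numer g τ - (numer g τ)ᴴ * denom g τ) *ᵥ v) = 0 := by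
    rw [Matrix.sub_mulVec, ← Matrix.mulVec_mulVec, ← Matrix.mulVec_mulVec, hv0]
    rw [Matrix.mulVec_zero, sub_zero, Matrix.dotProduct_mulVec]
    have : star v ᵥ* (denom g τ)ᴴ = star (denom g τ *ᵥ v) := by
      rw [Matrix.star_mulVec]
    rw [this, hv0]
    simp
  rw [h2, Matrix.smul_mulVec, dotProduct_smul] at h3
  have hpos := herm_pos hτ hv
  have h4 : (2 * Complex.I * ν : ℂ) ≠ 0 := by
    simp [hν.ne', Complex.I_ne_zero]
  rw [smul_eq_mul, mul_eq_zero] at h3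
  rcases h3 with h3 | h3
  · exact h4 h3
  · rw [h3] at hpos
    simp at hpos

lemma denom_isUnit {g : Matrix I4 I4 ℝ} (hg : IsGSpPos g) {τ : Sym2} (hτ : τ ∈ SiegelX) :
    IsUnit (denom g τ).det := isUnit_iff_ne_zero.mpr (denom_det_ne hg hτ)

lemma act_symm {g : Matrix I4 I4 ℝ} (hg : IsGSpPos g) {τ : Sym2} (hτ : τ ∈ SiegelX) :
    (numer g τ * (denom g τ)⁻¹)ᵀ = numer g τ * (denom g τ)⁻¹ := by
  have hu := denom_isUnit hg hτ
  have hu' : IsUnit ((denom g τ)ᵀ).det := by rwa [Matrix.det_transpose]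
  have h1 := fund1 hg τ
  rw [Matrix.transpose_mul, Matrix.transpose_nonsing_inv]
  calc ((denom g τ)ᵀ)⁻¹ * (numer g τ)ᵀ
      = ((denom g τ)ᵀ)⁻¹ * ((numer g τ)ᵀ * denom g τ) * (denom g τ)⁻¹ := by
        rw [Matrix.mul_assoc, Matrix.mul_assoc (numer g τ)ᵀ, Matrix.mul_nonsing_inv _ hu,
          Matrix.mul_one]
    _ = ((denom g τ)ᵀ)⁻¹ * ((denom g τ)ᵀ * numer g τ) * (denom g τ)⁻¹ := by rw [h1]
    _ = _ := by
        rw [← Matrix.mul_assoc ((denom g τ)ᵀ)⁻¹, Matrix.nonsing_inv_mul _ hu', Matrix.one_mul]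

lemma toMat_act {g : Matrix I4 I4 ℝ} (hg : IsGSpPos g) {τ : Sym2} (hτ : τ ∈ SiegelX) :
    toMat (act g τ) = numer g τ * (denom g τ)⁻¹ := toMat_ofMat (act_symm hg hτ)

lemma toMat_act_mul {g : Matrix I4 I4 ℝ} (hg : IsGSpPos g) {τ : Sym2} (hτ : τ ∈ SiegelX) :
    toMat (act g τ) * denom g τ = numer g τ := by
  rw [toMat_act hg hτ, Matrix.mul_assoc, Matrix.nonsing_inv_mul _ (denom_isUnit hg hτ),
    Matrix.mul_one]

lemma col_act {g : Matrix I4 I4 ℝ} (hg : IsGSpPos g) {τ : Sym2} (hτ : τ ∈ SiegelX) :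
    cplxMat g * col τ = col (act g τ) * denom g τ := by
  rw [cplx_mul_col, col, Matrix.fromRows_mul, toMat_act_mul hg hτ, Matrix.one_mul]

lemma act_mem {g : Matrix I4 I4 ℝ} (hg : IsGSpPos g) {τ : Sym2} (hτ : τ ∈ SiegelX) :
    act g τ ∈ SiegelX := by
  obtain ⟨ν, hν, h⟩ := id hg
  have hu := denom_isUnit hg hτ
  set P := numer g τ with hP
  set Q := denom g τ with hQ
  have h2 : Qᴴ * P - Pᴴ * Q = (2 * Complex.I * ν) •
      (((toMat τ).map Complex.im).map (fun a => (a : ℂ))) := fund2 hν h τ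
  have hW : toMat (act g τ) = P * Q⁻¹ := toMat_act hg hτ
  have hWT : (toMat (act g τ))ᵀ = toMat (act g τ) := toMat_transpose _
  set W := toMat (act g τ) with hWdef
  have hPW : P = W * Q := (toMat_act_mul hg hτ).symm
  have h3 : Qᴴ * (W - Wᴴ) * Q = (2 * Complex.I * ν) •
      (((toMat τ).map Complex.im).map (fun a => (a : ℂ))) := by
    rw [← h2, hPW, Matrix.conjTranspose_mul]
    simp only [Matrix.mul_sub, Matrix.sub_mul, Matrix.mul_assoc]
  have h4 : W - Wᴴ = (2 * Complex.I) • ((W.map Complex.im).map (fun a => (a : ℂ))) := by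
    have : Wᴴ = W.map (starRingEnd ℂ) := by
      rw [Matrix.conjTranspose, hWT]; rfl
    rw [this]
    ext i j
    simp only [Matrix.sub_apply, Matrix.map_apply, Matrix.smul_apply, smul_eq_mul]
    apply Complex.ext <;> simp; ring
  show (W.map Complex.im).PosDef
  rw [Matrix.posDef_iff_dotProduct_mulVec]
  refine ⟨?_, ?_⟩
  · rw [Matrix.IsHermitian, Matrix.conjTranspose]
    ext i j
    have := congrFun (congrFun hWT i) j
    simp only [Matrix.transpose_apply] at this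
    simp [Matrix.map_apply, this]
  · intro x hx
    set v : Fin 2 → ℂ := fun i => (x i : ℂ) with hv
    have hv0 : v ≠ 0 := by
      intro h0
      apply hx
      funext i
      have := congrFun h0 i
      simpa [hv] using this
    set u := Q⁻¹ *ᵥ v with hu'
    have hQu : Q *ᵥ u = v := by
      rw [hu', Matrix.mulVec_mulVec, Matrix.mul_nonsing_inv _ hu, Matrix.one_mulVec]
    have hu0 : u ≠ 0 := by
      intro h0
      rw [h0, Matrix.mulVec_zero] at hQu
      exact hv0 hQu.symm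
    have hpos := herm_pos hτ hu0
    have h5 : star u ⬝ᵥ ((Qᴴ * (W - Wᴴ) * Q) *ᵥ u) = star v ⬝ᵥ ((W - Wᴴ) *ᵥ v) := by
      rw [← Matrix.mulVec_mulVec, hQu, ← Matrix.mulVec_mulVec, Matrix.dotProduct_mulVec,
        ← Matrix.star_mulVec, hQu]
    rw [h3, h4, Matrix.smul_mulVec, Matrix.smul_mulVec, dotProduct_smul, dotProduct_smul,
      smul_eq_mul, smul_eq_mul] at h5
    have h6 : (ν : ℂ) * (star u ⬝ᵥ ((((toMat τ).map Complex.im).map (fun a => (a : ℂ))) *ᵥ u)) =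
        star v ⬝ᵥ (((W.map Complex.im).map (fun a => (a : ℂ))) *ᵥ v) := by
      have h2I : (2 * Complex.I : ℂ) ≠ 0 := by simp [Complex.I_ne_zero]
      apply mul_left_cancel₀ h2I
      rw [← mul_assoc]; exact h5
    have h7 : star v ⬝ᵥ (((W.map Complex.im).map (fun a => (a : ℂ))) *ᵥ v) =
        ((x ⬝ᵥ ((W.map Complex.im) *ᵥ x) : ℝ) : ℂ) := by
      simp [hv, dotProduct, Matrix.mulVec, Fin.sum_univ_two]
    rw [h7] at h6
    have h8 := congrArg Complex.re h6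
    rw [Complex.re_ofReal_mul, Complex.ofReal_re] at h8
    rw [star_trivial, ← h8]
    exact mul_pos hν hpos

lemma IsGSpPos.mul {g h : Matrix I4 I4 ℝ} (hg : IsGSpPos g) (hh : IsGSpPos h) :
    IsGSpPos (g * h) := by
  obtain ⟨ν, hν, h1⟩ := hg
  obtain ⟨μ, hμ, h2⟩ := hh
  refine ⟨μ * ν, mul_pos hμ hν, ?_⟩
  calc g * h * Matrix.J (Fin 2) ℝ * (g * h)ᵀ = g * (h * Matrix.J (Fin 2) ℝ * hᵀ) * gᵀ := by
        rw [Matrix.transpose_mul]; simp only [Matrix.mul_assoc]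
    _ = _ := by rw [h2, Matrix.mul_smul, Matrix.smul_mul, h1, smul_smul]

lemma isGSpPos_one : IsGSpPos 1 := ⟨1, one_pos, by simp⟩

lemma cocycle_aux {g h : Matrix I4 I4 ℝ} (hh : IsGSpPos h) {τ : Sym2} (hτ : τ ∈ SiegelX) :
    numer (g * h) τ = numer g (act h τ) * denom h τ ∧
    denom (g * h) τ = denom g (act h τ) * denom h τ := by
  have h1 := cplx_mul_col (g * h) τ
  rw [cplx_mul, Matrix.mul_assoc, col_act hh hτ, ← Matrix.mul_assoc, cplx_mul_col,
    Matrix.fromRows_mul] at h1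
  rw [Matrix.fromRows_inj.eq_iff] at h1
  exact ⟨h1.1.symm, h1.2.symm⟩

lemma denom_mul {g h : Matrix I4 I4 ℝ} (hh : IsGSpPos h) {τ : Sym2} (hτ : τ ∈ SiegelX) :
    denom (g * h) τ = denom g (act h τ) * denom h τ := (cocycle_aux hh hτ).2

lemma act_mul {g h : Matrix I4 I4 ℝ} (hh : IsGSpPos h) {τ : Sym2} (hτ : τ ∈ SiegelX) :
    act (g * h) τ = act g (act h τ) := by
  rw [act, act, (cocycle_aux hh hτ).1, (cocycle_aux hh hτ).2, Matrix.mul_inv_rev]
  congr 1
  rw [Matrix.mul_assoc, ← Matrix.mul_assoc (denom h τ),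
    Matrix.mul_nonsing_inv _ (denom_isUnit hh hτ), Matrix.one_mul]

lemma act_one (τ : Sym2) : act 1 τ = τ := by
  have h1 : numer 1 τ = toMat τ := by
    have : cplxMat (1 : Matrix I4 I4 ℝ) = 1 := by
      rw [cplxMat]; ext i j; simp [Matrix.one_apply]; split_ifs <;> simp
    rw [numer, this, ← Matrix.fromBlocks_one, Matrix.toBlocks_fromBlocks₁₁,
      Matrix.toBlocks_fromBlocks₁₂]
    simp
  have h2 : denom 1 τ = 1 := by
    have : cplxMat (1 : Matrix I4 I4 ℝ) = 1 := by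
      rw [cplxMat]; ext i j; simp [Matrix.one_apply]; split_ifs <;> simp
    rw [denom, this, ← Matrix.fromBlocks_one, Matrix.toBlocks_fromBlocks₂₁,
      Matrix.toBlocks_fromBlocks₂₂]
    simp
  rw [act, h1, h2]; simp

lemma col_inj {τ σ : Sym2} {Q : Matrix (Fin 2) (Fin 2) ℂ} (h : col τ = col σ * Q) : τ = σ := by
  rw [col, col, Matrix.fromRows_mul, Matrix.one_mul, Matrix.fromRows_inj.eq_iff] at h
  obtain ⟨h1, h2⟩ := h
  rw [← h2, Matrix.mul_one] at h1
  have := congrArg ofMat h1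
  simpa using this

end Pool.Agent.H20.HASC
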