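import Pool.Agent.H20.HASC.SBasic3
import Pool.Agent.H20.HASC.Bi2

set_option autoImplicit false

open Matrix Topology UpperHalfPlane ModularForm CongruenceSubgroup MatrixGroups

namespace Pool.Agent.H20.HASC

/-- embedding of `SL₂(ℤ)` in the second variable -/
def iota2 (δ : SL(2, ℤ)) : Matrix I4 I4 ℤ :=
  Matrix.fromBlocks !![1, 0; 0, δ.1 0 0] !![0, 0; 0, δ.1 0 1] !![0, 0; 0, δ.1 1 0]
    !![1, 0; 0, δ.1 1 1]

/-- embedding of `SL₂(ℤ)` in the first variable -/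
def iota1 (δ : SL(2, ℤ)) : Matrix I4 I4 ℤ :=
  Matrix.fromBlocks !![δ.1 0 0, 0; 0, 1] !![δ.1 0 1, 0; 0, 0] !![δ.1 1 0, 0; 0, 0]
    !![δ.1 1 1, 0; 0, 1]

lemma SL_det (δ : SL(2, ℤ)) : δ.1 0 0 * δ.1 1 1 - δ.1 0 1 * δ.1 1 0 = 1 := by
  have := δ.2
  rwa [Matrix.det_fin_two] at this

lemma t22 {R : Type*} (a b c d : R) : (!![a, b; c, d])ᵀ = !![a, c; b, d] := by
  ext i j
  fin_cases i <;> fin_cases j <;> rfl

lemma iota2_mem (δ : SL(2, ℤ)) : iota2 δ ∈ Matrix.symplecticGroup (Fin 2) ℤ := by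
  rw [SymplecticGroup.mem_iff]
  have h := SL_det δ
  rw [iota2, Matrix.J, Matrix.fromBlocks_transpose, Matrix.fromBlocks_multiply,
    Matrix.fromBlocks_multiply, Matrix.fromBlocks_inj]
  simp only [t22]
  refine ⟨?_, ?_, ?_, ?_⟩ <;> ext i j <;> fin_cases i <;> fin_cases j <;>
    simp [Matrix.mul_apply, Fin.sum_univ_two] <;> linarith

lemma iota1_mem (δ : SL(2, ℤ)) : iota1 δ ∈ Matrix.symplecticGroup (Fin 2) ℤ := by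
  rw [SymplecticGroup.mem_iff]
  have h := SL_det δ
  rw [iota1, Matrix.J, Matrix.fromBlocks_transpose, Matrix.fromBlocks_multiply,
    Matrix.fromBlocks_multiply, Matrix.fromBlocks_inj]
  simp only [t22]
  refine ⟨?_, ?_, ?_, ?_⟩ <;> ext i j <;> fin_cases i <;> fin_cases j <;>
    simp [Matrix.mul_apply, Fin.sum_univ_two] <;> linarith

lemma Gamma_dvd {N : ℕ} {δ : SL(2, ℤ)} (h : δ ∈ Gamma N) :
    (N : ℤ) ∣ δ.1 0 0 - 1 ∧ (N : ℤ) ∣ δ.1 0 1 ∧ (N : ℤ) ∣ δ.1 1 0 ∧ (N : ℤ) ∣ δ.1 1 1 - 1 := by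
  rw [Gamma_mem] at h
  obtain ⟨h1, h2, h3, h4⟩ := h
  refine ⟨?_, ?_, ?_, ?_⟩
  · rw [← ZMod.intCast_zmod_eq_zero_iff_dvd]; push_cast; rw [h1]; ring
  · rw [← ZMod.intCast_zmod_eq_zero_iff_dvd]; exact h2
  · rw [← ZMod.intCast_zmod_eq_zero_iff_dvd]; exact h3
  · rw [← ZMod.intCast_zmod_eq_zero_iff_dvd]; push_cast; rw [h4]; ring

lemma iota2_GammaN {N : ℕ} {δ : SL(2, ℤ)} (h : δ ∈ Gamma N) : iota2 δ ∈ GammaN N := by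
  refine ⟨iota2_mem δ, ?_⟩
  obtain ⟨h1, h2, h3, h4⟩ := Gamma_dvd h
  intro i j
  rw [iota2, ← Matrix.fromBlocks_one, sub_eq_add_neg, Matrix.fromBlocks_neg, Matrix.fromBlocks_add]
  rcases i with i | i <;> rcases j with j | j <;> fin_cases i <;> fin_cases j <;>
    simp [← sub_eq_add_neg, h1, h2, h3, h4]

lemma iota1_GammaN {N : ℕ} {δ : SL(2, ℤ)} (h : δ ∈ Gamma N) : iota1 δ ∈ GammaN N := by
  refine ⟨iota1_mem δ, ?_⟩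
  obtain ⟨h1, h2, h3, h4⟩ := Gamma_dvd h
  intro i j
  rw [iota1, ← Matrix.fromBlocks_one, sub_eq_add_neg, Matrix.fromBlocks_neg, Matrix.fromBlocks_add]
  rcases i with i | i <;> rcases j with j | j <;> fin_cases i <;> fin_cases j <;>
    simp [← sub_eq_add_neg, h1, h2, h3, h4]

lemma denom_iota2 (δ : SL(2, ℤ)) (τ : Sym2) :
    HASC.denom (intMat (iota2 δ)) τ =
      !![1, 0; (δ.1 1 0 : ℂ) * τ.2.1, (δ.1 1 0 : ℂ) * τ.2.2 + δ.1 1 1] := by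
  rw [HASC.denom]
  ext i j
  fin_cases i <;> fin_cases j <;>
    simp [iota2, toMat, Matrix.toBlocks₂₁, Matrix.toBlocks₂₂, Matrix.mul_apply, Fin.sum_univ_two]

lemma numer_iota2 (δ : SL(2, ℤ)) (τ : Sym2) :
    HASC.numer (intMat (iota2 δ)) τ =
      !![τ.1, τ.2.1; (δ.1 0 0 : ℂ) * τ.2.1, (δ.1 0 0 : ℂ) * τ.2.2 + δ.1 0 1] := by
  rw [HASC.numer]
  ext i j
  fin_cases i <;> fin_cases j <;>
    simp [iota2, toMat, Matrix.toBlocks₁₁, Matrix.toBlocks₁₂, Matrix.mul_apply, Fin.sum_univ_two]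

lemma denom_iota1 (δ : SL(2, ℤ)) (τ : Sym2) :
    HASC.denom (intMat (iota1 δ)) τ =
      !![(δ.1 1 0 : ℂ) * τ.1 + δ.1 1 1, (δ.1 1 0 : ℂ) * τ.2.1; 0, 1] := by
  rw [HASC.denom]
  ext i j
  fin_cases i <;> fin_cases j <;>
    simp [iota1, toMat, Matrix.toBlocks₂₁, Matrix.toBlocks₂₂, Matrix.mul_apply, Fin.sum_univ_two]

lemma numer_iota1 (δ : SL(2, ℤ)) (τ : Sym2) :
    HASC.numer (intMat (iota1 δ)) τ =
      !![(δ.1 0 0 : ℂ) * τ.1 + δ.1 0 1, (δ.1 0 0 : ℂ) * τ.2.1; τ.2.1, τ.2.2] := by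
  rw [HASC.numer]
  ext i j
  fin_cases i <;> fin_cases j <;>
    simp [iota1, toMat, Matrix.toBlocks₁₁, Matrix.toBlocks₁₂, Matrix.mul_apply, Fin.sum_univ_two]

lemma act_iota2 (δ : SL(2, ℤ)) (τ : Sym2) (h : (δ.1 1 0 : ℂ) * τ.2.2 + δ.1 1 1 ≠ 0) :
    act (intMat (iota2 δ)) τ =
      (τ.1 - (δ.1 1 0 : ℂ) * τ.2.1 ^ 2 / ((δ.1 1 0 : ℂ) * τ.2.2 + δ.1 1 1),
        τ.2.1 / ((δ.1 1 0 : ℂ) * τ.2.2 + δ.1 1 1),
        ((δ.1 0 0 : ℂ) * τ.2.2 + δ.1 0 1) / ((δ.1 1 0 : ℂ) * τ.2.2 + δ.1 1 1)) := by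
  have hinv : (!![1, 0; (δ.1 1 0 : ℂ) * τ.2.1, (δ.1 1 0 : ℂ) * τ.2.2 + δ.1 1 1])⁻¹ =
      !![1, 0; -((δ.1 1 0 : ℂ) * τ.2.1) / ((δ.1 1 0 : ℂ) * τ.2.2 + δ.1 1 1),
        1 / ((δ.1 1 0 : ℂ) * τ.2.2 + δ.1 1 1)] := by
    apply Matrix.inv_eq_right_inv
    ext i j
    fin_cases i <;> fin_cases j <;> simp [Matrix.mul_apply, Fin.sum_univ_two] <;> field_simp <;>
      ring
  rw [act, denom_iota2, numer_iota2, hinv]
  simp only [ofMat, Matrix.mul_apply, Fin.sum_univ_two, Matrix.of_apply, Matrix.cons_val',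
    Matrix.cons_val_zero, Matrix.cons_val_one, Matrix.cons_val_fin_one]
  refine Prod.ext ?_ (Prod.ext ?_ ?_) <;> simp <;> ring

lemma act_iota1 (δ : SL(2, ℤ)) (τ : Sym2) (h : (δ.1 1 0 : ℂ) * τ.1 + δ.1 1 1 ≠ 0) :
    act (intMat (iota1 δ)) τ =
      (((δ.1 0 0 : ℂ) * τ.1 + δ.1 0 1) / ((δ.1 1 0 : ℂ) * τ.1 + δ.1 1 1),
        τ.2.1 / ((δ.1 1 0 : ℂ) * τ.1 + δ.1 1 1),
        τ.2.2 - (δ.1 1 0 : ℂ) * τ.2.1 ^ 2 / ((δ.1 1 0 : ℂ) * τ.1 + δ.1 1 1)) := by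
  have hinv : (!![(δ.1 1 0 : ℂ) * τ.1 + δ.1 1 1, (δ.1 1 0 : ℂ) * τ.2.1; 0, 1])⁻¹ =
      !![1 / ((δ.1 1 0 : ℂ) * τ.1 + δ.1 1 1),
        -((δ.1 1 0 : ℂ) * τ.2.1) / ((δ.1 1 0 : ℂ) * τ.1 + δ.1 1 1); 0, 1] := by
    apply Matrix.inv_eq_right_inv
    ext i j
    fin_cases i <;> fin_cases j <;> simp [Matrix.mul_apply, Fin.sum_univ_two] <;> field_simp <;>
      ring
  have hdet : (δ.1 0 0 : ℂ) * δ.1 1 1 - δ.1 0 1 * δ.1 1 0 = 1 := by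
    have := SL_det δ
    exact_mod_cast this
  rw [act, denom_iota1, numer_iota1, hinv]
  simp only [ofMat, Matrix.mul_apply, Fin.sum_univ_two, Matrix.of_apply, Matrix.cons_val',
    Matrix.cons_val_zero, Matrix.cons_val_one, Matrix.cons_val_fin_one]
  refine Prod.ext ?_ (Prod.ext ?_ ?_)
  · simp; ring
  · simp only
    rw [eq_div_iff h]
    generalize (δ.1 0 0 : ℂ) = a, (δ.1 0 1 : ℂ) = b, (δ.1 1 0 : ℂ) = c, (δ.1 1 1 : ℂ) = d at *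
    have h1 : (a * τ.1 + b) * (-(c * τ.2.1) / (c * τ.1 + d)) * (c * τ.1 + d) =
        (a * τ.1 + b) * (-(c * τ.2.1)) := by
      rw [mul_assoc, div_mul_cancel₀ _ h]
    linear_combination h1 + τ.2.1 * hdet
  · simp; ring

lemma det_denom_iota2 (δ : SL(2, ℤ)) (τ : Sym2) :
    (HASC.denom (intMat (iota2 δ)) τ).det = (δ.1 1 0 : ℂ) * τ.2.2 + δ.1 1 1 := by
  rw [denom_iota2, Matrix.det_fin_two]; simp

lemma det_denom_iota1 (δ : SL(2, ℤ)) (τ : Sym2) :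
    (HASC.denom (intMat (iota1 δ)) τ).det = (δ.1 1 0 : ℂ) * τ.1 + δ.1 1 1 := by
  rw [denom_iota1, Matrix.det_fin_two]; simp

lemma isGSpPos_of_mem {γ : Matrix I4 I4 ℤ} (h : γ ∈ Matrix.symplecticGroup (Fin 2) ℤ) :
    IsGSpPos (intMat γ) := by
  refine ⟨1, one_pos, ?_⟩
  rw [SymplecticGroup.mem_iff] at h
  have h1 := congrArg (fun M : Matrix I4 I4 ℤ => M.map (Int.castRingHom ℝ)) h
  simp only [Matrix.map_mul, Matrix.map_J] at h1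
  rw [one_smul]
  exact h1

end Pool.Agent.H20.HASC
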