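import Pool.Agent.H20.HASC.SEmb

set_option autoImplicit false

open Matrix Topology UpperHalfPlane ModularForm CongruenceSubgroup MatrixGroups
open scoped Real

namespace Pool.Agent.H20.HASC

lemma mem_pt (τ₁ τ₂ : ℍ) (w : ℂ) (hw : w.im ^ 2 < τ₁.im * τ₂.im) :
    (((τ₁ : ℂ), w, (τ₂ : ℂ)) : Sym2) ∈ SiegelX := by
  rw [mem_SiegelX]
  refine ⟨τ₁.im_pos, ?_⟩
  simpa using hw

lemma mem_pt_zero (τ₁ τ₂ : ℍ) : (((τ₁ : ℂ), (0 : ℂ), (τ₂ : ℂ)) : Sym2) ∈ SiegelX := by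
  apply mem_pt
  simpa using mul_pos τ₁.im_pos τ₂.im_pos

lemma fourierTerm_zero {N : ℕ} (n m : ℕ) (r : ℤ) (τ₁ τ₂ : ℍ) :
    fourierTerm N ((n : ℤ), r, (m : ℤ)) ((τ₁ : ℂ), (0 : ℂ), (τ₂ : ℂ)) =
      biTerm N (n, m) τ₁ τ₂ := by
  rw [fourierTerm, biTerm, Function.Periodic.qParam, Function.Periodic.qParam, ← Complex.exp_nat_mul,
    ← Complex.exp_nat_mul, ← Complex.exp_add]
  congr 1
  push_cast
  ring

/-- summing over the middle index -/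
noncomputable def collapse (b : ℤ × ℤ × ℤ → ℂ) (p : ℕ × ℕ) : ℂ :=
  ∑ r ∈ Finset.Icc (-((p.1 + p.2 : ℕ) : ℤ)) ((p.1 + p.2 : ℕ) : ℤ), b (p.1, r, p.2)

lemma hasSum_collapse {N : ℕ} {b : ℤ × ℤ × ℤ → ℂ}
    (hs : ∀ n r m, b (n, r, m) ≠ 0 → 0 ≤ n ∧ 0 ≤ m ∧ r ^ 2 ≤ 4 * n * m)
    {τ₁ τ₂ : ℍ} {S : ℂ}
    (h : HasSum (fun T => b T * fourierTerm N T ((τ₁ : ℂ), (0 : ℂ), (τ₂ : ℂ))) S) :
    HasSum (fun p : ℕ × ℕ => collapse b p * biTerm N p τ₁ τ₂) S := by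
  have hinj : Function.Injective
      (fun x : (ℕ × ℕ) × ℤ => (((x.1.1 : ℤ), x.2, (x.1.2 : ℤ)) : ℤ × ℤ × ℤ)) := by
    rintro ⟨⟨a, b⟩, c⟩ ⟨⟨a', b'⟩, c'⟩ h
    simp only [Prod.mk.injEq, Nat.cast_inj] at h
    obtain ⟨rfl, rfl, rfl⟩ := h
    rfl
  have h1 := (hinj.hasSum_iff (f := fun T => b T * fourierTerm N T ((τ₁ : ℂ), (0 : ℂ), (τ₂ : ℂ)))
    (a := S) ?_).mpr h
  · refine h1.prod_fiberwise fun p => ?_
    obtain ⟨n, m⟩ := p
    rw [collapse, Finset.sum_mul]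
    have h2 : ∀ r ∉ Finset.Icc (-((n + m : ℕ) : ℤ)) ((n + m : ℕ) : ℤ),
        b ((n : ℤ), r, (m : ℤ)) * fourierTerm N ((n : ℤ), r, (m : ℤ))
          ((τ₁ : ℂ), (0 : ℂ), (τ₂ : ℂ)) = 0 := by
      intro r hr
      by_contra hne
      have hb : b ((n : ℤ), r, (m : ℤ)) ≠ 0 := left_ne_zero_of_mul hne
      obtain ⟨_, _, h4⟩ := hs _ _ _ hb
      apply hr
      rw [Finset.mem_Icc]
      have h5 : r ^ 2 ≤ ((n + m : ℕ) : ℤ) ^ 2 := by
        push_cast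
        nlinarith [sq_nonneg ((n : ℤ) - m)]
      exact abs_le.mp (abs_le_of_sq_le_sq h5 (by positivity))
    have h3 := hasSum_sum_of_ne_finset_zero (L := .unconditional _) h2
    have h4 : ∀ r : ℤ, fourierTerm N ((n : ℤ), r, (m : ℤ)) ((τ₁ : ℂ), (0 : ℂ), (τ₂ : ℂ)) =
      biTerm N (n, m) τ₁ τ₂ := fun r => fourierTerm_zero n m r τ₁ τ₂
    simp only [h4] at h3
    refine HasSum.congr_fun' h3 fun r => ?_
    simp only [Function.comp]
    rw [h4]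
  · intro T hT
    obtain ⟨n, r, m⟩ := T
    by_contra hne
    have hb : b (n, r, m) ≠ 0 := left_ne_zero_of_mul hne
    obtain ⟨h1, h2, _⟩ := hs _ _ _ hb
    apply hT
    exact ⟨((n.toNat, m.toNat), r), by simp [Int.toNat_of_nonneg h1, Int.toNat_of_nonneg h2]⟩

lemma norm_fourierTerm (N : ℕ) (T : ℤ × ℤ × ℤ) (τ : Sym2) :
    ‖fourierTerm N T τ‖ =
      Real.exp (-(2 * π * (T.1 * τ.1.im + T.2.1 * τ.2.1.im + T.2.2 * τ.2.2.im)) / N) := by
  rw [fourierTerm, Complex.norm_exp]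
  congr 1
  rw [Complex.div_natCast_re]
  congr 1
  simp [Complex.mul_re, Complex.add_re, Complex.add_im, Complex.mul_im]

lemma hasSum_dw {N : ℕ} [NeZero N] {F : Sym2 → ℂ} {a : ℤ × ℤ × ℤ → ℂ}
    (hF : HasFourierExpansion N F a) (τ₁ τ₂ : ℍ) :
    HasSum (fun T => ((T.2.1 : ℂ) / N * a T) * fourierTerm N T ((τ₁ : ℂ), (0 : ℂ), (τ₂ : ℂ)))
      ((2 * π * Complex.I)⁻¹ * deriv (fun w : ℂ => F ((τ₁ : ℂ), w, (τ₂ : ℂ))) 0) := by
  set m : ℝ := min τ₁.im τ₂.im with hm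
  have hm0 : 0 < m := lt_min τ₁.im_pos τ₂.im_pos
  set ε : ℝ := m / 2 with hε
  have hε0 : 0 < ε := by positivity
  have hεlt : ε ^ 2 < τ₁.im * τ₂.im := by
    have h1 : m ≤ τ₁.im := min_le_left _ _
    have h2 : m ≤ τ₂.im := min_le_right _ _
    have h3 : m * m ≤ τ₁.im * τ₂.im := mul_le_mul h1 h2 hm0.le τ₁.im_pos.le
    rw [hε]; nlinarith
  set U : Set ℂ := {w | |w.im| < ε} with hU
  have hUo : IsOpen U := isOpen_lt (by fun_prop) continuous_const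
  have hmem : ∀ w ∈ U, (((τ₁ : ℂ), w, (τ₂ : ℂ)) : Sym2) ∈ SiegelX := by
    intro w hw
    apply mem_pt
    have : w.im ^ 2 < ε ^ 2 := by
      rw [← sq_abs w.im]
      exact pow_lt_pow_left₀ hw (abs_nonneg _) (by norm_num)
    linarith
  set P : Sym2 := ((τ₁ : ℂ), (ε : ℂ) * Complex.I, (τ₂ : ℂ)) with hP
  set Q : Sym2 := ((τ₁ : ℂ), -(ε : ℂ) * Complex.I, (τ₂ : ℂ)) with hQ
  have hPm : P ∈ SiegelX := by apply mem_pt; simpa using hεlt
  have hQm : Q ∈ SiegelX := by apply mem_pt; simpa using hεlt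
  have hsum : Summable (fun T => ‖a T * fourierTerm N T P‖ + ‖a T * fourierTerm N T Q‖) :=
    (hF.2 P hPm).summable.norm.add (hF.2 Q hQm).summable.norm
  have hbd : ∀ (T : ℤ × ℤ × ℤ) (w : ℂ), w ∈ U →
      ‖a T * fourierTerm N T ((τ₁ : ℂ), w, (τ₂ : ℂ))‖ ≤
      ‖a T * fourierTerm N T P‖ + ‖a T * fourierTerm N T Q‖ := by
    intro T w hw
    rw [norm_mul, norm_mul, norm_mul, ← mul_add]
    refine mul_le_mul_of_nonneg_left ?_ (norm_nonneg _)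
    rw [norm_fourierTerm, norm_fourierTerm, norm_fourierTerm]
    have hN := N_pos N
    have hw' : -ε < w.im ∧ w.im < ε := abs_lt.mp (show |w.im| < ε from hw)
    rcases le_total 0 (T.2.1 : ℝ) with hr | hr
    · refine le_trans ?_ (le_add_of_nonneg_left (Real.exp_pos _).le)
      apply Real.exp_le_exp.mpr
      apply div_le_div_of_nonneg_right _ hN.le
      simp only [hQ]
      have : (-(ε : ℂ) * Complex.I).im = -ε := by simp
      rw [this]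
      have h1 : (T.2.1 : ℝ) * -ε ≤ T.2.1 * w.im := mul_le_mul_of_nonneg_left hw'.1.le hr
      nlinarith [Real.pi_pos]
    · refine le_trans ?_ (le_add_of_nonneg_right (Real.exp_pos _).le)
      apply Real.exp_le_exp.mpr
      apply div_le_div_of_nonneg_right _ hN.le
      simp only [hP]
      have : ((ε : ℂ) * Complex.I).im = ε := by simp
      rw [this]
      have h1 : (T.2.1 : ℝ) * ε ≤ T.2.1 * w.im := mul_le_mul_of_nonpos_left hw'.2.le hr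
      nlinarith [Real.pi_pos]
  have hdiff : ∀ T : ℤ × ℤ × ℤ, ∀ w : ℂ, HasDerivAt
      (fun w : ℂ => a T * fourierTerm N T ((τ₁ : ℂ), w, (τ₂ : ℂ)))
      (a T * (fourierTerm N T ((τ₁ : ℂ), w, (τ₂ : ℂ)) * (2 * π * Complex.I * T.2.1 / N))) w := by
    intro T w
    apply HasDerivAt.const_mul
    unfold fourierTerm
    apply HasDerivAt.cexp
    have h1 : HasDerivAt (fun w : ℂ => (T.1 * (τ₁ : ℂ) + T.2.1 * w + T.2.2 * (τ₂ : ℂ))) (T.2.1 : ℂ)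
        w := by
      have := ((hasDerivAt_id w).const_mul (T.2.1 : ℂ)).const_add (T.1 * (τ₁ : ℂ)) |>.add_const
        (T.2.2 * (τ₂ : ℂ))
      simpa using this
    exact (h1.const_mul (2 * π * Complex.I)).div_const (N : ℂ)
  have h0 : (0 : ℂ) ∈ U := by simp [hU, hε0]
  have key := Complex.hasSum_deriv_of_summable_norm
    (F := fun (T : ℤ × ℤ × ℤ) (w : ℂ) => a T * fourierTerm N T ((τ₁ : ℂ), w, (τ₂ : ℂ)))
    (U := U) hsum (fun T w _ => (hdiff T w).differentiableAt.differentiableWithinAt) hUo hbd h0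
  have heq : deriv (fun w => ∑' T, a T * fourierTerm N T ((τ₁ : ℂ), w, (τ₂ : ℂ))) 0 =
      deriv (fun w : ℂ => F ((τ₁ : ℂ), w, (τ₂ : ℂ))) 0 := by
    apply Filter.EventuallyEq.deriv_eq
    filter_upwards [hUo.mem_nhds h0] with w hw
    exact (hF.2 _ (hmem w hw)).tsum_eq
  rw [heq] at key
  have key2 := key.mul_left ((2 * π * Complex.I)⁻¹)
  refine HasSum.congr_fun' key2 fun T => ?_
  rw [(hdiff T 0).deriv]
  have hpi : (2 * π * Complex.I : ℂ) ≠ 0 := by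
    simp [Real.pi_ne_zero, Complex.I_ne_zero]
  field_simp

end Pool.Agent.H20.HASC
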