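import Pool.Agent.H20.HASC.SRational

set_option autoImplicit false

open Matrix Topology
open scoped Real

namespace Pool.Agent.H20.HASC

lemma s3_sq : ((Real.sqrt 3 : ℝ) : ℂ) ^ 2 = 3 := by
  rw [← Complex.ofReal_pow, Real.sq_sqrt (by norm_num)]
  norm_num

lemma dd_ne : -(2 + ((Real.sqrt 3 : ℝ) : ℂ)) ^ 2 - 1 ≠ 0 := by
  have : -(2 + ((Real.sqrt 3 : ℝ) : ℂ)) ^ 2 - 1 = ((-(2 + Real.sqrt 3) ^ 2 - 1 : ℝ) : ℂ) := by
    push_cast; ring
  rw [this, Complex.ofReal_ne_zero]
  nlinarith [sq_nonneg (2 + Real.sqrt 3)]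

lemma hc_z : harishChandra oPt zPt =
    (0, -8 * (Real.sqrt 3 : ℂ) / (-(2 + (Real.sqrt 3 : ℂ)) ^ 2 - 1),
      -4 * (Real.sqrt 3 : ℂ) * Complex.I / (-(2 + (Real.sqrt 3 : ℂ)) ^ 2 - 1)) := by
  have hs := s3_sq
  have hd := dd_ne
  set s : ℂ := (Real.sqrt 3 : ℂ) with hsdef
  have hI : Complex.I ^ 2 = -1 := Complex.I_sq
  have h1 : toMat zPt - toMat oPt = !![Complex.I * s - 2 * Complex.I, 1; 1,
      2 * Complex.I - Complex.I * s] := by
    ext i j
    fin_cases i <;> fin_cases j <;> simp [toMat, zPt, oPt, hsdef]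
  have h2 : (toMat oPt).map (starRingEnd ℂ) = !![-(2 * Complex.I), 0; 0, -(Complex.I * s)] := by
    ext i j
    fin_cases i <;> fin_cases j <;> simp [toMat, oPt, hsdef]
    exact Complex.conj_ofNat 2
  have h3 : toMat zPt - (toMat oPt).map (starRingEnd ℂ) =
      !![Complex.I * (2 + s), 1; 1, Complex.I * (2 + s)] := by
    rw [h2]
    ext i j
    fin_cases i <;> fin_cases j <;> simp [toMat, zPt, hsdef] <;> ring
  have h4 : toMat oPt - (toMat oPt).map (starRingEnd ℂ) =
      !![4 * Complex.I, 0; 0, 2 * (Complex.I * s)] := by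
    rw [h2]
    ext i j
    fin_cases i <;> fin_cases j <;> simp [toMat, oPt, hsdef] <;> ring
  have h5 : (!![Complex.I * (2 + s), 1; 1, Complex.I * (2 + s)])⁻¹ =
      !![Complex.I * (2 + s) / (-(2 + s) ^ 2 - 1), -1 / (-(2 + s) ^ 2 - 1);
        -1 / (-(2 + s) ^ 2 - 1), Complex.I * (2 + s) / (-(2 + s) ^ 2 - 1)] := by
    apply Matrix.inv_eq_right_inv
    ext i j
    fin_cases i <;> fin_cases j <;> simp [Matrix.mul_apply, Fin.sum_univ_two]
    · field_simp
      linear_combination (2 + s) ^ 2 * hI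
    · field_simp
      ring
    · field_simp
      ring
    · field_simp
      linear_combination (2 + s) ^ 2 * hI
  rw [harishChandra, h3, h4, h5, h1]
  simp only [ofMat, Matrix.mul_apply, Fin.sum_univ_two, Matrix.of_apply, Matrix.cons_val',
    Matrix.cons_val_zero, Matrix.cons_val_one, Matrix.cons_val_fin_one]
  refine Prod.ext ?_ (Prod.ext ?_ ?_)
  · simp only
    field_simp
    linear_combination 4 * Complex.I * (s ^ 2 - 4) * hI - 4 * Complex.I * hs
  · simp only
    field_simp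
    linear_combination 8 * s * hI
  · simp only
    field_simp
    linear_combination 2 * s * (4 - s ^ 2) * hI + 2 * s * hs

lemma hc_mem : harishChandra oPt zPt ∈ V11 := by
  rw [hc_z]; exact rfl

lemma hc_ne : (harishChandra oPt zPt).2.1 ≠ 0 := by
  rw [hc_z]
  simp only
  apply div_ne_zero _ dd_ne
  have : ((Real.sqrt 3 : ℝ) : ℂ) ≠ 0 := by
    intro h
    have := s3_sq
    rw [h] at this
    norm_num at this
  simp [this]

end Pool.Agent.H20.HASC
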