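import Pool.Agent.H20.HASC.SFourier

set_option autoImplicit false

open Matrix Topology UpperHalfPlane ModularForm CongruenceSubgroup MatrixGroups
open scoped Real

namespace Pool.Agent.H20.HASC

/-- restriction to the diagonal -/
def restr (F : Sym2 → ℂ) (τ₁ τ₂ : ℍ) : ℂ := F ((τ₁ : ℂ), (0 : ℂ), (τ₂ : ℂ))

/-- first normal derivative along the diagonal -/
noncomputable def dw (F : Sym2 → ℂ) (τ₁ τ₂ : ℍ) : ℂ :=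
  (2 * π * Complex.I)⁻¹ * deriv (fun w : ℂ => F ((τ₁ : ℂ), w, (τ₂ : ℂ))) 0

/-- slash operator -/
noncomputable def slashS (k : ℕ) (γ : Matrix I4 I4 ℤ) (F : Sym2 → ℂ) (τ : Sym2) : ℂ :=
  ((HASC.denom (intMat γ) τ).det ^ k)⁻¹ * F (act (intMat γ) τ)

lemma D_ne (δ : SL(2, ℤ)) (τ : ℍ) : (δ.1 1 0 : ℂ) * τ + δ.1 1 1 ≠ 0 := by
  have := UpperHalfPlane.denom_ne_zero (δ : GL (Fin 2) ℝ) τ
  rw [ModularGroup.denom_apply] at this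
  exact this

lemma slash_explicit (k : ℤ) (δ : SL(2, ℤ)) (f : ℍ → ℂ) (τ : ℍ) :
    (f ∣[k] δ) τ = f (δ • τ) * ((δ.1 1 0 : ℂ) * τ + δ.1 1 1) ^ (-k) := by
  rw [SL_slash_apply, ModularGroup.denom_apply]

lemma coe_smul_explicit (δ : SL(2, ℤ)) (τ : ℍ) :
    ((δ • τ : ℍ) : ℂ) = ((δ.1 0 0 : ℂ) * τ + δ.1 0 1) / ((δ.1 1 0 : ℂ) * τ + δ.1 1 1) := by
  rw [UpperHalfPlane.coe_specialLinearGroup_apply]
  simp

lemma restr_slash2 (k : ℕ) (δ : SL(2, ℤ)) (F : Sym2 → ℂ) (τ₁ τ₂ : ℍ) :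
    restr (slashS k (iota2 δ) F) τ₁ τ₂ = ((fun τ => restr F τ₁ τ) ∣[(k : ℤ)] δ) τ₂ := by
  rw [slash_explicit, restr, slashS, det_denom_iota2, act_iota2 _ _ (D_ne δ τ₂), restr,
    coe_smul_explicit]
  simp only [_root_.zpow_neg, zpow_natCast]
  rw [mul_comm]
  congr 2
  simp

lemma restr_slash1 (k : ℕ) (δ : SL(2, ℤ)) (F : Sym2 → ℂ) (τ₁ τ₂ : ℍ) :
    restr (slashS k (iota1 δ) F) τ₁ τ₂ = ((fun τ => restr F τ τ₂) ∣[(k : ℤ)] δ) τ₁ := by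
  rw [slash_explicit, restr, slashS, det_denom_iota1, act_iota1 _ _ (D_ne δ τ₁), restr,
    coe_smul_explicit]
  simp only [_root_.zpow_neg, zpow_natCast]
  rw [mul_comm]
  congr 2
  simp

lemma deriv_w {F : Sym2 → ℂ} (hF : DifferentiableOn ℂ F SiegelX) (τ₁ τ₂ : ℍ) :
    deriv (fun w : ℂ => F ((τ₁ : ℂ), w, (τ₂ : ℂ))) 0 =
      fderiv ℂ F ((τ₁ : ℂ), (0 : ℂ), (τ₂ : ℂ)) (0, 1, 0) := by
  have h1 : DifferentiableAt ℂ F ((τ₁ : ℂ), (0 : ℂ), (τ₂ : ℂ)) :=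
    (hF _ (mem_pt_zero τ₁ τ₂)).differentiableAt (isOpen_SiegelX.mem_nhds (mem_pt_zero τ₁ τ₂))
  have h2 : HasDerivAt (fun w : ℂ => (((τ₁ : ℂ), w, (τ₂ : ℂ)) : Sym2)) (0, 1, 0) 0 :=
    (hasDerivAt_const _ _).prodMk ((hasDerivAt_id _).prodMk (hasDerivAt_const _ _))
  exact (h1.hasFDerivAt.comp_hasDerivAt (0 : ℂ) h2).deriv

lemma dw_slash2 (k : ℕ) (δ : SL(2, ℤ)) {F : Sym2 → ℂ} (hF : DifferentiableOn ℂ F SiegelX)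
    (τ₁ τ₂ : ℍ) :
    dw (slashS k (iota2 δ) F) τ₁ τ₂ = ((fun τ => dw F τ₁ τ) ∣[((k + 1 : ℕ) : ℤ)] δ) τ₂ := by
  set D : ℂ := (δ.1 1 0 : ℂ) * τ₂ + δ.1 1 1 with hD
  have hD0 : D ≠ 0 := D_ne δ τ₂
  have h1 : DifferentiableAt ℂ F ((τ₁ : ℂ), (0 : ℂ), ((δ • τ₂ : ℍ) : ℂ)) :=
    (hF _ (mem_pt_zero τ₁ (δ • τ₂))).differentiableAt
      (isOpen_SiegelX.mem_nhds (mem_pt_zero τ₁ (δ • τ₂)))
  have h2 : HasDerivAt (fun w : ℂ => (((τ₁ : ℂ) - (δ.1 1 0 : ℂ) * w ^ 2 / D, w / D,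
      ((δ • τ₂ : ℍ) : ℂ)) : Sym2)) (0, 1 / D, 0) 0 := by
    refine HasDerivAt.prodMk ?_ (HasDerivAt.prodMk ?_ (hasDerivAt_const _ _))
    · have := (((hasDerivAt_pow 2 (0 : ℂ)).const_mul (δ.1 1 0 : ℂ)).div_const D).const_sub (τ₁ : ℂ)
      simpa using this
    · exact (hasDerivAt_id (0 : ℂ)).div_const D
  have h3 : HasFDerivAt F (fderiv ℂ F ((τ₁ : ℂ), (0 : ℂ), ((δ • τ₂ : ℍ) : ℂ)))
      ((fun w : ℂ => (((τ₁ : ℂ) - (δ.1 1 0 : ℂ) * w ^ 2 / D, w / D,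
      ((δ • τ₂ : ℍ) : ℂ)) : Sym2)) 0) := by
    have : ((fun w : ℂ => (((τ₁ : ℂ) - (δ.1 1 0 : ℂ) * w ^ 2 / D, w / D,
      ((δ • τ₂ : ℍ) : ℂ)) : Sym2)) 0) = ((τ₁ : ℂ), (0 : ℂ), ((δ • τ₂ : ℍ) : ℂ)) := by
      simp
    rw [this]
    exact h1.hasFDerivAt
  have h4 := h3.comp_hasDerivAt (0 : ℂ) h2
  have h5 : (fun w : ℂ => slashS k (iota2 δ) F ((τ₁ : ℂ), w, (τ₂ : ℂ))) =
      fun w => (D ^ k)⁻¹ * (F ∘ (fun w : ℂ => (((τ₁ : ℂ) - (δ.1 1 0 : ℂ) * w ^ 2 / D, w / D,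
      ((δ • τ₂ : ℍ) : ℂ)) : Sym2))) w := by
    funext w
    rw [slashS, det_denom_iota2, act_iota2 _ _ (D_ne δ τ₂)]
    simp only [Function.comp]
    rw [coe_smul_explicit]
  rw [slash_explicit, dw, dw, h5, (h4.const_mul ((D ^ k)⁻¹)).deriv, deriv_w hF, ← hD]
  have h6 : ((0, 1 / D, 0) : Sym2) = (1 / D) • ((0, 1, 0) : Sym2) := by
    simp
  rw [h6, map_smul, smul_eq_mul, _root_.zpow_neg, zpow_natCast, pow_succ]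
  field_simp

lemma dw_slash1 (k : ℕ) (δ : SL(2, ℤ)) {F : Sym2 → ℂ} (hF : DifferentiableOn ℂ F SiegelX)
    (τ₁ τ₂ : ℍ) :
    dw (slashS k (iota1 δ) F) τ₁ τ₂ = ((fun τ => dw F τ τ₂) ∣[((k + 1 : ℕ) : ℤ)] δ) τ₁ := by
  set D : ℂ := (δ.1 1 0 : ℂ) * τ₁ + δ.1 1 1 with hD
  have hD0 : D ≠ 0 := D_ne δ τ₁
  have h1 : DifferentiableAt ℂ F (((δ • τ₁ : ℍ) : ℂ), (0 : ℂ), (τ₂ : ℂ)) :=
    (hF _ (mem_pt_zero (δ • τ₁) τ₂)).differentiableAt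
      (isOpen_SiegelX.mem_nhds (mem_pt_zero (δ • τ₁) τ₂))
  have h2 : HasDerivAt (fun w : ℂ => ((((δ • τ₁ : ℍ) : ℂ), w / D,
      (τ₂ : ℂ) - (δ.1 1 0 : ℂ) * w ^ 2 / D) : Sym2)) (0, 1 / D, 0) 0 := by
    refine HasDerivAt.prodMk (hasDerivAt_const _ _) (HasDerivAt.prodMk ?_ ?_)
    · exact (hasDerivAt_id (0 : ℂ)).div_const D
    · have := (((hasDerivAt_pow 2 (0 : ℂ)).const_mul (δ.1 1 0 : ℂ)).div_const D).const_sub (τ₂ : ℂ)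
      simpa using this
  have h3 : HasFDerivAt F (fderiv ℂ F (((δ • τ₁ : ℍ) : ℂ), (0 : ℂ), (τ₂ : ℂ)))
      ((fun w : ℂ => ((((δ • τ₁ : ℍ) : ℂ), w / D,
      (τ₂ : ℂ) - (δ.1 1 0 : ℂ) * w ^ 2 / D) : Sym2)) 0) := by
    have : ((fun w : ℂ => ((((δ • τ₁ : ℍ) : ℂ), w / D,
      (τ₂ : ℂ) - (δ.1 1 0 : ℂ) * w ^ 2 / D) : Sym2)) 0) =
        (((δ • τ₁ : ℍ) : ℂ), (0 : ℂ), (τ₂ : ℂ)) := by
      simp
    rw [this]
    exact h1.hasFDerivAt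
  have h4 := h3.comp_hasDerivAt (0 : ℂ) h2
  have h5 : (fun w : ℂ => slashS k (iota1 δ) F ((τ₁ : ℂ), w, (τ₂ : ℂ))) =
      fun w => (D ^ k)⁻¹ * (F ∘ (fun w : ℂ => ((((δ • τ₁ : ℍ) : ℂ), w / D,
      (τ₂ : ℂ) - (δ.1 1 0 : ℂ) * w ^ 2 / D) : Sym2))) w := by
    funext w
    rw [slashS, det_denom_iota1, act_iota1 _ _ (D_ne δ τ₁)]
    simp only [Function.comp]
    rw [coe_smul_explicit]
  rw [slash_explicit, dw, dw, h5, (h4.const_mul ((D ^ k)⁻¹)).deriv, deriv_w hF, ← hD]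
  have h6 : ((0, 1 / D, 0) : Sym2) = (1 / D) • ((0, 1, 0) : Sym2) := by
    simp
  rw [h6, map_smul, smul_eq_mul, _root_.zpow_neg, zpow_natCast, pow_succ]
  field_simp

lemma slashS_GammaN {N k : ℕ} {f : Sym2 → ℂ} (h : IsSiegelForm N k f) {γ : Matrix I4 I4 ℤ}
    (hγ : γ ∈ GammaN N) {τ : Sym2} (hτ : τ ∈ SiegelX) : slashS k γ f τ = f τ := by
  rw [slashS, h.modular γ hγ τ hτ, ← mul_assoc, inv_mul_cancel₀, one_mul]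
  exact pow_ne_zero _ (denom_det_ne (isGSpPos_of_mem hγ.1) hτ)

lemma pt_nhds (τ₁ τ₂ : ℍ) : ∀ᶠ w : ℂ in 𝓝 0, (((τ₁ : ℂ), w, (τ₂ : ℂ)) : Sym2) ∈ SiegelX := by
  have h2 : Continuous (fun w : ℂ => (((τ₁ : ℂ), w, (τ₂ : ℂ)) : Sym2)) := by fun_prop
  exact h2.continuousAt.preimage_mem_nhds (isOpen_SiegelX.mem_nhds (mem_pt_zero τ₁ τ₂))

lemma dw_congr {F G : Sym2 → ℂ} (h : ∀ τ ∈ SiegelX, F τ = G τ) (τ₁ τ₂ : ℍ) :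
    dw F τ₁ τ₂ = dw G τ₁ τ₂ := by
  rw [dw, dw]
  congr 1
  apply Filter.EventuallyEq.deriv_eq
  filter_upwards [pt_nhds τ₁ τ₂] with w hw
  exact h _ hw

lemma biSum_restr {N : ℕ} {F : Sym2 → ℂ} {a : ℤ × ℤ × ℤ → ℂ} (h : HasFourierExpansion N F a) :
    HasBiSum N (collapse a) (restr F) :=
  fun τ₁ τ₂ => hasSum_collapse h.1 (h.2 _ (mem_pt_zero τ₁ τ₂))

lemma biSum_dw {N : ℕ} [NeZero N] {F : Sym2 → ℂ} {a : ℤ × ℤ × ℤ → ℂ}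
    (h : HasFourierExpansion N F a) :
    HasBiSum N (collapse (fun T => (T.2.1 : ℂ) / N * a T)) (dw F) :=
  fun τ₁ τ₂ => hasSum_collapse (fun n r m hb => h.1 n r m (right_ne_zero_of_mul hb))
    (hasSum_dw h τ₁ τ₂)

lemma collapse_mem {a : ℤ × ℤ × ℤ → ℂ} (h : ∀ T, a T ∈ QB) (p : ℕ × ℕ) : collapse a p ∈ QB :=
  sum_mem fun r _ => h _

theorem IsQbarForm.restr {N : ℕ} [NeZero N] {k : ℕ} {f : Sym2 → ℂ} (h : IsQbarForm N k f) :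
    IsABi N k k (restr f) where
  inv1 γ hγ τ₂ := by
    funext τ₁
    rw [← restr_slash1]
    exact slashS_GammaN h.1 (iota1_GammaN hγ) (mem_pt_zero τ₁ τ₂)
  inv2 γ hγ τ₁ := by
    funext τ₂
    rw [← restr_slash2]
    exact slashS_GammaN h.1 (iota2_GammaN hγ) (mem_pt_zero τ₁ τ₂)
  exp1 δ := by
    obtain ⟨a, ha⟩ := h.1.cusps (iota1 δ) (iota1_mem δ)
    refine ⟨collapse a, fun τ₁ τ₂ => ?_⟩
    have := biSum_restr ha τ₁ τ₂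
    have e := restr_slash1 k δ f τ₁ τ₂
    simp only
    rw [← e]
    exact this
  exp2 δ := by
    obtain ⟨a, ha⟩ := h.1.cusps (iota2 δ) (iota2_mem δ)
    refine ⟨collapse a, fun τ₁ τ₂ => ?_⟩
    have := biSum_restr ha τ₁ τ₂
    have e := restr_slash2 k δ f τ₁ τ₂
    simp only
    rw [← e]
    exact this
  alg := by
    obtain ⟨a, ha, ha'⟩ := h.2
    exact ⟨collapse a, collapse_mem fun T => mem_QB.mpr (ha T), biSum_restr ha'⟩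

theorem IsQbarForm.dw {N : ℕ} [NeZero N] {k : ℕ} {f : Sym2 → ℂ} (h : IsQbarForm N k f) :
    IsABi N ((k + 1 : ℕ) : ℤ) ((k + 1 : ℕ) : ℤ) (dw f) where
  inv1 γ hγ τ₂ := by
    funext τ₁
    rw [← dw_slash1 k γ h.1.holo]
    exact dw_congr (fun τ hτ => slashS_GammaN h.1 (iota1_GammaN hγ) hτ) τ₁ τ₂
  inv2 γ hγ τ₁ := by
    funext τ₂
    rw [← dw_slash2 k γ h.1.holo]
    exact dw_congr (fun τ hτ => slashS_GammaN h.1 (iota2_GammaN hγ) hτ) τ₁ τ₂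
  exp1 δ := by
    obtain ⟨a, ha⟩ := h.1.cusps (iota1 δ) (iota1_mem δ)
    refine ⟨collapse (fun T => (T.2.1 : ℂ) / N * a T), fun τ₁ τ₂ => ?_⟩
    have := biSum_dw ha τ₁ τ₂
    have e := dw_slash1 k δ h.1.holo τ₁ τ₂
    simp only
    rw [← e]
    exact this
  exp2 δ := by
    obtain ⟨a, ha⟩ := h.1.cusps (iota2 δ) (iota2_mem δ)
    refine ⟨collapse (fun T => (T.2.1 : ℂ) / N * a T), fun τ₁ τ₂ => ?_⟩
    have := biSum_dw ha τ₁ τ₂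
    have e := dw_slash2 k δ h.1.holo τ₁ τ₂
    simp only
    rw [← e]
    exact this
  alg := by
    obtain ⟨a, ha, ha'⟩ := h.2
    refine ⟨_, collapse_mem fun T => ?_, biSum_dw ha'⟩
    exact mul_mem (div_mem (intCast_mem QB _) (natCast_mem QB N)) (mem_QB.mpr (ha T))

end Pool.Agent.H20.HASC
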