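import Pool.Agent.H20.HASC.SShift

set_option autoImplicit false

open Matrix Topology UpperHalfPlane ModularForm CongruenceSubgroup MatrixGroups Derivative
open scoped Real

namespace Pool.Agent.H20.HASC

lemma hasDerivAt_line (o v : Sym2) : HasDerivAt (fun t : ℂ => o + t • v) v 0 := by
  have := ((hasDerivAt_id (0 : ℂ)).smul_const v).const_add o
  simpa using this

lemma deriv_line {f : Sym2 → ℂ} {o v : Sym2} (hf : DifferentiableAt ℂ f o) :
    HasDerivAt (fun t : ℂ => f (o + t • v)) (fderiv ℂ f o v) 0 := by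
  have h1 : HasFDerivAt f (fderiv ℂ f o) (o + (0 : ℂ) • v) := by
    rw [zero_smul, add_zero]; exact hf.hasFDerivAt
  exact h1.comp_hasDerivAt (0 : ℂ) (hasDerivAt_line o v)

lemma fderiv_quot {f g : Sym2 → ℂ} {o v : Sym2} (hf : DifferentiableAt ℂ f o)
    (hg : DifferentiableAt ℂ g o) (h0 : g o ≠ 0) :
    fderiv ℂ (fun τ => f τ / g τ) o v =
      (fderiv ℂ f o v * g o - f o * fderiv ℂ g o v) / g o ^ 2 := by
  have hq : DifferentiableAt ℂ (fun τ => f τ / g τ) o := by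
    have h2 : DifferentiableAt ℂ (fun τ => (g τ)⁻¹) o :=
      DifferentiableAt.comp o (differentiableAt_inv h0) hg
    have e : (fun τ => f τ / g τ) = f * (fun τ => (g τ)⁻¹) := by
      funext τ
      rw [Pi.mul_apply, div_eq_mul_inv]
    rw [e]
    exact hf.mul h2
  have h1 := deriv_line (v := v) hq
  have h0' : g (o + (0 : ℂ) • v) ≠ 0 := by rw [zero_smul, add_zero]; exact h0
  have h2 := (deriv_line (v := v) hf).div (deriv_line (v := v) hg) h0'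
  rw [zero_smul, add_zero] at h2
  exact h1.unique h2

lemma diffAt {N k : ℕ} {f : Sym2 → ℂ} (hf : IsQbarForm N k f) {τ : Sym2} (h : τ ∈ SiegelX) :
    DifferentiableAt ℂ f τ :=
  (hf.1.holo _ h).differentiableAt (isOpen_SiegelX.mem_nhds h)

lemma two_pi_I_ne : (2 * π * Complex.I : ℂ) ≠ 0 := by
  simp [Real.pi_ne_zero, Complex.I_ne_zero]

lemma fderiv_w {N k : ℕ} {f : Sym2 → ℂ} (hf : IsQbarForm N k f) :
    fderiv ℂ f oPt (0, 1, 0) = (2 * π * Complex.I) * dw f pt2I ptS3 := by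
  rw [dw, deriv_w hf.1.holo, oPt_eq, ← mul_assoc, mul_inv_cancel₀ two_pi_I_ne, one_mul]

lemma fderiv_2 {N k : ℕ} {f : Sym2 → ℂ} (hf : IsQbarForm N k f) :
    fderiv ℂ f oPt (0, 0, 1) =
      (2 * π * Complex.I) * normalizedDerivOfComplex (fun τ => restr f pt2I τ) ptS3 := by
  rw [normalizedDerivOfComplex, ← mul_assoc, mul_inv_cancel₀ two_pi_I_ne, one_mul]
  have h1 : HasFDerivAt f (fderiv ℂ f oPt) ((pt2I : ℂ), (0 : ℂ), (ptS3 : ℂ)) := by
    rw [← oPt_eq]; exact (diffAt hf oPt_mem).hasFDerivAt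
  have h2 : HasDerivAt (fun w : ℂ => (((pt2I : ℂ), (0 : ℂ), w) : Sym2)) (0, 0, 1) (ptS3 : ℂ) :=
    (hasDerivAt_const _ _).prodMk ((hasDerivAt_const _ _).prodMk (hasDerivAt_id _))
  have h3 := h1.comp_hasDerivAt (ptS3 : ℂ) h2
  rw [← h3.deriv]
  apply Filter.EventuallyEq.deriv_eq
  have : {w : ℂ | 0 < w.im} ∈ 𝓝 (ptS3 : ℂ) :=
    (isOpen_lt continuous_const Complex.continuous_im).mem_nhds ptS3.im_pos
  filter_upwards [this] with w hw
  simp only [Function.comp, restr]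
  rw [ofComplex_apply_of_im_pos hw]

lemma alg_div_of {x y A : ℂ} (hA : A ≠ 0) (hx : IsAlgebraic ℚ (x / A)) (hy : IsAlgebraic ℚ (y / A)) :
    IsAlgebraic ℚ (x / y) := by
  have h5 : x / y = (x / A) / (y / A) := by
    rw [div_div_div_cancel_right₀ hA]
  rw [h5, ← mem_QB]
  exact div_mem (mem_QB.mpr hx) (mem_QB.mpr hy)

/-- the subspace `V` -/
def V11 : Submodule ℂ Sym2 where
  carrier := {v | v.1 = 0}
  add_mem' := by
    intro a b ha hb
    change a.1 = 0 at ha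
    change b.1 = 0 at hb
    change (a + b).1 = 0
    rw [Prod.fst_add, ha, hb, add_zero]
  zero_mem' := rfl
  smul_mem' := by
    intro c a ha
    change a.1 = 0 at ha
    change (c • a).1 = 0
    rw [Prod.smul_fst, ha, smul_zero]

lemma mem_V11 {v : Sym2} : v ∈ V11 ↔ v.1 = 0 := Iff.rfl

theorem rational_w {N : ℕ} [NeZero N] {Ω₁ Ω₂ : ℂ} (h1 : GoodPoint pt2I Ω₁)
    (h2 : GoodPoint ptS3 Ω₂) :
    ((0, (2 * π * Complex.I * Ω₁ * Ω₂)⁻¹, 0) : Sym2) ∈ arithStructure N oPt := by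
  intro k f g hf hg hg0
  have h6 : ((0, (2 * π * Complex.I * Ω₁ * Ω₂)⁻¹, 0) : Sym2) =
      (2 * π * Complex.I * Ω₁ * Ω₂)⁻¹ • ((0, 1, 0) : Sym2) := by
    simp
  rw [h6, map_smul, smul_eq_mul, fderiv_quot (diffAt hf oPt_mem) (diffAt hg oPt_mem) hg0,
    fderiv_w hf, fderiv_w hg]
  have va := hf.restr.value h1 h2
  have vb := hg.restr.value h1 h2
  have da := hf.dw.value h1 h2
  have db := hg.dw.value h1 h2
  have ea : restr f pt2I ptS3 = f oPt := by rw [restr, oPt_eq]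
  have eb : restr g pt2I ptS3 = g oPt := by rw [restr, oPt_eq]
  rw [ea] at va
  rw [eb] at vb
  rw [← mem_QB] at va vb da db ⊢
  have hΩ1 := h1.1
  have hΩ2 := h2.1
  have h2pi := two_pi_I_ne
  set x := f oPt / (Ω₁ ^ k * Ω₂ ^ k) with hx
  set y := g oPt / (Ω₁ ^ k * Ω₂ ^ k) with hy
  set u := dw f pt2I ptS3 / (Ω₁ ^ (k + 1) * Ω₂ ^ (k + 1)) with hu
  set v := dw g pt2I ptS3 / (Ω₁ ^ (k + 1) * Ω₂ ^ (k + 1)) with hv
  have hA : Ω₁ ^ k * Ω₂ ^ k ≠ 0 := mul_ne_zero (pow_ne_zero _ hΩ1) (pow_ne_zero _ hΩ2)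
  have hB : Ω₁ ^ (k + 1) * Ω₂ ^ (k + 1) ≠ 0 :=
    mul_ne_zero (pow_ne_zero _ hΩ1) (pow_ne_zero _ hΩ2)
  have e1 : f oPt = x * (Ω₁ ^ k * Ω₂ ^ k) := by rw [hx, div_mul_cancel₀ _ hA]
  have e2 : g oPt = y * (Ω₁ ^ k * Ω₂ ^ k) := by rw [hy, div_mul_cancel₀ _ hA]
  have e3 : dw f pt2I ptS3 = u * (Ω₁ ^ (k + 1) * Ω₂ ^ (k + 1)) := by rw [hu, div_mul_cancel₀ _ hB]
  have e4 : dw g pt2I ptS3 = v * (Ω₁ ^ (k + 1) * Ω₂ ^ (k + 1)) := by rw [hv, div_mul_cancel₀ _ hB]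
  have hy0 : y ≠ 0 := by
    intro h0
    rw [h0, zero_mul] at e2
    exact hg0 e2
  have key : (2 * π * Complex.I * Ω₁ * Ω₂)⁻¹ *
      ((2 * π * Complex.I * dw f pt2I ptS3 * g oPt - f oPt * (2 * π * Complex.I * dw g pt2I ptS3)) /
        g oPt ^ 2) = (u * y - x * v) / y ^ 2 := by
    rw [e1, e2, e3, e4]
    have hpi : (π : ℂ) ≠ 0 := by simp [Real.pi_ne_zero]
    have hI := Complex.I_ne_zero
    field_simp
    ring
  rw [key]
  exact div_mem (sub_mem (mul_mem da vb) (mul_mem va db)) (pow_mem vb 2)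

theorem rational_2 {N : ℕ} [NeZero N] {Ω₁ Ω₂ : ℂ} (h1 : GoodPoint pt2I Ω₁)
    (h2 : GoodPoint ptS3 Ω₂) :
    ((0, 0, (2 * π * Complex.I * Ω₂ ^ 2)⁻¹) : Sym2) ∈ arithStructure N oPt := by
  intro k f g hf hg hg0
  have h6 : ((0, 0, (2 * π * Complex.I * Ω₂ ^ 2)⁻¹) : Sym2) =
      (2 * π * Complex.I * Ω₂ ^ 2)⁻¹ • ((0, 0, 1) : Sym2) := by
    simp
  rw [h6, map_smul, smul_eq_mul, fderiv_quot (diffAt hf oPt_mem) (diffAt hg oPt_mem) hg0,
    fderiv_2 hf, fderiv_2 hg]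
  have hΩ1 := h1.1
  have hΩ2 := h2.1
  have hdq := h2.deriv_quot (hf.restr.eval_first h1) (hg.restr.eval_first h1)
  have vb := h2.2 N k _ (hg.restr.eval_first h1)
  have hfun : ∀ F : Sym2 → ℂ, normalizedDerivOfComplex (fun τ => restr F pt2I τ / Ω₁ ^ k) ptS3 =
      normalizedDerivOfComplex (fun τ => restr F pt2I τ) ptS3 / Ω₁ ^ k := by
    intro F
    rw [normalizedDerivOfComplex, normalizedDerivOfComplex]
    have : (fun τ : ℍ => restr F pt2I τ / Ω₁ ^ k) ∘ ofComplex =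
        fun w => ((fun τ : ℍ => restr F pt2I τ) ∘ ofComplex) w / Ω₁ ^ k := rfl
    rw [this, deriv_div_const]
    ring
  rw [hfun f, hfun g] at hdq
  have ea : restr f pt2I ptS3 = f oPt := by rw [restr, oPt_eq]
  have eb : restr g pt2I ptS3 = g oPt := by rw [restr, oPt_eq]
  simp only [ea, eb] at hdq vb
  set p := normalizedDerivOfComplex (fun τ => restr f pt2I τ) ptS3 with hp
  set q := normalizedDerivOfComplex (fun τ => restr g pt2I τ) ptS3 with hq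
  have hA : Ω₁ ^ k ≠ 0 := pow_ne_zero _ hΩ1
  have hB : Ω₂ ^ k ≠ 0 := pow_ne_zero _ hΩ2
  have key : (2 * π * Complex.I * Ω₂ ^ 2)⁻¹ *
      ((2 * π * Complex.I * p * g oPt - f oPt * (2 * π * Complex.I * q)) / g oPt ^ 2) =
      ((p / Ω₁ ^ k * (g oPt / Ω₁ ^ k) - f oPt / Ω₁ ^ k * (q / Ω₁ ^ k)) / Ω₂ ^ (2 * k + 2)) /
        ((g oPt / Ω₁ ^ k) / Ω₂ ^ k) ^ 2 := by
    have hpi : (π : ℂ) ≠ 0 := by simp [Real.pi_ne_zero]
    have hI := Complex.I_ne_zero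
    field_simp
    ring
  rw [key, ← mem_QB]
  exact div_mem (mem_QB.mpr hdq) (pow_mem (mem_QB.mpr vb) 2)

theorem isRationalFor_V {N : ℕ} [NeZero N] : IsRationalFor (arithStructure N oPt) V11 := by
  obtain ⟨Ω₁, h1⟩ := exists_goodPoint_2I
  obtain ⟨Ω₂, h2⟩ := exists_goodPoint_S3
  apply le_antisymm
  · rw [Submodule.span_le]
    intro v hv
    exact hv.1
  · intro v hv
    have hv0 : v.1 = 0 := hv
    set α : ℂ := (2 * π * Complex.I * Ω₁ * Ω₂)⁻¹ with hα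
    set β : ℂ := (2 * π * Complex.I * Ω₂ ^ 2)⁻¹ with hβ
    have hα0 : α ≠ 0 := by
      rw [hα]
      exact inv_ne_zero (mul_ne_zero (mul_ne_zero two_pi_I_ne h1.1) h2.1)
    have hβ0 : β ≠ 0 := by
      rw [hβ]
      exact inv_ne_zero (mul_ne_zero two_pi_I_ne (pow_ne_zero _ h2.1))
    have e : v = (v.2.1 / α) • ((0, α, 0) : Sym2) + (v.2.2 / β) • ((0, 0, β) : Sym2) := by
      refine Prod.ext ?_ (Prod.ext ?_ ?_)
      · simp [hv0]
      · simp [hα0]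
      · simp [hβ0]
    rw [e]
    refine Submodule.add_mem _ (Submodule.smul_mem _ _ (Submodule.subset_span ⟨?_, ?_⟩))
      (Submodule.smul_mem _ _ (Submodule.subset_span ⟨?_, ?_⟩))
    · exact rfl
    · exact rational_w h1 h2
    · exact rfl
    · exact rational_2 h1 h2

end Pool.Agent.H20.HASC
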